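import Mathlib

open Real AddMonoidAlgebra Finset MeasureTheory ProbabilityTheory Filter Topology

namespace Pool.Agent.Results.MP_b45167_pr.EntropyGrowth

/-! ### Definitions used in the statement -/

/-- The law of `S_n = X_1 + ... + X_n`, where `X_1, ..., X_n` are independent copies of a random
variable of law `p`: `S_0 = 0`, and `S_{n+1} = S_n + X` with `X` of law `p` independent of `S_n`. -/
noncomputable def sumLaw {G : Type*} [AddCommGroup G] (p : PMF G) : ℕ → PMF G
  | 0 => PMF.pure 0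
  | n + 1 => (sumLaw p n).bind fun s => p.map fun x => s + x

/-- The Shannon entropy in bits of a random variable of law `p`. -/
noncomputable def entropyBits {G : Type*} (p : PMF G) : ℝ :=
  ∑' g, -((p g).toReal * logb 2 (p g).toReal)

/-- The entropy is finite: the series defining it (all of whose terms are nonnegative)
converges. -/
def FiniteEntropy {G : Type*} (p : PMF G) : Prop :=
  Summable fun g => -((p g).toReal * logb 2 (p g).toReal)

/-! ### Development -/

section PartBase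

variable {G : Type*} [AddCommGroup G]

/-- Expectation of `F` under the finitely supported weight `μ`. -/
noncomputable def E (μ : AddMonoidAlgebra ℝ G) (F : G → ℝ) : ℝ :=
  μ.coeff.sum fun g w => w * F g

/-- `μ` is a probability weight. -/
structure IsP (μ : AddMonoidAlgebra ℝ G) : Prop where
  nonneg : ∀ g, 0 ≤ μ.coeff g
  mass : E μ (fun _ => 1) = 1

/-- Entropy (natural logarithm). -/
noncomputable def ent (μ : AddMonoidAlgebra ℝ G) : ℝ := E μ fun g => -log (μ.coeff g)

theorem E_def (μ : AddMonoidAlgebra ℝ G) (F : G → ℝ) :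
    E μ F = ∑ g ∈ μ.coeff.support, μ.coeff g * F g := rfl

theorem E_eq_sum (μ : AddMonoidAlgebra ℝ G) (F : G → ℝ) (s : Finset G)
    (hs : μ.coeff.support ⊆ s) : E μ F = ∑ g ∈ s, μ.coeff g * F g := by
  rw [E_def]
  apply Finset.sum_subset hs
  intro g _ hg
  rw [Finsupp.notMem_support_iff.1 hg, zero_mul]

theorem E_single (a : G) (r : ℝ) (F : G → ℝ) : E (single a r) F = r * F a := by
  unfold E
  rw [coeff_single, Finsupp.sum_single_index]
  simp

theorem E_zero (F : G → ℝ) : E (0 : AddMonoidAlgebra ℝ G) F = 0 := by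
  unfold E; simp

theorem E_one (F : G → ℝ) : E (1 : AddMonoidAlgebra ℝ G) F = F 0 := by
  rw [AddMonoidAlgebra.one_def, E_single, one_mul]

theorem E_add (μ ν : AddMonoidAlgebra ℝ G) (F : G → ℝ) : E (μ + ν) F = E μ F + E ν F := by
  classical
  unfold E
  rw [coeff_add, Finsupp.sum_add_index]
  · simp
  · intros; ring

theorem E_smul (c : ℝ) (μ : AddMonoidAlgebra ℝ G) (F : G → ℝ) : E (c • μ) F = c * E μ F := by
  unfold E
  rw [coeff_smul, Finsupp.sum_smul_index (by simp), Finsupp.mul_sum]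
  apply Finsupp.sum_congr
  intros; ring

theorem E_congr (μ : AddMonoidAlgebra ℝ G) {F F' : G → ℝ}
    (h : ∀ g, μ.coeff g ≠ 0 → F g = F' g) : E μ F = E μ F' := by
  rw [E_def, E_def]
  apply Finset.sum_congr rfl
  intro g hg
  rw [h g (Finsupp.mem_support_iff.1 hg)]

theorem E_add_fun (μ : AddMonoidAlgebra ℝ G) (F F' : G → ℝ) :
    E μ (fun g => F g + F' g) = E μ F + E μ F' := by
  simp only [E_def, mul_add, Finset.sum_add_distrib]

theorem E_sub_fun (μ : AddMonoidAlgebra ℝ G) (F F' : G → ℝ) :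
    E μ (fun g => F g - F' g) = E μ F - E μ F' := by
  simp only [E_def, mul_sub, Finset.sum_sub_distrib]

theorem E_neg_fun (μ : AddMonoidAlgebra ℝ G) (F : G → ℝ) :
    E μ (fun g => - F g) = - E μ F := by
  simp only [E_def, mul_neg, Finset.sum_neg_distrib]

theorem E_const_mul (μ : AddMonoidAlgebra ℝ G) (c : ℝ) (F : G → ℝ) :
    E μ (fun g => c * F g) = c * E μ F := by
  simp only [E_def, Finset.mul_sum]
  apply Finset.sum_congr rfl
  intros; ring

theorem E_mul_const (μ : AddMonoidAlgebra ℝ G) (c : ℝ) (F : G → ℝ) :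
    E μ (fun g => F g * c) = E μ F * c := by
  simp only [E_def, Finset.sum_mul]
  apply Finset.sum_congr rfl
  intros; ring

theorem E_sum_fun {ι : Type*} (s : Finset ι) (μ : AddMonoidAlgebra ℝ G) (F : ι → G → ℝ) :
    E μ (fun g => ∑ i ∈ s, F i g) = ∑ i ∈ s, E μ (F i) := by
  simp only [E_def, Finset.mul_sum]
  rw [Finset.sum_comm]

theorem E_mul (μ ν : AddMonoidAlgebra ℝ G) (F : G → ℝ) :
    E (μ * ν) F = E μ fun a => E ν fun b => F (a + b) := by
  induction μ using AddMonoidAlgebra.induction_linear with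
  | zero => simp [E_zero]
  | add f g hf hg => rw [add_mul, E_add, E_add, hf, hg]
  | single a r =>
    induction ν using AddMonoidAlgebra.induction_linear with
    | zero => simp [E_zero, E_single]
    | add f g hf hg => rw [mul_add, E_add, hf, hg]; simp only [E_single, E_add]; ring
    | single b s => rw [single_mul_single]; simp only [E_single]; ring

theorem E_comm (μ ν : AddMonoidAlgebra ℝ G) (F : G → G → ℝ) :
    (E μ fun a => E ν fun b => F a b) = E ν fun b => E μ fun a => F a b := by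
  simp only [E_def, Finset.mul_sum]
  rw [Finset.sum_comm]
  apply Finset.sum_congr rfl; intro b _
  apply Finset.sum_congr rfl; intro a _
  ring

theorem coeff_mul_eq (μ ν : AddMonoidAlgebra ℝ G) (z : G) :
    (μ * ν).coeff z = E μ fun a => ν.coeff (z - a) := by
  rw [coeff_mul_apply_left]
  unfold E
  apply Finsupp.sum_congr
  intro a _
  rw [neg_add_eq_sub]

theorem coeff_eq_E [DecidableEq G] (μ : AddMonoidAlgebra ℝ G) (z : G) :
    μ.coeff z = E μ fun g => if g = z then 1 else 0 := by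
  rw [E_def]
  simp only [mul_ite, mul_one, mul_zero, Finset.sum_ite_eq', Finsupp.mem_support_iff]
  split_ifs with h
  · rfl
  · simpa using h

section nonneg

theorem E_mono {μ : AddMonoidAlgebra ℝ G} (hμ : ∀ g, 0 ≤ μ.coeff g) {F F' : G → ℝ}
    (h : ∀ g, 0 < μ.coeff g → F g ≤ F' g) : E μ F ≤ E μ F' := by
  rw [E_def, E_def]
  apply Finset.sum_le_sum
  intro g hg
  have h1 : 0 < μ.coeff g := lt_of_le_of_ne (hμ g) (Ne.symm (Finsupp.mem_support_iff.1 hg))
  exact mul_le_mul_of_nonneg_left (h g h1) h1.le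

theorem E_nonneg {μ : AddMonoidAlgebra ℝ G} (hμ : ∀ g, 0 ≤ μ.coeff g) {F : G → ℝ}
    (h : ∀ g, 0 < μ.coeff g → 0 ≤ F g) : 0 ≤ E μ F := by
  rw [E_def]
  apply Finset.sum_nonneg
  intro g hg
  have h1 : 0 < μ.coeff g := lt_of_le_of_ne (hμ g) (Ne.symm (Finsupp.mem_support_iff.1 hg))
  exact mul_nonneg h1.le (h g h1)

theorem le_E {μ : AddMonoidAlgebra ℝ G} (hμ : ∀ g, 0 ≤ μ.coeff g) {F : G → ℝ}
    (h : ∀ g, 0 < μ.coeff g → 0 ≤ F g) (a : G) (ha : 0 < μ.coeff a) :
    μ.coeff a * F a ≤ E μ F := by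
  rw [E_def]
  apply Finset.single_le_sum (f := fun g => μ.coeff g * F g)
  · intro g hg
    have h1 : 0 < μ.coeff g := lt_of_le_of_ne (hμ g) (Ne.symm (Finsupp.mem_support_iff.1 hg))
    exact mul_nonneg h1.le (h g h1)
  · exact Finsupp.mem_support_iff.2 ha.ne'

theorem IsP.const {μ : AddMonoidAlgebra ℝ G} (hμ : IsP μ) (c : ℝ) : E μ (fun _ => c) = c := by
  have := E_const_mul μ c (fun _ => (1 : ℝ))
  simp only [mul_one] at this
  rw [this, hμ.mass, mul_one]

theorem IsP.mul {μ ν : AddMonoidAlgebra ℝ G} (hμ : IsP μ) (hν : IsP ν) : IsP (μ * ν) where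
  nonneg z := by
    rw [coeff_mul_eq]
    exact E_nonneg hμ.nonneg fun _ _ => hν.nonneg _
  mass := by
    rw [E_mul]
    simp only [hν.mass, hμ.mass]

theorem isP_one : IsP (1 : AddMonoidAlgebra ℝ G) where
  nonneg z := by
    classical
    rw [coeff_eq_E, E_one]; split_ifs <;> norm_num
  mass := by rw [E_one]

theorem isP_single (a : G) : IsP (single a 1 : AddMonoidAlgebra ℝ G) where
  nonneg z := by
    classical
    rw [coeff_eq_E, E_single]; split_ifs <;> norm_num
  mass := by rw [E_single]; norm_num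

theorem IsP.pow {μ : AddMonoidAlgebra ℝ G} (hμ : IsP μ) (n : ℕ) : IsP (μ ^ n) := by
  induction n with
  | zero => rw [pow_zero]; exact isP_one
  | succ n ih => rw [pow_succ]; exact ih.mul hμ

theorem IsP.le_one {μ : AddMonoidAlgebra ℝ G} (hμ : IsP μ) (g : G) : μ.coeff g ≤ 1 := by
  classical
  rw [coeff_eq_E]
  refine (E_mono hμ.nonneg (F' := fun _ => 1) ?_).trans hμ.mass.le
  intro a _
  split_ifs <;> norm_num

theorem IsP.exists_pos {μ : AddMonoidAlgebra ℝ G} (hμ : IsP μ) : ∃ g, 0 < μ.coeff g := by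
  by_contra h
  push Not at h
  have h1 : ∀ g, μ.coeff g = 0 := fun g => le_antisymm (h g) (hμ.nonneg g)
  have h2 := hμ.mass
  rw [E_def] at h2
  simp [h1] at h2

theorem IsP.mul_pos {μ ν : AddMonoidAlgebra ℝ G} (hμ : IsP μ) (hν : IsP ν) {a b : G}
    (ha : 0 < μ.coeff a) (hb : 0 < ν.coeff b) : 0 < (μ * ν).coeff (a + b) := by
  rw [coeff_mul_eq]
  refine lt_of_lt_of_le ?_ (le_E hμ.nonneg (fun _ _ => hν.nonneg _) a ha)
  rw [add_sub_cancel_left]
  exact _root_.mul_pos ha hb

theorem IsP.coeff_single_mul {μ : AddMonoidAlgebra ℝ G} (a z : G) :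
    (single a 1 * μ).coeff z = μ.coeff (z - a) := by
  rw [coeff_mul_eq, E_single, one_mul]

end nonneg

/-- log-sum inequality in tangent form -/
theorem log_tangent {a b l : ℝ} (ha : 0 ≤ a) (hb : 0 ≤ b) (hab : b = 0 → a = 0) (hl : 0 < l) :
    a * log l + a - l * b ≤ a * log (a / b) := by
  rcases eq_or_lt_of_le ha with h | h
  · rw [← h]
    simp only [zero_mul, zero_add, zero_sub]
    have : 0 ≤ l * b := mul_nonneg hl.le hb
    linarith
  · have hb' : 0 < b := lt_of_le_of_ne hb fun e => h.ne' (hab e.symm)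
    have h1 : log (l * b / a) ≤ l * b / a - 1 := log_le_sub_one_of_pos (by positivity)
    have h2 : log (l * b / a) = log l - log (a / b) := by
      rw [← Real.log_div hl.ne' (by positivity)]
      congr 1
      field_simp
    have h3 : a * (log l - log (a / b)) ≤ a * (l * b / a - 1) := by
      rw [← h2]; exact mul_le_mul_of_nonneg_left h1 h.le
    have h4 : a * (l * b / a - 1) = l * b - a := by field_simp
    nlinarith

theorem logsum {ι : Type*} (s : Finset ι) (a b : ι → ℝ) (B : ℝ)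
    (ha : ∀ i ∈ s, 0 ≤ a i) (hb : ∀ i ∈ s, 0 ≤ b i) (hab : ∀ i ∈ s, b i = 0 → a i = 0)
    (hB : ∑ i ∈ s, b i ≤ B) :
    (∑ i ∈ s, a i) * log ((∑ i ∈ s, a i) / B) ≤ ∑ i ∈ s, a i * log (a i / b i) := by
  have hA : 0 ≤ ∑ i ∈ s, a i := Finset.sum_nonneg ha
  have hB0 : 0 ≤ ∑ i ∈ s, b i := Finset.sum_nonneg hb
  rcases eq_or_lt_of_le hA with h | h
  · rw [← h]
    have h1 : ∀ i ∈ s, a i = 0 := (Finset.sum_eq_zero_iff_of_nonneg ha).1 h.symm
    rw [zero_mul]
    apply le_of_eq
    symm
    apply Finset.sum_eq_zero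
    intro i hi
    rw [h1 i hi, zero_mul]
  · have hBpos : 0 < B := by
      rcases eq_or_lt_of_le (hB0.trans hB) with h' | h'
      · exfalso
        have h2 : ∑ i ∈ s, b i = 0 := le_antisymm (h'.symm ▸ hB) hB0
        have h3 := (Finset.sum_eq_zero_iff_of_nonneg hb).1 h2
        have h4 : ∑ i ∈ s, a i = 0 := Finset.sum_eq_zero fun i hi => hab i hi (h3 i hi)
        exact h.ne' h4
      · exact h'
    have key : ∀ i ∈ s, a i * log ((∑ i ∈ s, a i) / B) + a i - ((∑ i ∈ s, a i) / B) * b i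
        ≤ a i * log (a i / b i) := fun i hi =>
      log_tangent (ha i hi) (hb i hi) (hab i hi) (by positivity)
    have h5 := Finset.sum_le_sum key
    rw [Finset.sum_sub_distrib, Finset.sum_add_distrib, ← Finset.sum_mul, ← Finset.mul_sum] at h5
    have h6 : (∑ i ∈ s, a i) / B * ∑ i ∈ s, b i ≤ ∑ i ∈ s, a i := by
      have : (∑ i ∈ s, a i) / B * B = ∑ i ∈ s, a i := by field_simp
      calc (∑ i ∈ s, a i) / B * ∑ i ∈ s, b i ≤ (∑ i ∈ s, a i) / B * B :=
            mul_le_mul_of_nonneg_left hB (by positivity)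
        _ = _ := this
    linarith

end PartBase

section PartDisc

variable {G : Type*} [AddCommGroup G]

theorem E_shift [DecidableEq G] (ν : AddMonoidAlgebra ℝ G) (L : G → ℝ) (c : G) (Z : Finset G)
    (hZ : ∀ b, ν.coeff b ≠ 0 → b + c ∈ Z) :
    E ν L = ∑ z ∈ Z, ν.coeff (z - c) * L (z - c) := by
  rw [E_eq_sum ν L (Z.image fun z => z - c), Finset.sum_image]
  · intro x _ y _ h
    exact sub_left_injective h
  · intro b hb
    rw [Finset.mem_image]
    exact ⟨b + c, hZ b (Finsupp.mem_support_iff.1 hb), by abel⟩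

/-- total mass of a shifted subset is at most one -/
theorem IsP.sum_le_one {μ : AddMonoidAlgebra ℝ G} (hμ : IsP μ) (s : Finset G) :
    ∑ g ∈ s, μ.coeff g ≤ 1 := by
  classical
  have h := E_eq_sum μ (fun _ => 1) (μ.coeff.support ∪ s) Finset.subset_union_left
  rw [hμ.mass] at h
  simp only [mul_one] at h
  rw [h]
  exact Finset.sum_le_sum_of_subset_of_nonneg Finset.subset_union_right
    fun g _ _ => hμ.nonneg g

theorem ent_mul_sub {μ ν : AddMonoidAlgebra ℝ G} (hμ : IsP μ) (hν : IsP ν) :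
    ent (μ * ν) - ent ν =
      E μ fun a => E ν fun b => log (ν.coeff b / (μ * ν).coeff (a + b)) := by
  have h1 : ent (μ * ν) = E μ fun a => E ν fun b => -log ((μ * ν).coeff (a + b)) := by
    rw [ent, E_mul]
  have h2 : ent ν = E μ fun _ => E ν fun b => -log (ν.coeff b) := by
    rw [hμ.const]; rfl
  rw [h1, h2, ← E_sub_fun]
  apply E_congr
  intro a ha
  rw [← E_sub_fun]
  apply E_congr
  intro b hb
  have ha' : 0 < μ.coeff a := lt_of_le_of_ne (hμ.nonneg a) (Ne.symm ha)
  have hb' : 0 < ν.coeff b := lt_of_le_of_ne (hν.nonneg b) (Ne.symm hb)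
  rw [Real.log_div hb'.ne' (hμ.mul_pos hν ha' hb').ne']
  ring

/-- each relative entropy of a shift is nonnegative -/
theorem kl_shift_nonneg {ν ρ : AddMonoidAlgebra ℝ G} (hν : IsP ν) (hρ : IsP ρ) (a : G)
    (hac : ∀ b, 0 < ν.coeff b → 0 < ρ.coeff (a + b)) :
    0 ≤ E ν fun b => log (ν.coeff b / ρ.coeff (a + b)) := by
  classical
  have h := logsum ν.coeff.support (fun b => ν.coeff b) (fun b => ρ.coeff (a + b)) 1
    (fun b _ => hν.nonneg b) (fun b _ => hρ.nonneg _)
    (fun b _ hb => by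
      by_contra h
      exact (hac b (lt_of_le_of_ne (hν.nonneg b) (Ne.symm h))).ne' hb)
    (by
      rw [← Finset.sum_image (s := ν.coeff.support) (g := fun b => a + b)
        (f := fun z => ρ.coeff z)]
      · exact hρ.sum_le_one _
      · intro x _ y _ hxy
        exact add_left_cancel hxy)
  have h1 : ∑ i ∈ ν.coeff.support, ν.coeff i = 1 := by
    have := hν.mass
    rw [E_def] at this
    simpa using this
  rw [h1] at h
  rw [E_def]
  simpa using h

theorem ent_le_ent_mul {μ ν : AddMonoidAlgebra ℝ G} (hμ : IsP μ) (hν : IsP ν) :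
    ent ν ≤ ent (μ * ν) := by
  have h := ent_mul_sub hμ hν
  have h2 : 0 ≤ ent (μ * ν) - ent ν := by
    rw [h]
    apply E_nonneg hμ.nonneg
    intro a ha
    exact kl_shift_nonneg hν (hμ.mul hν) a fun b hb => hμ.mul_pos hν ha hb
  linarith

theorem ent_submod {μ ν l : AddMonoidAlgebra ℝ G} (hμ : IsP μ) (hν : IsP ν) (hl : IsP l) :
    ent (μ * (ν * l)) - ent (ν * l) ≤ ent (μ * ν) - ent ν := by
  classical
  rw [ent_mul_sub hμ (hν.mul hl), ent_mul_sub hμ hν]
  apply E_mono hμ.nonneg
  intro a ha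
  set L : G → ℝ := fun b => log (ν.coeff b / (μ * ν).coeff (a + b)) with hL
  set Z := (ν * l).coeff.support with hZ
  have hmem : ∀ c ∈ l.coeff.support, ∀ b, ν.coeff b ≠ 0 → b + c ∈ Z := by
    intro c hc b hb
    have hc' : 0 < l.coeff c :=
      lt_of_le_of_ne (hl.nonneg c) (Ne.symm (Finsupp.mem_support_iff.1 hc))
    have hb' : 0 < ν.coeff b := lt_of_le_of_ne (hν.nonneg b) (Ne.symm hb)
    exact Finsupp.mem_support_iff.2 (hν.mul_pos hl hb' hc').ne'
  have hR : E ν L = ∑ z ∈ Z, ∑ c ∈ l.coeff.support,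
      l.coeff c * (ν.coeff (z - c) * L (z - c)) := by
    rw [Finset.sum_comm]
    have : ∀ c ∈ l.coeff.support, ∑ z ∈ Z, l.coeff c * (ν.coeff (z - c) * L (z - c))
        = l.coeff c * E ν L := by
      intro c hc
      rw [← Finset.mul_sum, ← E_shift ν L c Z (hmem c hc)]
    rw [Finset.sum_congr rfl this, ← Finset.sum_mul]
    have h1 : ∑ i ∈ l.coeff.support, l.coeff i = 1 := by
      have := hl.mass
      rw [E_def] at this
      simpa using this
    rw [h1, one_mul]
  rw [hR, E_def]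
  apply Finset.sum_le_sum
  intro z hz
  have h1 : (ν * l).coeff z = ∑ c ∈ l.coeff.support, l.coeff c * ν.coeff (z - c) := by
    rw [mul_comm, coeff_mul_eq, E_def]
  have h2 : (μ * (ν * l)).coeff (a + z) =
      ∑ c ∈ l.coeff.support, l.coeff c * (μ * ν).coeff (a + (z - c)) := by
    rw [← mul_assoc, mul_comm, coeff_mul_eq, E_def]
    apply Finset.sum_congr rfl
    intro c _
    rw [add_sub_assoc]
  have h3 := logsum l.coeff.support (fun c => l.coeff c * ν.coeff (z - c))
    (fun c => l.coeff c * (μ * ν).coeff (a + (z - c)))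
    ((μ * (ν * l)).coeff (a + z))
    (fun c _ => mul_nonneg (hl.nonneg c) (hν.nonneg _))
    (fun c _ => mul_nonneg (hl.nonneg c) ((hμ.mul hν).nonneg _))
    (fun c hc h => by
      rcases mul_eq_zero.1 h with h | h
      · rw [h, zero_mul]
      · have : ν.coeff (z - c) = 0 := by
          by_contra h'
          have h'' : 0 < ν.coeff (z - c) := lt_of_le_of_ne (hν.nonneg _) (Ne.symm h')
          exact (hμ.mul_pos hν ha h'').ne' h
        rw [this, mul_zero])
    (le_of_eq h2.symm)
  rw [← h1] at h3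
  refine h3.trans (le_of_eq ?_)
  apply Finset.sum_congr rfl
  intro c hc
  have hc' : l.coeff c ≠ 0 := Finsupp.mem_support_iff.1 hc
  rw [mul_div_mul_left _ _ hc', mul_assoc]

theorem ent_incr {μ : AddMonoidAlgebra ℝ G} (hμ : IsP μ) (n k : ℕ) :
    ent (μ ^ (n + k + 1)) - ent (μ ^ (n + k)) ≤ ent (μ ^ (n + 1)) - ent (μ ^ n) := by
  have h := ent_submod hμ (hμ.pow n) (hμ.pow k)
  rw [← pow_add, ← pow_succ', ← pow_succ'] at h
  exact h

theorem ent_pow_le {μ : AddMonoidAlgebra ℝ G} (hμ : IsP μ) (n k : ℕ) :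
    ent (μ ^ (n + k)) ≤ ent (μ ^ n) + k * (ent (μ ^ (n + 1)) - ent (μ ^ n)) := by
  induction k with
  | zero => simp
  | succ k ih =>
    have := ent_incr hμ n k
    rw [← add_assoc]
    push_cast
    linarith

theorem ent_nonneg {μ : AddMonoidAlgebra ℝ G} (hμ : IsP μ) : 0 ≤ ent μ := by
  apply E_nonneg hμ.nonneg
  intro g hg
  have := Real.log_nonpos hg.le (hμ.le_one g)
  linarith

theorem ent_le_pow {μ : AddMonoidAlgebra ℝ G} (hμ : IsP μ) (n : ℕ) :
    ent μ ≤ ent (μ ^ (n + 1)) := by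
  rw [pow_succ]
  exact ent_le_ent_mul (hμ.pow n) hμ

end PartDisc

section PartSample

variable {G : Type*} [AddCommGroup G]

/-- expectation over `L` independent samples from `ν` -/
noncomputable def EL (ν : AddMonoidAlgebra ℝ G) (L : ℕ) (F : (Fin L → G) → ℝ) : ℝ :=
  ∑ y ∈ Fintype.piFinset (fun _ : Fin L => ν.coeff.support), (∏ j, ν.coeff (y j)) * F y

theorem EL_prod (ν : AddMonoidAlgebra ℝ G) (L : ℕ) (f : Fin L → G → ℝ) :
    EL ν L (fun y => ∏ i, f i (y i)) = ∏ i, E ν (f i) := by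
  classical
  unfold EL
  simp only [E_def]
  rw [Finset.prod_univ_sum]
  apply Finset.sum_congr rfl
  intro y _
  rw [Finset.prod_mul_distrib]

theorem EL_one {ν : AddMonoidAlgebra ℝ G} (hν : IsP ν) (L : ℕ) : EL ν L (fun _ => 1) = 1 := by
  have h := EL_prod ν L (fun _ _ => 1)
  simp only [Finset.prod_const_one, hν.mass] at h
  exact h

theorem EL_coord {ν : AddMonoidAlgebra ℝ G} (hν : IsP ν) (L : ℕ) (i : Fin L) (g : G → ℝ) :
    EL ν L (fun y => g (y i)) = E ν g := by
  classical
  have h := EL_prod ν L (fun k => if k = i then g else fun _ => 1)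
  have h1 : ∀ y : Fin L → G, ∏ k, (if k = i then g else fun _ => (1 : ℝ)) (y k) = g (y i) := by
    intro y
    rw [Finset.prod_eq_single i]
    · simp
    · intro b _ hb; simp [hb]
    · intro h; exact absurd (Finset.mem_univ _) h
  simp only [h1] at h
  rw [h, Finset.prod_eq_single i]
  · simp
  · intro b _ hb; simp [hb, hν.mass]
  · intro h; exact absurd (Finset.mem_univ _) h

theorem EL_coord2 {ν : AddMonoidAlgebra ℝ G} (hν : IsP ν) (L : ℕ) (i j : Fin L) (hij : i ≠ j)
    (g h : G → ℝ) :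
    EL ν L (fun y => g (y i) * h (y j)) = E ν g * E ν h := by
  classical
  have hh := EL_prod ν L (fun k => if k = i then g else if k = j then h else fun _ => 1)
  have h1 : ∀ y : Fin L → G, ∏ k, (if k = i then g else if k = j then h else fun _ => (1 : ℝ)) (y k)
      = g (y i) * h (y j) := by
    intro y
    rw [← Finset.mul_prod_erase Finset.univ _ (Finset.mem_univ i)]
    rw [Finset.prod_eq_single j]
    · simp [hij.symm]
    · intro b hb hbj
      simp [Finset.ne_of_mem_erase hb, hbj]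
    · intro h'; exact absurd (Finset.mem_erase.2 ⟨hij.symm, Finset.mem_univ _⟩) h'
  simp only [h1] at hh
  rw [hh, ← Finset.mul_prod_erase Finset.univ _ (Finset.mem_univ i)]
  rw [Finset.prod_eq_single j]
  · simp [hij.symm]
  · intro b hb hbj
    simp [Finset.ne_of_mem_erase hb, hbj, hν.mass]
  · intro h'; exact absurd (Finset.mem_erase.2 ⟨hij.symm, Finset.mem_univ _⟩) h'

theorem EL_mono {ν : AddMonoidAlgebra ℝ G} (hν : IsP ν) (L : ℕ) {F F' : (Fin L → G) → ℝ}
    (h : ∀ y, F y ≤ F' y) : EL ν L F ≤ EL ν L F' := by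
  apply Finset.sum_le_sum
  intro y _
  exact mul_le_mul_of_nonneg_left (h y) (Finset.prod_nonneg fun j _ => hν.nonneg _)

theorem EL_add (ν : AddMonoidAlgebra ℝ G) (L : ℕ) (F F' : (Fin L → G) → ℝ) :
    EL ν L (fun y => F y + F' y) = EL ν L F + EL ν L F' := by
  simp only [EL, mul_add, Finset.sum_add_distrib]

theorem EL_const_mul (ν : AddMonoidAlgebra ℝ G) (L : ℕ) (c : ℝ) (F : (Fin L → G) → ℝ) :
    EL ν L (fun y => c * F y) = c * EL ν L F := by
  simp only [EL, Finset.mul_sum]
  apply Finset.sum_congr rfl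
  intros; ring

theorem EL_sum {ι : Type*} (s : Finset ι) (ν : AddMonoidAlgebra ℝ G) (L : ℕ)
    (F : ι → (Fin L → G) → ℝ) :
    EL ν L (fun y => ∑ i ∈ s, F i y) = ∑ i ∈ s, EL ν L (F i) := by
  simp only [EL, Finset.mul_sum]
  rw [Finset.sum_comm]

theorem EL_const {ν : AddMonoidAlgebra ℝ G} (hν : IsP ν) (L : ℕ) (c : ℝ) :
    EL ν L (fun _ => c) = c := by
  have := EL_const_mul ν L c (fun _ => (1 : ℝ))
  simp only [mul_one] at this
  rw [this, EL_one hν, mul_one]

theorem EL_sq {ν : AddMonoidAlgebra ℝ G} (hν : IsP ν) (L : ℕ) (v : G → ℝ) (hv : E ν v = 0) :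
    EL ν L (fun y => (∑ j, v (y j)) ^ 2) = L * E ν (fun g => v g ^ 2) := by
  classical
  have h1 : ∀ y : Fin L → G, (∑ j, v (y j)) ^ 2 = ∑ i, ∑ j, v (y i) * v (y j) := by
    intro y
    rw [sq, Finset.sum_mul_sum]
  simp only [h1]
  rw [EL_sum]
  have h2 : ∀ i : Fin L, EL ν L (fun y => ∑ j, v (y i) * v (y j)) = E ν (fun g => v g ^ 2) := by
    intro i
    rw [EL_sum, Finset.sum_eq_single i]
    · have := EL_coord hν L i (fun g => v g ^ 2)
      rw [← this]
      congr 1
      funext y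
      ring
    · intro j _ hj
      rw [EL_coord2 hν L i j hj.symm, hv, mul_zero]
    · intro h'; exact absurd (Finset.mem_univ _) h'
  rw [Finset.sum_congr rfl fun i _ => h2 i]
  simp

/-- average deviation of an empirical mean -/
theorem EL_dev {ν : AddMonoidAlgebra ℝ G} (hν : IsP ν) (L : ℕ) (hL : 0 < L) (u : G → ℝ)
    (m B d : ℝ) (hm : E ν u = m) (hd : 0 < d) (hB : E ν (fun g => u g ^ 2) ≤ B)
    (hBd : B ≤ L * d ^ 2) :
    EL ν L (fun y => |(∑ j, u (y j)) / L - m|) ≤ d := by
  have hL' : (0 : ℝ) < L := by exact_mod_cast hL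
  have h1 : ∀ y : Fin L → G, |(∑ j, u (y j)) / L - m| ≤
      d / 2 + (1 / (2 * d * L ^ 2)) * (∑ j, (u (y j) - m)) ^ 2 := by
    intro y
    have e : (∑ j, u (y j)) / L - m = (∑ j, (u (y j) - m)) / L := by
      rw [Finset.sum_sub_distrib]
      simp only [Finset.sum_const, Finset.card_univ, Fintype.card_fin, nsmul_eq_mul]
      field_simp
    rw [e]
    set X := (∑ j, (u (y j) - m)) / L with hX
    have e2 : (1 / (2 * d * L ^ 2)) * (∑ j, (u (y j) - m)) ^ 2 = X ^ 2 / (2 * d) := by
      rw [hX]; field_simp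
    rw [e2]
    have h3 : 0 ≤ (|X| - d) ^ 2 := sq_nonneg _
    have h4 : |X| * (2 * d) ≤ X ^ 2 + d ^ 2 := by
      rw [← sq_abs X]; nlinarith
    have h5 : |X| ≤ (X ^ 2 + d ^ 2) / (2 * d) := by
      rw [le_div_iff₀ (by positivity)]; exact h4
    refine h5.trans (le_of_eq ?_)
    field_simp
    ring
  have hv : E ν (fun g => u g - m) = 0 := by
    rw [E_sub_fun, hν.const, hm, sub_self]
  have hv2 : E ν (fun g => (u g - m) ^ 2) ≤ B := by
    have : E ν (fun g => (u g - m) ^ 2) = E ν (fun g => u g ^ 2) - m ^ 2 := by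
      have e : ∀ g, (u g - m) ^ 2 = u g ^ 2 - (2 * m) * u g + m ^ 2 := fun g => by ring
      simp only [e]
      rw [E_add_fun, E_sub_fun, E_const_mul, hν.const, hm]
      ring
    rw [this]
    have := sq_nonneg m
    linarith
  refine (EL_mono hν L h1).trans ?_
  rw [EL_add, EL_const hν, EL_const_mul, EL_sq hν L _ hv]
  have h6 : 1 / (2 * d * L ^ 2) * (L * E ν (fun g => (u g - m) ^ 2)) ≤ d / 2 := by
    rw [div_mul_eq_mul_div, one_mul, div_le_iff₀ (by positivity)]
    have : E ν (fun g => (u g - m) ^ 2) ≤ L * d ^ 2 := hv2.trans hBd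
    calc L * E ν (fun g => (u g - m) ^ 2) ≤ L * (L * d ^ 2) :=
          mul_le_mul_of_nonneg_left this hL'.le
      _ = d / 2 * (2 * d * L ^ 2) := by ring
  linarith

/-- soft covering: the empirical mixture of shifts approximates the convolution -/
theorem soft_cover {ν : AddMonoidAlgebra ℝ G} (hν : IsP ν) (C K t : ℝ) (L : ℕ) (hL : 0 < L)
    (hC : ent (ν * ν) - ent ν ≤ C) (hK : 1 < K) (ht : 0 < t) (hLK : K ≤ L * t ^ 2) :
    EL ν L (fun y => ∑ z ∈ (ν * ν).coeff.support,
      |(∑ j, ν.coeff (z - y j)) / L - (ν * ν).coeff z|) ≤ t + 2 * ((C + 1) / log K) := by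
  classical
  set ρ := ν * ν with hρ
  have hρP : IsP ρ := hν.mul hν
  have hL' : (0 : ℝ) < L := by exact_mod_cast hL
  have hlogK : 0 < log K := Real.log_pos hK
  set w : G → G → ℝ := fun z y => if K * ρ.coeff z < ν.coeff (z - y) then ν.coeff (z - y) else 0
    with hw
  have hw0 : ∀ z y, 0 ≤ w z y := by
    intro z y
    simp only [hw]
    split_ifs
    · exact hν.nonneg _
    · exact le_rfl
  -- bound for each z
  have hz : ∀ z ∈ ρ.coeff.support, EL ν L (fun y => |(∑ j, ν.coeff (z - y j)) / L - ρ.coeff z|)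
      ≤ t * ρ.coeff z + 2 * E ν (w z) := by
    intro z hz
    have hz0 : 0 < ρ.coeff z :=
      lt_of_le_of_ne (hρP.nonneg z) (Ne.symm (Finsupp.mem_support_iff.1 hz))
    set u : G → ℝ := fun y => ν.coeff (z - y) - w z y with hu
    have hu0 : ∀ y, 0 ≤ u y := by
      intro y
      simp only [hu, hw]
      split_ifs
      · simp
      · simpa using hν.nonneg _
    have huK : ∀ y, u y ≤ K * ρ.coeff z := by
      intro y
      simp only [hu, hw]
      split_ifs with h
      · simp only [sub_self]; positivity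
      · simp only [sub_zero]; exact not_lt.1 h
    have hρz : ρ.coeff z = E ν u + E ν (w z) := by
      rw [← E_add_fun, hρ, coeff_mul_eq]
      congr 1
      funext y
      simp only [hu]
      ring
    have hEw : 0 ≤ E ν (w z) := E_nonneg hν.nonneg fun y _ => hw0 z y
    have hEu : E ν u ≤ ρ.coeff z := by linarith
    have hEu2 : E ν (fun y => u y ^ 2) ≤ K * ρ.coeff z ^ 2 := by
      calc E ν (fun y => u y ^ 2) ≤ E ν (fun y => (K * ρ.coeff z) * u y) := by
            apply E_mono hν.nonneg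
            intro y _
            rw [sq]
            exact mul_le_mul_of_nonneg_right (huK y) (hu0 y)
        _ = (K * ρ.coeff z) * E ν u := E_const_mul _ _ _
        _ ≤ (K * ρ.coeff z) * ρ.coeff z := mul_le_mul_of_nonneg_left hEu (by positivity)
        _ = K * ρ.coeff z ^ 2 := by ring
    have hdev := EL_dev hν L hL u (E ν u) (K * ρ.coeff z ^ 2) (t * ρ.coeff z) rfl
      (by positivity) hEu2 (by
        calc K * ρ.coeff z ^ 2 ≤ (L * t ^ 2) * ρ.coeff z ^ 2 :=
              mul_le_mul_of_nonneg_right hLK (by positivity)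
          _ = L * (t * ρ.coeff z) ^ 2 := by ring)
    have hpt : ∀ y : Fin L → G, |(∑ j, ν.coeff (z - y j)) / L - ρ.coeff z| ≤
        |(∑ j, u (y j)) / L - E ν u| + ((1 / L) * ∑ j, w z (y j) + E ν (w z)) := by
      intro y
      have e : (∑ j, ν.coeff (z - y j)) / L - ρ.coeff z =
          ((∑ j, u (y j)) / L - E ν u) + ((1 / L) * ∑ j, w z (y j) - E ν (w z)) := by
        rw [hρz]
        have : ∑ j, ν.coeff (z - y j) = ∑ j, u (y j) + ∑ j, w z (y j) := by
          rw [← Finset.sum_add_distrib]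
          apply Finset.sum_congr rfl
          intro j _
          simp only [hu]; ring
        rw [this]; ring
      rw [e]
      refine (abs_add_le _ _).trans ?_
      have h1 : 0 ≤ (1 / (L : ℝ)) * ∑ j, w z (y j) :=
        mul_nonneg (by positivity) (Finset.sum_nonneg fun j _ => hw0 z _)
      have h2 : |(1 / (L : ℝ)) * ∑ j, w z (y j) - E ν (w z)| ≤
          (1 / L) * ∑ j, w z (y j) + E ν (w z) := by
        rw [abs_le]; constructor <;> linarith
      linarith
    refine (EL_mono hν L hpt).trans ?_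
    rw [EL_add, EL_add, EL_const_mul, EL_sum, EL_const hν]
    have : ∑ i : Fin L, EL ν L (fun y => w z (y i)) = L * E ν (w z) := by
      rw [Finset.sum_congr rfl fun i _ => EL_coord hν L i (w z)]
      simp
    rw [this]
    have : (1 / (L : ℝ)) * (L * E ν (w z)) = E ν (w z) := by field_simp
    rw [this]
    linarith
  rw [EL_sum]
  refine (Finset.sum_le_sum hz).trans ?_
  rw [Finset.sum_add_distrib, ← Finset.mul_sum, ← Finset.mul_sum]
  have h1 : ∑ i ∈ ρ.coeff.support, ρ.coeff i = 1 := by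
    have := hρP.mass
    rw [E_def] at this
    simpa using this
  rw [h1, mul_one]
  -- the tail
  have h2 : ∑ z ∈ ρ.coeff.support, E ν (w z) =
      E ν fun y => E ν fun b => if K * ρ.coeff (y + b) < ν.coeff b then 1 else 0 := by
    rw [← E_sum_fun]
    apply E_congr
    intro y hy
    have hy' : 0 < ν.coeff y := lt_of_le_of_ne (hν.nonneg _) (Ne.symm hy)
    rw [E_shift ν (fun b => if K * ρ.coeff (y + b) < ν.coeff b then 1 else 0) y ρ.coeff.support]
    · apply Finset.sum_congr rfl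
      intro z _
      simp only [hw, add_sub_cancel]
      split_ifs <;> simp
    · intro b hb
      have hb' : 0 < ν.coeff b := lt_of_le_of_ne (hν.nonneg _) (Ne.symm hb)
      rw [add_comm]
      exact Finsupp.mem_support_iff.2 (hν.mul_pos hν hy' hb').ne'
  have h3 : (∑ z ∈ ρ.coeff.support, E ν (w z)) * log K ≤ C + 1 := by
    rw [h2, ← E_mul_const]
    have hpt : ∀ y, 0 < ν.coeff y → (E ν fun b => if K * ρ.coeff (y + b) < ν.coeff b then 1 else 0)
        * log K ≤ (E ν fun b => log (ν.coeff b / ρ.coeff (y + b))) + 1 := by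
      intro y hy
      rw [← E_mul_const]
      have hb1 : E ν (fun b => ρ.coeff (y + b) / ν.coeff b) ≤ 1 := by
        rw [E_def]
        have : ∀ b ∈ ν.coeff.support, ν.coeff b * (ρ.coeff (y + b) / ν.coeff b) = ρ.coeff (y + b) := by
          intro b hb
          have : ν.coeff b ≠ 0 := Finsupp.mem_support_iff.1 hb
          field_simp
        rw [Finset.sum_congr rfl this, ← Finset.sum_image (s := ν.coeff.support)
          (g := fun b => y + b) (f := fun z => ρ.coeff z)]
        · exact hρP.sum_le_one _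
        · intro x _ y _ hxy
          exact add_left_cancel hxy
      have hb2 : E ν (fun b => (if K * ρ.coeff (y + b) < ν.coeff b then (1:ℝ) else 0) * log K) ≤
          E ν (fun b => log (ν.coeff b / ρ.coeff (y + b)) + ρ.coeff (y + b) / ν.coeff b) := by
        apply E_mono hν.nonneg
        intro b hb
        have hr : 0 < ρ.coeff (y + b) := hν.mul_pos hν hy hb
        have hlow : 0 ≤ log (ν.coeff b / ρ.coeff (y + b)) + ρ.coeff (y + b) / ν.coeff b := by
          have h := Real.one_sub_inv_le_log_of_pos (x := ν.coeff b / ρ.coeff (y + b)) (by positivity)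
          rw [inv_div] at h
          linarith
        split_ifs with h
        · rw [one_mul]
          have h4 : K ≤ ν.coeff b / ρ.coeff (y + b) := by
            rw [le_div_iff₀ hr]; exact h.le
          have h5 := Real.log_le_log (by linarith) h4
          have h6 : 0 ≤ ρ.coeff (y + b) / ν.coeff b := by positivity
          linarith
        · rw [zero_mul]; exact hlow
      refine hb2.trans ?_
      rw [E_add_fun]
      linarith
    refine (E_mono hν.nonneg hpt).trans ?_
    rw [E_add_fun, hν.const, ← ent_mul_sub hν hν]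
    linarith
  have h4 : ∑ z ∈ ρ.coeff.support, E ν (w z) ≤ (C + 1) / log K := by
    rw [le_div_iff₀ hlogK]; exact h3
  linarith

end PartSample

section PartPeriod

variable {G : Type*} [AddCommGroup G]

theorem bin_le {P Q : ℝ} (hP : 0 ≤ P) (hQ : 0 ≤ Q) (h : P + Q = 1) :
    -log 2 ≤ P * log P + Q * log Q := by
  have h1 := log_tangent (a := P) (b := 1) (l := 1 / 2) hP zero_le_one (by norm_num) (by norm_num)
  have h2 := log_tangent (a := Q) (b := 1) (l := 1 / 2) hQ zero_le_one (by norm_num) (by norm_num)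
  have h3 : log (1 / 2 : ℝ) = - log 2 := by rw [one_div, Real.log_inv]
  rw [h3, div_one] at h1 h2
  have h4 : P * log 2 + Q * log 2 = log 2 := by rw [← add_mul, h, one_mul]
  linarith

theorem sum_pi_shift_le {ν ρ : AddMonoidAlgebra ℝ G} (hρ : IsP ρ) (L : ℕ) (s : G) :
    ∑ y ∈ Fintype.piFinset (fun _ : Fin L => ν.coeff.support), ∏ j, ρ.coeff (s + y j) ≤ 1 := by
  classical
  rw [← Finset.prod_univ_sum (fun _ : Fin L => ν.coeff.support) (fun _ b => ρ.coeff (s + b))]
  apply Finset.prod_le_one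
  · intro i _
    exact Finset.sum_nonneg fun b _ => hρ.nonneg _
  · intro i _
    rw [← Finset.sum_image (s := ν.coeff.support) (g := fun b => s + b) (f := fun z => ρ.coeff z)]
    · exact hρ.sum_le_one _
    · intro x _ y _ hxy
      exact add_left_cancel hxy

theorem fano {ν : AddMonoidAlgebra ℝ G} (hν : IsP ν) (L : ℕ) (A : Finset (Fin L → G))
    (hA : A ⊆ Fintype.piFinset (fun _ : Fin L => ν.coeff.support))
    (hP : 1 / 2 ≤ ∑ y ∈ A, ∏ j, ν.coeff (y j)) (s : G) (hs : 0 < ν.coeff s) :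
    0 < ∑ y ∈ A, ∏ j, (ν * ν).coeff (s + y j) ∧
    -(1 / 2) * log (∑ y ∈ A, ∏ j, (ν * ν).coeff (s + y j)) - log 2 ≤
      L * E ν fun b => log (ν.coeff b / (ν * ν).coeff (s + b)) := by
  classical
  set ρ := ν * ν with hρ
  have hρP : IsP ρ := hν.mul hν
  set T := Fintype.piFinset (fun _ : Fin L => ν.coeff.support) with hT
  have hpos : ∀ y ∈ T, ∀ j, 0 < ν.coeff (y j) := by
    intro y hy j
    exact lt_of_le_of_ne (hν.nonneg _) (Ne.symm (Finsupp.mem_support_iff.1
      (Fintype.mem_piFinset.1 hy j)))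
  have hpos2 : ∀ y ∈ T, ∀ j, 0 < ρ.coeff (s + y j) := fun y hy j =>
    hν.mul_pos hν hs (hpos y hy j)
  have hAne : A.Nonempty := by
    rw [Finset.nonempty_iff_ne_empty]
    rintro rfl
    simp at hP
    linarith
  have ha0 : 0 < ∑ y ∈ A, ∏ j, ρ.coeff (s + y j) :=
    Finset.sum_pos (fun y hy => Finset.prod_pos fun j _ => hpos2 y (hA hy) j) hAne
  refine ⟨ha0, ?_⟩
  set a := ∑ y ∈ A, ∏ j, ρ.coeff (s + y j) with ha
  set P := ∑ y ∈ A, ∏ j, ν.coeff (y j) with hPdef
  set Q := ∑ y ∈ T \ A, ∏ j, ν.coeff (y j) with hQdef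
  have hPQ : P + Q = 1 := by
    rw [hPdef, hQdef, add_comm, Finset.sum_sdiff hA]
    have := EL_one hν L
    simpa [EL] using this
  have hP0 : 0 ≤ P := by linarith
  have hQ0 : 0 ≤ Q := Finset.sum_nonneg fun y _ => Finset.prod_nonneg fun j _ => hν.nonneg _
  have ha1 : a ≤ 1 := by
    refine (Finset.sum_le_sum_of_subset_of_nonneg hA ?_).trans (sum_pi_shift_le hρP L s)
    intro y _ _
    exact Finset.prod_nonneg fun j _ => hρP.nonneg _
  -- the total relative entropy
  have htot : ∑ y ∈ T, (∏ j, ν.coeff (y j)) *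
      log ((∏ j, ν.coeff (y j)) / ∏ j, ρ.coeff (s + y j)) =
      L * E ν fun b => log (ν.coeff b / ρ.coeff (s + b)) := by
    have h1 : ∀ y ∈ T, (∏ j, ν.coeff (y j)) *
      log ((∏ j, ν.coeff (y j)) / ∏ j, ρ.coeff (s + y j)) = (∏ j, ν.coeff (y j)) *
        ∑ j, log (ν.coeff (y j) / ρ.coeff (s + y j)) := by
      intro y hy
      rw [← Finset.prod_div_distrib, Real.log_prod]
      intro j _
      exact (div_pos (hpos y hy j) (hpos2 y hy j)).ne'
    rw [Finset.sum_congr rfl h1]
    have h2 := EL_sum (Finset.univ : Finset (Fin L)) ν L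
      (fun j y => log (ν.coeff (y j) / ρ.coeff (s + y j)))
    rw [show (∑ y ∈ T, (∏ j, ν.coeff (y j)) *
        ∑ j, log (ν.coeff (y j) / ρ.coeff (s + y j))) =
        EL ν L (fun y => ∑ j, log (ν.coeff (y j) / ρ.coeff (s + y j))) from rfl, h2]
    rw [Finset.sum_congr rfl fun i _ => EL_coord hν L i
      (fun b => log (ν.coeff b / ρ.coeff (s + b)))]
    simp
  rw [← htot, ← Finset.sum_sdiff hA]
  have hl1 := logsum A (fun y => ∏ j, ν.coeff (y j)) (fun y => ∏ j, ρ.coeff (s + y j)) a
    (fun y _ => Finset.prod_nonneg fun j _ => hν.nonneg _)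
    (fun y _ => Finset.prod_nonneg fun j _ => hρP.nonneg _)
    (fun y hy h => absurd h (Finset.prod_pos fun j _ => hpos2 y (hA hy) j).ne') le_rfl
  have hl2 := logsum (T \ A) (fun y => ∏ j, ν.coeff (y j)) (fun y => ∏ j, ρ.coeff (s + y j)) 1
    (fun y _ => Finset.prod_nonneg fun j _ => hν.nonneg _)
    (fun y _ => Finset.prod_nonneg fun j _ => hρP.nonneg _)
    (fun y hy h => absurd h
      (Finset.prod_pos fun j _ => hpos2 y (Finset.sdiff_subset hy) j).ne')
    ((Finset.sum_le_sum_of_subset_of_nonneg Finset.sdiff_subset fun y _ _ =>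
      Finset.prod_nonneg fun j _ => hρP.nonneg _).trans (sum_pi_shift_le hρP L s))
  rw [← hPdef] at hl1
  rw [← hQdef, div_one] at hl2
  have hPpos : 0 < P := by linarith
  rw [Real.log_div hPpos.ne' ha0.ne'] at hl1
  have h5 := bin_le hP0 hQ0 hPQ
  have h6 : log a ≤ 0 := Real.log_nonpos ha0.le ha1
  have h7 : P * log a ≤ (1 / 2) * log a := mul_le_mul_of_nonpos_right hP h6
  nlinarith

/-- the translates of a set of probability at least one half cannot be disjoint when the
entropy is large -/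
theorem pigeon {ν : AddMonoidAlgebra ℝ G} (hν : IsP ν) (L : ℕ) (A : Finset (Fin L → G))
    (hA : A ⊆ Fintype.piFinset (fun _ : Fin L => ν.coeff.support))
    (hP : 1 / 2 ≤ ∑ y ∈ A, ∏ j, ν.coeff (y j))
    (hbig : 2 * (L * (ent (ν * ν) - ent ν) + log 2) < ent ν) :
    ∃ q : G, q ≠ 0 ∧ ∃ y ∈ A, ∃ y' ∈ A, ∀ j, y' j = y j + q := by
  classical
  by_contra hcon
  push Not at hcon
  set ρ := ν * ν with hρ
  have hρP : IsP ρ := hν.mul hν
  set T := Fintype.piFinset (fun _ : Fin L => ν.coeff.support) with hT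
  set a : G → ℝ := fun s => ∑ y ∈ A, ∏ j, ρ.coeff (s + y j) with ha
  have hsum : ∑ s ∈ ν.coeff.support, a s ≤ 1 := by
    simp only [ha]
    rw [← Finset.sum_product']
    have hinj : Set.InjOn (fun p : G × (Fin L → G) => fun j => p.1 + p.2 j)
        (ν.coeff.support ×ˢ A : Finset (G × (Fin L → G))) := by
      rintro ⟨s, y⟩ h1 ⟨s', y'⟩ h2 heq
      simp only [Finset.coe_product, Set.mem_prod, Finset.mem_coe] at h1 h2
      have h3 : ∀ j, s + y j = s' + y' j := fun j => congrFun heq j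
      by_cases hss : s = s'
      · subst hss
        congr 1
        funext j
        exact add_left_cancel (h3 j)
      · exfalso
        obtain ⟨j, hj⟩ := hcon (s - s') (sub_ne_zero.2 hss) y h1.2 y' h2.2
        apply hj
        have h4 : s + y j = s' + y' j := h3 j
        have : y' j = s + y j - s' := by rw [h4]; abel
        rw [this]; abel
    have himg : ∑ p ∈ ν.coeff.support ×ˢ A, ∏ j, ρ.coeff (p.1 + p.2 j) =
        ∑ z ∈ (ν.coeff.support ×ˢ A).image (fun p : G × (Fin L → G) => fun j => p.1 + p.2 j),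
          ∏ j, ρ.coeff (z j) := by
      rw [Finset.sum_image hinj]
    rw [himg]
    have hsub : (ν.coeff.support ×ˢ A).image (fun p : G × (Fin L → G) => fun j => p.1 + p.2 j) ⊆
        Fintype.piFinset (fun _ : Fin L => ρ.coeff.support) := by
      intro z hz
      obtain ⟨⟨s, y⟩, hp, rfl⟩ := Finset.mem_image.1 hz
      rw [Finset.mem_product] at hp
      rw [Fintype.mem_piFinset]
      intro j
      have h1 : 0 < ν.coeff s := lt_of_le_of_ne (hν.nonneg _) (Ne.symm
        (Finsupp.mem_support_iff.1 hp.1))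
      have h2 : 0 < ν.coeff (y j) := lt_of_le_of_ne (hν.nonneg _) (Ne.symm
        (Finsupp.mem_support_iff.1 (Fintype.mem_piFinset.1 (hA hp.2) j)))
      exact Finsupp.mem_support_iff.2 (hν.mul_pos hν h1 h2).ne'
    refine (Finset.sum_le_sum_of_subset_of_nonneg hsub fun z _ _ =>
      Finset.prod_nonneg fun j _ => hρP.nonneg _).trans ?_
    have := EL_one hρP L
    rw [EL] at this
    simp only [mul_one] at this
    exact this.le
  have hpos : ∀ s ∈ ν.coeff.support, 0 < ν.coeff s := fun s hs =>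
    lt_of_le_of_ne (hν.nonneg _) (Ne.symm (Finsupp.mem_support_iff.1 hs))
  have hmass : ∑ s ∈ ν.coeff.support, ν.coeff s = 1 := by
    have := hν.mass
    rw [E_def] at this
    simpa using this
  have hg := logsum ν.coeff.support (fun s => ν.coeff s) a 1 (fun s _ => hν.nonneg s)
    (fun s hs => ((fano hν L A hA hP s (hpos s hs)).1).le)
    (fun s hs h => absurd h ((fano hν L A hA hP s (hpos s hs)).1).ne') hsum
  rw [hmass, div_one, Real.log_one, mul_zero] at hg
  have hg2 : ∑ s ∈ ν.coeff.support, ν.coeff s * log (ν.coeff s / a s) =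
      - ent ν - E ν (fun s => log (a s)) := by
    rw [ent, ← E_neg_fun, ← E_sub_fun, E_def]
    apply Finset.sum_congr rfl
    intro s hs
    rw [Real.log_div (hpos s hs).ne' ((fano hν L A hA hP s (hpos s hs)).1).ne']
    ring
  rw [hg2] at hg
  have h1 : E ν (fun s => -(1 / 2) * log (a s) - log 2) ≤
      E ν (fun s => L * E ν fun b => log (ν.coeff b / ρ.coeff (s + b))) :=
    E_mono hν.nonneg fun s hs => (fano hν L A hA hP s hs).2
  rw [E_sub_fun, E_const_mul, hν.const, E_const_mul, ← ent_mul_sub hν hν] at h1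
  rw [← hρ] at h1
  linarith

/-- `q` is a `δ`-almost period of `ρ` in the total variation sense -/
def AP (ρ : AddMonoidAlgebra ℝ G) (q : G) (δ : ℝ) : Prop :=
  ∀ Z : Finset G, ∑ z ∈ Z, |ρ.coeff (z - q) - ρ.coeff z| ≤ δ

theorem AP.neg {ρ : AddMonoidAlgebra ℝ G} {q : G} {δ : ℝ} (h : AP ρ q δ) : AP ρ (-q) δ := by
  classical
  intro Z
  have h1 := h (Z.image fun z => z + q)
  rw [Finset.sum_image (by intro x _ y _ hxy; exact add_right_cancel hxy)] at h1
  refine le_trans (le_of_eq ?_) h1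
  apply Finset.sum_congr rfl
  intro z _
  rw [add_sub_cancel_right, sub_neg_eq_add, abs_sub_comm]

theorem AP.add {ρ : AddMonoidAlgebra ℝ G} {q q' : G} {δ δ' : ℝ} (h : AP ρ q δ) (h' : AP ρ q' δ') :
    AP ρ (q + q') (δ + δ') := by
  classical
  intro Z
  have h1 := h (Z.image fun z => z - q')
  rw [Finset.sum_image (by intro x _ y _ hxy; exact sub_left_injective hxy)] at h1
  have h2 := h' Z
  refine le_trans ?_ (add_le_add h1 h2)
  rw [← Finset.sum_add_distrib]
  apply Finset.sum_le_sum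
  intro z _
  have e : z - (q + q') = z - q' - q := by abel
  rw [e]
  exact abs_sub_le _ _ _

theorem AP.zero {ρ : AddMonoidAlgebra ℝ G} : AP ρ 0 0 := by
  intro Z
  simp

theorem AP.nsmul {ρ : AddMonoidAlgebra ℝ G} {q : G} {δ : ℝ} (h : AP ρ q δ) (n : ℕ) :
    AP ρ (n • q) (n * δ) := by
  induction n with
  | zero => simpa using AP.zero
  | succ n ih =>
    have := ih.add h
    rw [succ_nsmul]
    have e : ((n + 1 : ℕ) : ℝ) * δ = n * δ + δ := by push_cast; ring
    rw [e]; exact this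

theorem AP.mono {ρ : AddMonoidAlgebra ℝ G} {q : G} {δ δ' : ℝ} (h : AP ρ q δ) (h' : δ ≤ δ') :
    AP ρ q δ' := fun Z => (h Z).trans h'

/-- difference of two multiples -/
theorem AP.diff {ρ : AddMonoidAlgebra ℝ G} {q : G} {δ : ℝ} (hδ : 0 ≤ δ) (h : AP ρ q δ) (N i j : ℕ)
    (hi : i < N) (hj : j < N) : AP ρ (i • q - j • q) (N * δ) := by
  rcases le_total j i with hij | hij
  · have e : i • q - j • q = (i - j) • q := by
      rw [sub_nsmul q hij, sub_eq_add_neg]
    rw [e]
    apply (h.nsmul (i - j)).mono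
    apply mul_le_mul_of_nonneg_right _ hδ
    exact_mod_cast (Nat.sub_le _ _).trans hi.le
  · have e : i • q - j • q = -((j - i) • q) := by
      rw [sub_nsmul q hij]; abel
    rw [e]
    apply (h.nsmul (j - i)).neg.mono
    apply mul_le_mul_of_nonneg_right _ hδ
    exact_mod_cast (Nat.sub_le _ _).trans hj.le

/-- uniform weight on the progression `0, q, ..., (N-1) q` -/
noncomputable def prog (q : G) (N : ℕ) : AddMonoidAlgebra ℝ G :=
  (N : ℝ)⁻¹ • ∑ j ∈ Finset.range N, single (j • q) 1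

theorem E_sum_left {ι : Type*} (s : Finset ι) (μ : ι → AddMonoidAlgebra ℝ G) (F : G → ℝ) :
    E (∑ i ∈ s, μ i) F = ∑ i ∈ s, E (μ i) F := by
  classical
  induction s using Finset.induction_on with
  | empty => simp [E_zero]
  | insert a s ha ih => rw [Finset.sum_insert ha, Finset.sum_insert ha, E_add, ih]

theorem E_prog (q : G) (N : ℕ) (F : G → ℝ) :
    E (prog q N) F = (N : ℝ)⁻¹ * ∑ j ∈ Finset.range N, F (j • q) := by
  rw [prog, E_smul, E_sum_left]
  congr 1
  apply Finset.sum_congr rfl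
  intro j _
  rw [E_single, one_mul]

theorem isP_prog (q : G) (N : ℕ) (hN : 0 < N) : IsP (prog q N) where
  nonneg z := by
    classical
    rw [coeff_eq_E, E_prog]
    apply mul_nonneg (by positivity)
    apply Finset.sum_nonneg
    intro j _
    split_ifs <;> norm_num
  mass := by
    rw [E_prog]
    simp
    field_simp

theorem ent_prog_mul {ρ : AddMonoidAlgebra ℝ G} (hρ : IsP ρ) (q : G) (δ : ℝ) (hδ : 0 ≤ δ)
    (h : AP ρ q δ) (N : ℕ) (hN : 0 < N) :
    ent (prog q N * ρ) - ent ρ ≤ N ^ 2 * δ := by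
  classical
  have hN' : (0 : ℝ) < N := by exact_mod_cast hN
  rw [ent_mul_sub (isP_prog q N hN) hρ, E_prog]
  have key : ∀ j ∈ Finset.range N,
      (E ρ fun b => log (ρ.coeff b / (prog q N * ρ).coeff (j • q + b))) ≤ N ^ 2 * δ := by
    intro j hj
    have hP : ∀ b, (prog q N * ρ).coeff (j • q + b) =
        (N : ℝ)⁻¹ * ∑ i ∈ Finset.range N, ρ.coeff (b - (i • q - j • q)) := by
      intro b
      rw [coeff_mul_eq, E_prog]
      congr 1
      apply Finset.sum_congr rfl
      intro i _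
      congr 1
      abel
    have h1 : ∀ b, 0 < ρ.coeff b → log (ρ.coeff b / (prog q N * ρ).coeff (j • q + b)) ≤
        (N : ℝ) * |ρ.coeff b - (prog q N * ρ).coeff (j • q + b)| / ρ.coeff b := by
      intro b hb
      set p := (prog q N * ρ).coeff (j • q + b) with hp
      have hlow : ρ.coeff b / N ≤ p := by
        rw [hp, hP b, div_eq_inv_mul]
        apply mul_le_mul_of_nonneg_left _ (by positivity)
        have := Finset.single_le_sum (f := fun i => ρ.coeff (b - (i • q - j • q)))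
          (fun i _ => hρ.nonneg _) hj
        simpa using this
      have hp0 : 0 < p := lt_of_lt_of_le (by positivity) hlow
      have h2 := Real.log_le_sub_one_of_pos (x := ρ.coeff b / p) (by positivity)
      refine h2.trans ?_
      have h3 : ρ.coeff b / p - 1 = (ρ.coeff b - p) / p := by field_simp
      rw [h3]
      have h4 : (ρ.coeff b - p) / p ≤ |ρ.coeff b - p| / p :=
        div_le_div_of_nonneg_right (le_abs_self _) hp0.le
      refine h4.trans ?_
      rw [div_le_div_iff₀ hp0 hb]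
      have h5 : ρ.coeff b ≤ N * p := by
        rw [div_le_iff₀ hN'] at hlow
        linarith
      nlinarith [abs_nonneg (ρ.coeff b - p)]
    refine (E_mono hρ.nonneg h1).trans ?_
    rw [E_def]
    have h2 : ∀ b ∈ ρ.coeff.support, ρ.coeff b *
        ((N : ℝ) * |ρ.coeff b - (prog q N * ρ).coeff (j • q + b)| / ρ.coeff b) ≤
        ∑ i ∈ Finset.range N, |ρ.coeff (b - (i • q - j • q)) - ρ.coeff b| := by
      intro b hb
      have hb' : ρ.coeff b ≠ 0 := Finsupp.mem_support_iff.1 hb
      have e : ρ.coeff b * ((N : ℝ) * |ρ.coeff b - (prog q N * ρ).coeff (j • q + b)| / ρ.coeff b)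
          = |N * (ρ.coeff b - (prog q N * ρ).coeff (j • q + b))| := by
        rw [abs_mul, abs_of_pos hN']
        field_simp
      rw [e]
      have e2 : N * (ρ.coeff b - (prog q N * ρ).coeff (j • q + b)) =
          ∑ i ∈ Finset.range N, (ρ.coeff b - ρ.coeff (b - (i • q - j • q))) := by
        rw [Finset.sum_sub_distrib, hP b]
        simp only [Finset.sum_const, Finset.card_range, nsmul_eq_mul]
        field_simp
      rw [e2]
      refine (Finset.abs_sum_le_sum_abs _ _).trans (le_of_eq ?_)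
      apply Finset.sum_congr rfl
      intro i _
      rw [abs_sub_comm]
    refine (Finset.sum_le_sum h2).trans ?_
    rw [Finset.sum_comm]
    have h3 : ∀ i ∈ Finset.range N,
        ∑ b ∈ ρ.coeff.support, |ρ.coeff (b - (i • q - j • q)) - ρ.coeff b| ≤ N * δ := by
      intro i hi
      exact h.diff hδ N i j (Finset.mem_range.1 hi) (Finset.mem_range.1 hj) _
    refine (Finset.sum_le_sum h3).trans ?_
    simp only [Finset.sum_const, Finset.card_range, nsmul_eq_mul]
    rw [sq, mul_assoc]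
  refine (mul_le_mul_of_nonneg_left (Finset.sum_le_sum key) (by positivity)).trans ?_
  simp only [Finset.sum_const, Finset.card_range, nsmul_eq_mul]
  rw [← mul_assoc, inv_mul_cancel₀ hN'.ne', one_mul]

theorem exists_AP {ν : AddMonoidAlgebra ℝ G} (hν : IsP ν) (C K t η : ℝ) (L : ℕ) (hL : 0 < L)
    (hC : ent (ν * ν) - ent ν ≤ C) (hK : 1 < K) (ht : 0 < t) (hη : 0 < η) (hLK : K ≤ L * t ^ 2)
    (hsmall : t + 2 * ((C + 1) / log K) ≤ η / 2)
    (hbig : 2 * (L * C + log 2) < ent ν) :
    ∃ q : G, q ≠ 0 ∧ AP (ν * ν) q (2 * η) := by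
  classical
  set ρ := ν * ν with hρ
  have hρP : IsP ρ := hν.mul hν
  set T := Fintype.piFinset (fun _ : Fin L => ν.coeff.support) with hT
  set D : (Fin L → G) → ℝ := fun y => ∑ z ∈ ρ.coeff.support,
      |(∑ j, ν.coeff (z - y j)) / L - ρ.coeff z| with hD
  set A := T.filter (fun y => D y ≤ η) with hA
  have hcov := (soft_cover hν C K t L hL hC hK ht hLK).trans hsmall
  have hP : 1 / 2 ≤ ∑ y ∈ A, ∏ j, ν.coeff (y j) := by
    have h1 : EL ν L (fun _ => 1) ≤ (∑ y ∈ A, ∏ j, ν.coeff (y j)) +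
        EL ν L (fun y => (1 / η) * D y) := by
      unfold EL
      rw [hA, Finset.sum_filter, ← Finset.sum_add_distrib]
      apply Finset.sum_le_sum
      intro y _
      have hp : 0 ≤ ∏ j, ν.coeff (y j) := Finset.prod_nonneg fun j _ => hν.nonneg _
      have hD0 : 0 ≤ D y := Finset.sum_nonneg fun z _ => abs_nonneg _
      split_ifs with h
      · have : 0 ≤ (∏ j, ν.coeff (y j)) * (1 / η * D y) := by positivity
        linarith
      · rw [zero_add]
        apply mul_le_mul_of_nonneg_left _ hp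
        show (1 : ℝ) ≤ 1 / η * D y
        rw [one_div, inv_mul_eq_div, le_div_iff₀ hη]
        linarith [not_le.1 h]
    rw [EL_one hν, EL_const_mul] at h1
    have h2 : 1 / η * EL ν L D ≤ 1 / 2 := by
      rw [one_div, inv_mul_eq_div, div_le_iff₀ hη]
      have : EL ν L D ≤ η / 2 := hcov
      linarith
    linarith
  have hbig' : 2 * (L * (ent (ν * ν) - ent ν) + log 2) < ent ν := by
    have : (L : ℝ) * (ent (ν * ν) - ent ν) ≤ L * C :=
      mul_le_mul_of_nonneg_left hC (Nat.cast_nonneg _)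
    linarith
  obtain ⟨q, hq, y, hy, y', hy', hyy⟩ := pigeon hν L A (Finset.filter_subset _ _) hP hbig'
  refine ⟨q, hq, ?_⟩
  -- full norm bound
  have full : ∀ y ∈ A, ∀ Z : Finset G,
      ∑ z ∈ Z, |(∑ j, ν.coeff (z - y j)) / L - ρ.coeff z| ≤ η := by
    intro y hy Z
    rw [hA, Finset.mem_filter] at hy
    refine le_trans ?_ hy.2
    have h1 : ∑ z ∈ Z, |(∑ j, ν.coeff (z - y j)) / L - ρ.coeff z| =
        ∑ z ∈ Z.filter (fun z => z ∈ ρ.coeff.support),
          |(∑ j, ν.coeff (z - y j)) / L - ρ.coeff z| := by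
      symm
      apply Finset.sum_subset (Finset.filter_subset _ _)
      intro z hz hz'
      have hz2 : z ∉ ρ.coeff.support := fun h => hz' (Finset.mem_filter.2 ⟨hz, h⟩)
      have hz3 : ρ.coeff z = 0 := Finsupp.notMem_support_iff.1 hz2
      have hz4 : ∀ j, ν.coeff (z - y j) = 0 := by
        intro j
        by_contra hne
        have h5 : 0 < ν.coeff (z - y j) := lt_of_le_of_ne (hν.nonneg _) (Ne.symm hne)
        have h6 : 0 < ν.coeff (y j) := lt_of_le_of_ne (hν.nonneg _) (Ne.symm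
          (Finsupp.mem_support_iff.1 (Fintype.mem_piFinset.1 hy.1 j)))
        have h7 := hν.mul_pos hν h5 h6
        rw [sub_add_cancel] at h7
        exact h7.ne' hz3
      simp [hz3, hz4]
    rw [h1]
    apply Finset.sum_le_sum_of_subset_of_nonneg
    · intro z hz
      exact (Finset.mem_filter.1 hz).2
    · intro z _ _; exact abs_nonneg _
  intro Z
  have h1 := full y' hy' Z
  have h2 := full y hy (Z.image fun z => z - q)
  rw [Finset.sum_image (by intro x _ y _ hxy; exact sub_left_injective hxy)] at h2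
  have h3 : ∀ z ∈ Z, |ρ.coeff (z - q) - ρ.coeff z| ≤
      |(∑ j, ν.coeff (z - y' j)) / L - ρ.coeff z| +
      |(∑ j, ν.coeff (z - q - y j)) / L - ρ.coeff (z - q)| := by
    intro z _
    have e : ∑ j, ν.coeff (z - q - y j) = ∑ j, ν.coeff (z - y' j) := by
      apply Finset.sum_congr rfl
      intro j _
      rw [hyy j]
      congr 1
      abel
    rw [e]
    set a := (∑ j, ν.coeff (z - y' j)) / (L : ℝ)
    have := abs_sub_le (ρ.coeff (z - q)) a (ρ.coeff z)
    rw [abs_sub_comm (ρ.coeff (z - q)) a] at this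
    linarith
  refine (Finset.sum_le_sum h3).trans ?_
  rw [Finset.sum_add_distrib]
  linarith

/-- existence of a long progression whose addition hardly increases the entropy -/
theorem exists_period (C : ℝ) (hC0 : 0 ≤ C) (N : ℕ) (hN : 0 < N) : ∃ H0 : ℝ,
    ∀ {G : Type*} [AddCommGroup G] {ν : AddMonoidAlgebra ℝ G}, IsP ν →
      ent (ν * ν) - ent ν ≤ C → H0 < ent ν →
      ∃ q : G, q ≠ 0 ∧ ent (prog q N * ν) - ent ν ≤ C + 1 := by
  have hN' : (0 : ℝ) < N := by exact_mod_cast hN
  set η : ℝ := 1 / (2 * N ^ 2) with hη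
  have hη0 : 0 < η := by positivity
  set K : ℝ := Real.exp (8 * (C + 1) / η) with hK
  set t : ℝ := η / 4 with ht
  have ht0 : 0 < t := by positivity
  obtain ⟨L, hL⟩ := exists_nat_ge (K / t ^ 2)
  have hKpos : 0 < K := Real.exp_pos _
  have hL0 : 0 < L := by
    have : (0 : ℝ) < L := lt_of_lt_of_le (by positivity) hL
    exact_mod_cast this
  refine ⟨2 * (L * C + log 2), ?_⟩
  intro G _ ν hν hC hbig
  have hK1 : 1 < K := by
    rw [hK, Real.one_lt_exp_iff]; positivity
  have hlogK : log K = 8 * (C + 1) / η := by rw [hK, Real.log_exp]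
  obtain ⟨q, hq, hAP⟩ := exists_AP hν C K t η L hL0 hC hK1 ht0 hη0
    (by rw [div_le_iff₀ (by positivity)] at hL; exact hL)
    (by
      rw [hlogK]
      have : (C + 1) / (8 * (C + 1) / η) = η / 8 := by field_simp
      rw [this, ht]; linarith) hbig
  refine ⟨q, hq, ?_⟩
  have h1 := ent_prog_mul (hν.mul hν) q (2 * η) (by positivity) hAP N hN
  have h2 : (N : ℝ) ^ 2 * (2 * η) = 1 := by rw [hη]; field_simp
  rw [h2] at h1
  have h3 : ent (prog q N * ν) ≤ ent (prog q N * (ν * ν)) := by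
    have := ent_le_ent_mul hν ((isP_prog q N hN).mul hν)
    have e : prog q N * (ν * ν) = ν * (prog q N * ν) := by ring
    rw [e]; exact this
  linarith

end PartPeriod

section PartPol

variable {G : Type*} [AddCommGroup G]

/-- the standard normal law -/
noncomputable abbrev γ : Measure ℝ := gaussianReal 0 1

/-- measurable functions of polynomial growth -/
def Pol (F : ℝ → ℝ) : Prop := Measurable F ∧ ∃ C : ℝ, 0 ≤ C ∧ ∃ k : ℕ, ∀ x, |F x| ≤ C * (1 + |x|) ^ k

theorem one_le_one_add_abs (x : ℝ) : 1 ≤ 1 + |x| := by linarith [abs_nonneg x]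

theorem Pol.const (c : ℝ) : Pol (fun _ => c) :=
  ⟨measurable_const, |c|, abs_nonneg _, 0, fun x => by simp⟩

theorem Pol.id : Pol (fun x => x) :=
  ⟨measurable_id, 1, zero_le_one, 1, fun x => by simp⟩

theorem pow_le_pow_max {a : ℝ} (ha : 1 ≤ a) (k l : ℕ) : a ^ k ≤ a ^ (k + l) :=
  pow_le_pow_right₀ ha (Nat.le_add_right k l)

theorem Pol.add {F F' : ℝ → ℝ} (h : Pol F) (h' : Pol F') : Pol (fun x => F x + F' x) := by
  obtain ⟨hm, C, hC, k, hk⟩ := h
  obtain ⟨hm', C', hC', k', hk'⟩ := h'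
  refine ⟨hm.add hm', C + C', by positivity, k + k', fun x => ?_⟩
  have h1 := one_le_one_add_abs x
  calc |F x + F' x| ≤ |F x| + |F' x| := abs_add_le _ _
    _ ≤ C * (1 + |x|) ^ k + C' * (1 + |x|) ^ k' := add_le_add (hk x) (hk' x)
    _ ≤ C * (1 + |x|) ^ (k + k') + C' * (1 + |x|) ^ (k + k') := by
        apply add_le_add
        · exact mul_le_mul_of_nonneg_left (pow_le_pow_max h1 k k') hC
        · rw [add_comm k k']
          exact mul_le_mul_of_nonneg_left (pow_le_pow_max h1 k' k) hC'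
    _ = _ := by ring

theorem Pol.mul {F F' : ℝ → ℝ} (h : Pol F) (h' : Pol F') : Pol (fun x => F x * F' x) := by
  obtain ⟨hm, C, hC, k, hk⟩ := h
  obtain ⟨hm', C', hC', k', hk'⟩ := h'
  refine ⟨hm.mul hm', C * C', by positivity, k + k', fun x => ?_⟩
  rw [abs_mul]
  calc |F x| * |F' x| ≤ (C * (1 + |x|) ^ k) * (C' * (1 + |x|) ^ k') :=
        mul_le_mul (hk x) (hk' x) (abs_nonneg _) (by positivity)
    _ = _ := by rw [pow_add]; ring

theorem Pol.neg {F : ℝ → ℝ} (h : Pol F) : Pol (fun x => - F x) := by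
  have := (Pol.const (-1)).mul h
  simpa using this

theorem Pol.sub {F F' : ℝ → ℝ} (h : Pol F) (h' : Pol F') : Pol (fun x => F x - F' x) := by
  simpa [sub_eq_add_neg] using h.add h'.neg

theorem Pol.const_mul {F : ℝ → ℝ} (h : Pol F) (c : ℝ) : Pol (fun x => c * F x) :=
  (Pol.const c).mul h

theorem Pol.sq {F : ℝ → ℝ} (h : Pol F) : Pol (fun x => F x ^ 2) := by
  simpa [pow_two] using h.mul h

theorem Pol.sum {ι : Type*} (s : Finset ι) {F : ι → ℝ → ℝ} (h : ∀ i ∈ s, Pol (F i)) :
    Pol (fun x => ∑ i ∈ s, F i x) := by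
  classical
  induction s using Finset.induction_on with
  | empty => simpa using Pol.const 0
  | insert a s ha ih =>
    have h1 := (h a (Finset.mem_insert_self _ _)).add (ih fun i hi => h i (Finset.mem_insert_of_mem hi))
    simpa [Finset.sum_insert ha] using h1

theorem Pol.E {ν : AddMonoidAlgebra ℝ G} {F : G → ℝ → ℝ} (h : ∀ g, Pol (F g)) :
    Pol (fun x => E ν fun g => F g x) := by
  simp only [E_def]
  exact Pol.sum _ fun g _ => (h g).const_mul _

theorem abs_affine_le (a b x : ℝ) : 1 + |a + b * x| ≤ ((1 + |a|) * (1 + |b|)) * (1 + |x|) := by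
  have h1 : |a + b * x| ≤ |a| + |b| * |x| := by
    rw [← abs_mul]; exact abs_add_le _ _
  have := abs_nonneg a
  have := abs_nonneg b
  have := abs_nonneg x
  nlinarith [mul_nonneg (abs_nonneg a) (abs_nonneg b), mul_nonneg (abs_nonneg a) (abs_nonneg x),
    mul_nonneg (abs_nonneg b) (abs_nonneg x),
    mul_nonneg (mul_nonneg (abs_nonneg a) (abs_nonneg b)) (abs_nonneg x)]

theorem Pol.comp_affine {F : ℝ → ℝ} (h : Pol F) (a b : ℝ) : Pol (fun x => F (a + b * x)) := by
  obtain ⟨hm, C, hC, k, hk⟩ := h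
  refine ⟨hm.comp (by fun_prop), C * ((1 + |a|) * (1 + |b|)) ^ k, by positivity, k, fun x => ?_⟩
  calc |F (a + b * x)| ≤ C * (1 + |a + b * x|) ^ k := hk _
    _ ≤ C * (((1 + |a|) * (1 + |b|)) * (1 + |x|)) ^ k := by
        apply mul_le_mul_of_nonneg_left _ hC
        exact pow_le_pow_left₀ (by positivity) (abs_affine_le a b x) k
    _ = _ := by rw [mul_pow]; ring

theorem Pol.comp_add {F : ℝ → ℝ} (h : Pol F) (a : ℝ) : Pol (fun x => F (a + x)) := by
  simpa using h.comp_affine a 1

theorem integrable_pow_abs (k : ℕ) : Integrable (fun u : ℝ => (1 + |u|) ^ k) γ := by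
  have h1 : MemLp (fun u : ℝ => 1 + |u|) k γ := by
    have h2 : MemLp (id : ℝ → ℝ) (k : ENNReal) γ := memLp_id_gaussianReal' _ (by simp)
    have h3 : MemLp (fun _ : ℝ => (1 : ℝ)) (k : ENNReal) γ := memLp_const _
    exact h3.add h2.norm
  have h4 := h1.integrable_norm_pow'
  refine h4.congr (Filter.Eventually.of_forall fun u => ?_)
  simp only [Real.norm_eq_abs]
  rw [abs_of_nonneg (by positivity)]

theorem Pol.integrable {F : ℝ → ℝ} (h : Pol F) : Integrable F γ := by
  obtain ⟨hm, C, hC, k, hk⟩ := h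
  apply Integrable.mono' ((integrable_pow_abs k).const_mul C) hm.aestronglyMeasurable
  exact Filter.Eventually.of_forall fun x => hk x

theorem Pol.integrable' {F : ℝ → ℝ} (h : Pol F) (a b : ℝ) :
    Integrable (fun u => F (a + b * u)) γ := (h.comp_affine a b).integrable

/-- two-variable functions of polynomial growth -/
def Pol2 (K : ℝ × ℝ → ℝ) : Prop :=
  Measurable K ∧ ∃ C : ℝ, 0 ≤ C ∧ ∃ k : ℕ, ∀ p, |K p| ≤ C * ((1 + |p.1|) ^ k * (1 + |p.2|) ^ k)

theorem Pol2.mul {K K' : ℝ × ℝ → ℝ} (h : Pol2 K) (h' : Pol2 K') : Pol2 (fun p => K p * K' p) := by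
  obtain ⟨hm, C, hC, k, hk⟩ := h
  obtain ⟨hm', C', hC', k', hk'⟩ := h'
  refine ⟨hm.mul hm', C * C', by positivity, k + k', fun p => ?_⟩
  rw [abs_mul]
  calc |K p| * |K' p| ≤ (C * ((1 + |p.1|) ^ k * (1 + |p.2|) ^ k)) *
      (C' * ((1 + |p.1|) ^ k' * (1 + |p.2|) ^ k')) :=
        mul_le_mul (hk p) (hk' p) (abs_nonneg _) (by positivity)
    _ = _ := by rw [pow_add, pow_add]; ring

theorem Pol2.integrable {K : ℝ × ℝ → ℝ} (h : Pol2 K) : Integrable K (γ.prod γ) := by
  obtain ⟨hm, C, hC, k, hk⟩ := h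
  apply Integrable.mono' (((integrable_pow_abs k).mul_prod (integrable_pow_abs k)).const_mul C)
    hm.aestronglyMeasurable
  exact Filter.Eventually.of_forall fun x => hk x

theorem Pol.comp2 {F : ℝ → ℝ} (h : Pol F) (c a b : ℝ) :
    Pol2 (fun p => F (c + a * p.1 + b * p.2)) := by
  obtain ⟨hm, C, hC, k, hk⟩ := h
  refine ⟨hm.comp (by fun_prop), C * ((1 + |c|) * (1 + |a|) * (1 + |b|)) ^ k, by positivity, k,
    fun p => ?_⟩
  have h1 : 1 + |c + a * p.1 + b * p.2| ≤
      ((1 + |c|) * (1 + |a|) * (1 + |b|)) * ((1 + |p.1|) * (1 + |p.2|)) := by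
    have e1 := abs_affine_le (c + a * p.1) b p.2
    have e2 := abs_affine_le c a p.1
    calc 1 + |c + a * p.1 + b * p.2| ≤ ((1 + |c + a * p.1|) * (1 + |b|)) * (1 + |p.2|) := e1
      _ ≤ ((((1 + |c|) * (1 + |a|)) * (1 + |p.1|)) * (1 + |b|)) * (1 + |p.2|) := by
          gcongr
      _ = _ := by ring
  calc |F (c + a * p.1 + b * p.2)| ≤ C * (1 + |c + a * p.1 + b * p.2|) ^ k := hk _
    _ ≤ C * (((1 + |c|) * (1 + |a|) * (1 + |b|)) * ((1 + |p.1|) * (1 + |p.2|))) ^ k := by
        apply mul_le_mul_of_nonneg_left _ hC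
        exact pow_le_pow_left₀ (by positivity) h1 k
    _ = _ := by rw [mul_pow, mul_pow (1 + |p.1|)]; ring

theorem Pol.comp_fst {F : ℝ → ℝ} (h : Pol F) : Pol2 (fun p => F p.1) := by
  simpa using h.comp2 0 1 0

theorem Pol.comp_snd {F : ℝ → ℝ} (h : Pol F) : Pol2 (fun p => F p.2) := by
  simpa using h.comp2 0 0 1

theorem Pol2.comp_affine {K : ℝ × ℝ → ℝ} (h : Pol2 K) (a b a' b' : ℝ) :
    Pol2 (fun p => K (a + b * p.1, a' + b' * p.2)) := by
  obtain ⟨hm, C, hC, k, hk⟩ := h
  refine ⟨hm.comp (by fun_prop), C * (((1 + |a|) * (1 + |b|)) ^ k * ((1 + |a'|) * (1 + |b'|)) ^ k),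
    by positivity, k, fun p => ?_⟩
  calc |K (a + b * p.1, a' + b' * p.2)| ≤
      C * ((1 + |a + b * p.1|) ^ k * (1 + |a' + b' * p.2|) ^ k) := hk _
    _ ≤ C * ((((1 + |a|) * (1 + |b|)) * (1 + |p.1|)) ^ k *
          (((1 + |a'|) * (1 + |b'|)) * (1 + |p.2|)) ^ k) := by
        apply mul_le_mul_of_nonneg_left _ hC
        apply mul_le_mul
        · exact pow_le_pow_left₀ (by positivity) (abs_affine_le a b _) k
        · exact pow_le_pow_left₀ (by positivity) (abs_affine_le a' b' _) k
        · positivity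
        · positivity
    _ = _ := by rw [mul_pow, mul_pow ((1 + |a'|) * (1 + |b'|))]; ring

/-- marginal integral of a two-variable function -/
theorem Pol2.fst {K : ℝ × ℝ → ℝ} (h : Pol2 K) (x : ℝ) : Pol (fun y => K (x, y)) := by
  obtain ⟨hm, C, hC, k, hk⟩ := h
  refine ⟨hm.comp (by fun_prop), C * (1 + |x|) ^ k, by positivity, k, fun y => ?_⟩
  have := hk (x, y)
  simp only at this
  linarith [this]

theorem Pol2.integral {K : ℝ × ℝ → ℝ} (h : Pol2 K) : Pol (fun x => ∫ y, K (x, y) ∂γ) := by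
  have h0 := h
  obtain ⟨hm, C, hC, k, hk⟩ := h
  refine ⟨?_, C * ∫ y, (1 + |y|) ^ k ∂γ, ?_, k, fun x => ?_⟩
  · exact (StronglyMeasurable.integral_prod_right' hm.stronglyMeasurable).measurable
  · apply mul_nonneg hC
    exact integral_nonneg fun y => by positivity
  · have h1 : |∫ y, K (x, y) ∂γ| ≤ ∫ y, |K (x, y)| ∂γ := by
      have := norm_integral_le_integral_norm (μ := γ) (fun y => K (x, y))
      simpa using this
    refine h1.trans ?_
    have h2 : ∫ y, |K (x, y)| ∂γ ≤ ∫ y, C * (1 + |x|) ^ k * (1 + |y|) ^ k ∂γ := by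
      apply integral_mono
      · exact (h0.fst x).integrable.abs
      · exact (integrable_pow_abs k).const_mul _
      · intro y
        have := hk (x, y)
        simp only at this ⊢
        linarith
    refine h2.trans (le_of_eq ?_)
    rw [integral_const_mul]
    ring

end PartPol

section PartEX

variable {G : Type*} [AddCommGroup G]

/-- expectation of `F (α S + √t Z)`, `S` of law `ν`, `Z` an independent standard normal -/
noncomputable def EX (α : G →+ ℝ) (ν : AddMonoidAlgebra ℝ G) (t : ℝ) (F : ℝ → ℝ) : ℝ :=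
  E ν fun g => ∫ u, F (α g + √t * u) ∂γ

variable (α : G →+ ℝ)

theorem EX_add (ν : AddMonoidAlgebra ℝ G) (t : ℝ) {F F' : ℝ → ℝ} (h : Pol F) (h' : Pol F') :
    EX α ν t (fun x => F x + F' x) = EX α ν t F + EX α ν t F' := by
  unfold EX
  rw [← E_add_fun]
  apply E_congr
  intro g _
  exact integral_add (h.integrable' _ _) (h'.integrable' _ _)

theorem EX_sub (ν : AddMonoidAlgebra ℝ G) (t : ℝ) {F F' : ℝ → ℝ} (h : Pol F) (h' : Pol F') :
    EX α ν t (fun x => F x - F' x) = EX α ν t F - EX α ν t F' := by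
  unfold EX
  rw [← E_sub_fun]
  apply E_congr
  intro g _
  exact integral_sub (h.integrable' _ _) (h'.integrable' _ _)

theorem EX_const_mul (ν : AddMonoidAlgebra ℝ G) (t : ℝ) (c : ℝ) (F : ℝ → ℝ) :
    EX α ν t (fun x => c * F x) = c * EX α ν t F := by
  unfold EX
  rw [← E_const_mul]
  apply E_congr
  intro g _
  exact integral_const_mul _ _

theorem EX_const {ν : AddMonoidAlgebra ℝ G} (hν : IsP ν) (t : ℝ) (c : ℝ) :
    EX α ν t (fun _ => c) = c := by
  unfold EX
  simp [hν.const]

theorem EX_mono {ν : AddMonoidAlgebra ℝ G} (hν : ∀ g, 0 ≤ ν.coeff g) (t : ℝ) {F F' : ℝ → ℝ}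
    (h : Pol F) (h' : Pol F') (hle : ∀ x, F x ≤ F' x) : EX α ν t F ≤ EX α ν t F' := by
  apply E_mono hν
  intro g _
  exact integral_mono (h.integrable' _ _) (h'.integrable' _ _) fun u => hle _

theorem EX_nonneg {ν : AddMonoidAlgebra ℝ G} (hν : ∀ g, 0 ≤ ν.coeff g) (t : ℝ) {F : ℝ → ℝ}
    (hle : ∀ x, 0 ≤ F x) : 0 ≤ EX α ν t F := by
  apply E_nonneg hν
  intro g _
  exact integral_nonneg fun u => hle _

theorem EX_one_zero (F : ℝ → ℝ) : EX α 1 0 F = F 0 := by
  unfold EX
  rw [E_one]
  simp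

theorem Pol2.EX {ν : AddMonoidAlgebra ℝ G} {t : ℝ} {K : ℝ × ℝ → ℝ} (h : Pol2 K) :
    Pol (fun x => EX α ν t (fun y => K (x, y))) := by
  unfold Pool.Agent.Results.MP_b45167_pr.EntropyGrowth.EX
  apply Pol.E
  intro g
  have := (h.comp_affine 0 1 (α g) (√t)).integral
  simpa using this

theorem Pol.EX {ν : AddMonoidAlgebra ℝ G} {t : ℝ} {F : ℝ → ℝ} (h : Pol F) :
    Pol (fun x => EX α ν t (fun y => F (x + y))) := by
  have h2 : Pol2 (fun p => F (p.1 + p.2)) := by simpa using h.comp2 0 1 1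
  exact h2.EX α

theorem integral_E (ν : AddMonoidAlgebra ℝ G) {F : G → ℝ → ℝ} (h : ∀ g, Integrable (F g) γ) :
    ∫ u, E ν (fun g => F g u) ∂γ = E ν fun g => ∫ u, F g u ∂γ := by
  simp only [E_def]
  rw [integral_finsetSum]
  · apply Finset.sum_congr rfl
    intro g _
    exact integral_const_mul _ _
  · intro g _
    exact (h g).const_mul _

theorem EX_swap (μ ν : AddMonoidAlgebra ℝ G) (s t : ℝ) {K : ℝ × ℝ → ℝ} (h : Pol2 K) :
    EX α μ s (fun x => EX α ν t (fun y => K (x, y))) =
      EX α ν t (fun y => EX α μ s (fun x => K (x, y))) := by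
  unfold EX
  have h1 : ∀ a, ∫ u, (E ν fun b => ∫ v, K (α a + √s * u, α b + √t * v) ∂γ) ∂γ =
      E ν fun b => ∫ u, ∫ v, K (α a + √s * u, α b + √t * v) ∂γ ∂γ := by
    intro a
    apply integral_E ν (F := fun b u => ∫ v, K (α a + √s * u, α b + √t * v) ∂γ)
    intro b
    exact (h.comp_affine _ _ _ _).integral.integrable
  have h2 : ∀ b, ∫ v, (E μ fun a => ∫ u, K (α a + √s * u, α b + √t * v) ∂γ) ∂γ =
      E μ fun a => ∫ v, ∫ u, K (α a + √s * u, α b + √t * v) ∂γ ∂γ := by
    intro b
    apply integral_E μ (F := fun a v => ∫ u, K (α a + √s * u, α b + √t * v) ∂γ)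
    intro a
    exact (h.comp_affine (α a) (√s) (α b) (√t)).integrable.integral_prod_right
  simp only [h1, h2]
  rw [E_comm]
  congr 1
  funext b
  congr 1
  funext a
  exact integral_integral_swap (h.comp_affine (α a) (√s) (α b) (√t)).integrable

theorem integral_id_zero : ∫ u, u ∂γ = 0 := integral_id_gaussianReal

theorem rotation_inv (K : ℝ × ℝ → ℝ) (hK : Measurable K) (c s : ℝ) (hcs : c ^ 2 + s ^ 2 = 1) :
    ∫ p, K (c * p.1 + s * p.2, -s * p.1 + c * p.2) ∂(γ.prod γ) = ∫ p, K p ∂(γ.prod γ) := by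
  obtain ⟨θ, hc, hs⟩ : ∃ θ : ℝ, Real.cos θ = c ∧ Real.sin θ = s := by
    have h1 : (⟨c, s⟩ : ℂ) ≠ 0 := by
      intro h
      have hc : c = 0 := congrArg Complex.re h
      have hs : s = 0 := congrArg Complex.im h
      rw [hc, hs] at hcs
      norm_num at hcs
    have hn : ‖(⟨c, s⟩ : ℂ)‖ = 1 := by
      rw [Complex.norm_def, Complex.normSq_mk]
      rw [show c * c + s * s = 1 by nlinarith]
      exact Real.sqrt_one
    refine ⟨Complex.arg ⟨c, s⟩, ?_, ?_⟩
    · rw [Complex.cos_arg h1, hn]; simp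
    · rw [Complex.sin_arg, hn]; simp
  have hrot : (γ.prod γ).map (ContinuousLinearMap.rotation θ) = γ.prod γ := by
    apply IsGaussian.map_rotation_eq_self_of_forall_strongDual_eq_zero
    intro L
    have : ∀ x : ℝ, L x = L 1 * x := by
      intro x
      have := L.map_smul x 1
      simp only [smul_eq_mul, mul_one] at this
      rw [this, mul_comm]
    calc ∫ x, L x ∂γ = ∫ x, L 1 * x ∂γ := by
          congr 1
          funext x
          exact this x
      _ = 0 := by rw [integral_const_mul, integral_id_zero, mul_zero]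
  conv_rhs => rw [← hrot]
  rw [integral_map]
  · apply integral_congr_ae
    refine Filter.Eventually.of_forall fun p => ?_
    simp only [ContinuousLinearMap.rotation_apply, smul_eq_mul, hc, hs]
  · exact (ContinuousLinearMap.rotation θ).continuous.measurable.aemeasurable
  · exact hK.aestronglyMeasurable

/-- Gaussian convolution, together with the first-moment version -/
theorem gauss_conv {F : ℝ → ℝ} (hF : Pol F) (c s t : ℝ) (hs : 0 ≤ s) (ht : 0 ≤ t) :
    ∫ u, ∫ v, F (c + √s * u + √t * v) ∂γ ∂γ = ∫ w, F (c + √(s + t) * w) ∂γ := by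
  rcases eq_or_lt_of_le (add_nonneg hs ht) with h | h
  · have hs0 : s = 0 := by linarith
    have ht0 : t = 0 := by linarith
    subst hs0; subst ht0
    simp
  · set r := √(s + t) with hr
    have hr0 : 0 < r := Real.sqrt_pos.2 h
    have hr2 : r ^ 2 = s + t := Real.sq_sqrt h.le
    have h1 := rotation_inv (fun p => F (c + r * p.1)) (hF.1.comp (by fun_prop))
      (√s / r) (√t / r) (by
        rw [div_pow, div_pow, Real.sq_sqrt hs, Real.sq_sqrt ht, ← add_div, hr2]
        exact div_self h.ne')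
    have e : ∀ p : ℝ × ℝ, c + r * (√s / r * p.1 + √t / r * p.2) = c + √s * p.1 + √t * p.2 := by
      intro p
      field_simp
      ring
    simp only [e] at h1
    rw [integral_prod _ (hF.comp2 c (√s) (√t)).integrable] at h1
    simp only at h1
    rw [h1, integral_prod _ ((hF.comp_affine c r).comp_fst).integrable]
    simp

theorem gauss_conv' {F : ℝ → ℝ} (hF : Pol F) (c s t : ℝ) (hs : 0 ≤ s) (ht : 0 < t) :
    ∫ v, (v / √t) * ∫ u, F (c + √t * v + √s * u) ∂γ ∂γ =
      ∫ w, (w / √(s + t)) * F (c + √(s + t) * w) ∂γ := by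
  have h : 0 < s + t := by linarith
  set r := √(s + t) with hr
  have hr0 : 0 < r := Real.sqrt_pos.2 h
  have hr2 : r ^ 2 = s + t := Real.sq_sqrt h.le
  have ht0 : 0 < √t := Real.sqrt_pos.2 ht
  have hmeas : Measurable (fun p : ℝ × ℝ => F (c + r * p.1) * (p.1 / r - (√s / (r * √t)) * p.2)) :=
    (hF.1.comp (by fun_prop)).mul (by fun_prop)
  have h1 := rotation_inv (fun p => F (c + r * p.1) * (p.1 / r - (√s / (r * √t)) * p.2)) hmeas
      (√t / r) (√s / r) (by
        rw [div_pow, div_pow, Real.sq_sqrt hs, Real.sq_sqrt ht.le, ← add_div, hr2, add_comm]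
        exact div_self h.ne')
  have e : ∀ p : ℝ × ℝ, F (c + r * (√t / r * p.1 + √s / r * p.2)) *
      ((√t / r * p.1 + √s / r * p.2) / r - (√s / (r * √t)) * (-(√s / r) * p.1 + √t / r * p.2)) =
      (p.1 / √t) * F (c + √t * p.1 + √s * p.2) := by
    intro p
    have e1 : c + r * (√t / r * p.1 + √s / r * p.2) = c + √t * p.1 + √s * p.2 := by
      field_simp
      ring
    have e2 : (√t / r * p.1 + √s / r * p.2) / r -
        (√s / (r * √t)) * (-(√s / r) * p.1 + √t / r * p.2) = p.1 / √t := by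
      have e3 : (√t / r * p.1 + √s / r * p.2) / r -
        (√s / (r * √t)) * (-(√s / r) * p.1 + √t / r * p.2) =
          (√t ^ 2 + √s ^ 2) * p.1 / (r ^ 2 * √t) := by
        field_simp
        ring
      rw [e3, Real.sq_sqrt hs, Real.sq_sqrt ht.le, hr2, add_comm t s]
      field_simp
    rw [e1, e2, mul_comm]
  simp only [e] at h1
  have hP1 : Pol (fun x => x / √t) := by
    have := Pol.id.const_mul (√t)⁻¹
    simpa [div_eq_inv_mul] using this
  have hI1 : Pol2 (fun p : ℝ × ℝ => (p.1 / √t) * F (c + √t * p.1 + √s * p.2)) :=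
    (Pol.comp_fst hP1).mul (hF.comp2 c (√t) (√s))
  rw [integral_prod _ hI1.integrable] at h1
  simp only at h1
  have h2 : ∀ v : ℝ, ∫ u, (v / √t) * F (c + √t * v + √s * u) ∂γ =
      (v / √t) * ∫ u, F (c + √t * v + √s * u) ∂γ := fun v => integral_const_mul _ _
  simp only [h2] at h1
  rw [h1]
  have hP2 : Pol (fun x => x / r) := by
    have := Pol.id.const_mul r⁻¹
    simpa [div_eq_inv_mul] using this
  have hI2 : Pol2 (fun p : ℝ × ℝ => F (c + r * p.1) * (p.1 / r)) :=
    Pol.comp_fst ((hF.comp_affine c r).mul hP2)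
  have hI3 : Pol2 (fun p : ℝ × ℝ => F (c + r * p.1) * ((√s / (r * √t)) * p.2)) :=
    (Pol.comp_fst (hF.comp_affine c r)).mul (Pol.comp_snd (Pol.id.const_mul _))
  have h3 : ∀ p : ℝ × ℝ, F (c + r * p.1) * (p.1 / r - (√s / (r * √t)) * p.2) =
      F (c + r * p.1) * (p.1 / r) - F (c + r * p.1) * ((√s / (r * √t)) * p.2) := fun p => by ring
  simp only [h3]
  rw [integral_sub hI2.integrable hI3.integrable]
  rw [integral_prod _ hI2.integrable, integral_prod _ hI3.integrable]
  have h5 : ∀ x : ℝ, ∫ y, F (c + r * x) * (√s / (r * √t) * y) ∂γ = 0 := by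
    intro x
    rw [integral_const_mul, integral_const_mul, integral_id_zero]
    ring
  simp only [h5, integral_zero, sub_zero, integral_const, probReal_univ, one_smul]
  apply integral_congr_ae
  refine Filter.Eventually.of_forall fun w => ?_
  simp only
  ring

theorem EX_conv (μ ν : AddMonoidAlgebra ℝ G) (s t : ℝ) (hs : 0 ≤ s) (ht : 0 ≤ t) {F : ℝ → ℝ}
    (hF : Pol F) :
    EX α (μ * ν) (s + t) F = EX α μ s (fun x => EX α ν t (fun y => F (x + y))) := by
  unfold EX
  rw [E_mul]
  congr 1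
  funext a
  have h2 : Pol2 (fun p => F (p.1 + p.2)) := by simpa using hF.comp2 0 1 1
  rw [integral_E ν (F := fun b u => ∫ v, F (α a + √s * u + (α b + √t * v)) ∂γ)]
  · congr 1
    funext b
    rw [← gauss_conv hF (α (a + b)) s t hs ht]
    congr 1
    funext u
    congr 1
    funext v
    congr 1
    rw [map_add]
    ring
  · intro b
    exact (h2.comp_affine (α a) (√s) (α b) (√t)).integral.integrable

end PartEX

section PartDens

variable {G : Type*} [AddCommGroup G]

/-- centred Gaussian density of variance `t` -/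
noncomputable def gd (t u : ℝ) : ℝ := (√(2 * π * t))⁻¹ * exp (-u ^ 2 / (2 * t))

theorem gd_pos {t : ℝ} (ht : 0 < t) (u : ℝ) : 0 < gd t u := by
  unfold gd; positivity

theorem gd_le {t : ℝ} (ht : 0 < t) (u : ℝ) : gd t u ≤ (√(2 * π * t))⁻¹ := by
  unfold gd
  have h1 : exp (-u ^ 2 / (2 * t)) ≤ 1 := by
    rw [Real.exp_le_one_iff]
    apply div_nonpos_of_nonpos_of_nonneg
    · have := sq_nonneg u; linarith
    · positivity
  have h2 : 0 ≤ (√(2 * π * t))⁻¹ := by positivity
  nlinarith

theorem continuous_gd {t : ℝ} : Continuous (gd t) := by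
  unfold gd; fun_prop

theorem gd_eq {t : ℝ} (ht : 0 < t) (c x : ℝ) :
    gd t (x - c) = gaussianPDFReal c t.toNNReal x := by
  rw [gaussianPDFReal_def, Real.coe_toNNReal _ ht.le]; rfl

theorem map_affine {t : ℝ} (ht : 0 < t) (c : ℝ) :
    (γ.map fun u => c + √t * u) = gaussianReal c t.toNNReal := by
  have h1 : (fun u : ℝ => c + √t * u) = (fun x => c + x) ∘ (fun u => √t * u) := rfl
  rw [h1, ← Measure.map_map (by fun_prop) (by fun_prop), gaussianReal_map_const_mul,
    gaussianReal_map_const_add]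
  congr 1
  · simp
  · apply NNReal.eq
    rw [NNReal.coe_mul, Real.coe_toNNReal _ ht.le]
    simp [Real.sq_sqrt ht.le]

theorem bridge {t : ℝ} (ht : 0 < t) {F : ℝ → ℝ} (hF : Measurable F) (c : ℝ) :
    ∫ u, F (c + √t * u) ∂γ = ∫ x, F x * gd t (x - c) := by
  have h1 : ∫ u, F (c + √t * u) ∂γ = ∫ x, F x ∂(γ.map fun u => c + √t * u) := by
    rw [integral_map (by fun_prop) hF.aestronglyMeasurable]
  rw [h1, map_affine ht, integral_gaussianReal_eq_integral_smul]
  · apply integral_congr_ae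
    refine Filter.Eventually.of_forall fun x => ?_
    simp only [smul_eq_mul]
    rw [gd_eq ht, mul_comm]
  · intro h
    rw [Real.toNNReal_eq_zero] at h
    exact absurd ht (not_lt.2 h)

theorem bridge_int {t : ℝ} (ht : 0 < t) {F : ℝ → ℝ} (hF : Pol F) (c : ℝ) :
    Integrable (fun x => F x * gd t (x - c)) := by
  have h0 : Integrable (fun u => F (c + √t * u)) γ := hF.integrable' c (√t)
  have h1 : Integrable F (γ.map fun u => c + √t * u) := by
    rw [integrable_map_measure hF.1.aestronglyMeasurable (by fun_prop)]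
    exact h0
  rw [map_affine ht] at h1
  have hv : t.toNNReal ≠ 0 := by
    intro h
    rw [Real.toNNReal_eq_zero] at h
    exact absurd ht (not_lt.2 h)
  rw [gaussianReal_of_var_ne_zero _ hv, integrable_withDensity_iff_integrable_smul'
    (measurable_gaussianPDF _ _) (ae_of_all _ fun _ => gaussianPDF_lt_top)] at h1
  refine h1.congr (Filter.Eventually.of_forall fun x => ?_)
  simp only [toReal_gaussianPDF, smul_eq_mul]
  rw [gd_eq ht, mul_comm]

/-- weighted mixture density -/
noncomputable def wd (α : G →+ ℝ) (P : ℝ → ℝ) (ν : AddMonoidAlgebra ℝ G) (t x : ℝ) : ℝ :=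
  E ν fun g => P (x - α g) * gd t (x - α g)

/-- density of `α S + √t Z` -/
noncomputable def dens (α : G →+ ℝ) (ν : AddMonoidAlgebra ℝ G) (t x : ℝ) : ℝ :=
  E ν fun g => gd t (x - α g)

variable (α : G →+ ℝ)

theorem dens_pos {ν : AddMonoidAlgebra ℝ G} (hν : IsP ν) {t : ℝ} (ht : 0 < t) (x : ℝ) :
    0 < dens α ν t x := by
  obtain ⟨g, hg⟩ := hν.exists_pos
  refine lt_of_lt_of_le (mul_pos hg (gd_pos ht (x - α g))) ?_
  exact le_E (F := fun a => gd t (x - α a)) hν.nonneg (fun a _ => (gd_pos ht _).le) g hg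

theorem continuous_dens (ν : AddMonoidAlgebra ℝ G) {t : ℝ} :
    Continuous (dens α ν t) := by
  unfold dens
  simp only [E_def]
  apply continuous_finsetSum
  intro g _
  exact continuous_const.mul (continuous_gd.comp (by fun_prop))

theorem measurable_wd {P : ℝ → ℝ} (hP : Measurable P) (ν : AddMonoidAlgebra ℝ G) {t : ℝ} :
    Measurable (wd α P ν t) := by
  unfold wd
  simp only [E_def]
  apply Finset.measurable_fun_sum
  intro g _
  exact measurable_const.mul ((hP.comp (by fun_prop)).mul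
    (continuous_gd.measurable.comp (by fun_prop)))

theorem dens_le {ν : AddMonoidAlgebra ℝ G} (hν : IsP ν) {t : ℝ} (ht : 0 < t) (x : ℝ) :
    dens α ν t x ≤ (√(2 * π * t))⁻¹ := by
  have := E_mono hν.nonneg (F := fun g => gd t (x - α g)) (F' := fun _ => (√(2 * π * t))⁻¹)
    fun g _ => gd_le ht _
  rw [hν.const] at this
  exact this

/-- a bound for the support -/
noncomputable def supB (α : G →+ ℝ) (ν : AddMonoidAlgebra ℝ G) : ℝ :=
  ∑ g ∈ ν.coeff.support, |α g|

theorem supB_nonneg (ν : AddMonoidAlgebra ℝ G) : 0 ≤ supB α ν :=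
  Finset.sum_nonneg fun _ _ => abs_nonneg _

theorem le_supB (ν : AddMonoidAlgebra ℝ G) (g : G) (hg : 0 < ν.coeff g) : |α g| ≤ supB α ν :=
  Finset.single_le_sum (f := fun g => |α g|) (fun _ _ => abs_nonneg _)
    (Finsupp.mem_support_iff.2 hg.ne')

theorem one_add_sub_le (ν : AddMonoidAlgebra ℝ G) (g : G) (hg : 0 < ν.coeff g) (x : ℝ) :
    1 + |x - α g| ≤ (1 + supB α ν) * (1 + |x|) := by
  have h1 := le_supB α ν g hg
  have h2 : |x - α g| ≤ |x| + |α g| := abs_sub _ _
  have h3 := supB_nonneg α ν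
  nlinarith [abs_nonneg x, mul_nonneg h3 (abs_nonneg x)]

theorem abs_wd_le {P : ℝ → ℝ} {C : ℝ} (hC : 0 ≤ C) {k : ℕ} (hk : ∀ x, |P x| ≤ C * (1 + |x|) ^ k)
    {ν : AddMonoidAlgebra ℝ G} (hν : IsP ν) {t : ℝ} (ht : 0 < t) (x : ℝ) :
    |wd α P ν t x| ≤ (C * (1 + supB α ν) ^ k * (1 + |x|) ^ k) * dens α ν t x := by
  have h1 : |wd α P ν t x| ≤ E ν fun g => (C * (1 + supB α ν) ^ k * (1 + |x|) ^ k) * gd t (x - α g) := by
    unfold wd
    rw [E_def, E_def]
    refine (Finset.abs_sum_le_sum_abs _ _).trans ?_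
    apply Finset.sum_le_sum
    intro g hg
    have hg' : 0 < ν.coeff g :=
      lt_of_le_of_ne (hν.nonneg _) (Ne.symm (Finsupp.mem_support_iff.1 hg))
    rw [abs_mul, abs_mul, abs_of_pos hg', abs_of_pos (gd_pos ht _)]
    apply mul_le_mul_of_nonneg_left _ hg'.le
    apply mul_le_mul_of_nonneg_right _ (gd_pos ht _).le
    refine (hk _).trans ?_
    rw [mul_assoc, ← mul_pow]
    apply mul_le_mul_of_nonneg_left _ hC
    exact pow_le_pow_left₀ (by positivity) (one_add_sub_le α ν g hg' x) k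
  rw [E_const_mul] at h1
  exact h1

theorem pol_ratio {P : ℝ → ℝ} (hP : Pol P) {ν : AddMonoidAlgebra ℝ G} (hν : IsP ν) {t : ℝ}
    (ht : 0 < t) : Pol (fun x => wd α P ν t x / dens α ν t x) := by
  obtain ⟨hm, C, hC, k, hk⟩ := hP
  refine ⟨(measurable_wd α hm ν).div (continuous_dens α ν).measurable,
    C * (1 + supB α ν) ^ k, ?_, k, fun x => ?_⟩
  · have := supB_nonneg α ν
    positivity
  · rw [abs_div, abs_of_pos (dens_pos α hν ht x), div_le_iff₀ (dens_pos α hν ht x)]
    exact abs_wd_le α hC hk hν ht x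

theorem EX_eq_integral {ν : AddMonoidAlgebra ℝ G} {t : ℝ} (ht : 0 < t) {F : ℝ → ℝ}
    (hF : Pol F) : EX α ν t F = ∫ x, F x * dens α ν t x := by
  unfold EX dens
  simp only [E_def, Finset.mul_sum]
  rw [integral_finsetSum]
  · apply Finset.sum_congr rfl
    intro g _
    rw [bridge ht hF.1, ← integral_const_mul]
    congr 1
    funext x
    ring
  · intro g _
    have := (bridge_int ht hF (α g)).const_mul (ν.coeff g)
    refine this.congr (Filter.Eventually.of_forall fun x => ?_)
    simp only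
    ring

theorem integrable_mul_dens {ν : AddMonoidAlgebra ℝ G} {t : ℝ} (ht : 0 < t) {F : ℝ → ℝ}
    (hF : Pol F) : Integrable (fun x => F x * dens α ν t x) := by
  unfold dens
  simp only [E_def, Finset.mul_sum]
  apply integrable_finsetSum
  intro g _
  have := (bridge_int ht hF (α g)).const_mul (ν.coeff g)
  refine this.congr (Filter.Eventually.of_forall fun x => ?_)
  simp only
  ring

theorem EX_ratio {P : ℝ → ℝ} (hP : Pol P) {ν : AddMonoidAlgebra ℝ G} (hν : IsP ν) {t : ℝ}
    (ht : 0 < t) {F : ℝ → ℝ} (hF : Pol F) :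
    EX α ν t (fun x => F x * (wd α P ν t x / dens α ν t x)) =
      E ν fun g => ∫ u, F (α g + √t * u) * P (√t * u) ∂γ := by
  rw [EX_eq_integral α ht (hF.mul (pol_ratio α hP hν ht))]
  have h1 : ∀ x, F x * (wd α P ν t x / dens α ν t x) * dens α ν t x =
      ∑ g ∈ ν.coeff.support, ν.coeff g * (F x * P (x - α g) * gd t (x - α g)) := by
    intro x
    have := (dens_pos α hν ht x).ne'
    rw [mul_assoc, div_mul_cancel₀ _ this, wd, E_def, Finset.mul_sum]
    apply Finset.sum_congr rfl
    intro g _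
    ring
  simp only [h1]
  have hpol : ∀ g, Pol (fun x => F x * P (x - α g)) := by
    intro g
    have := hP.comp_affine (-α g) 1
    have e : (fun x => P (-α g + 1 * x)) = fun x => P (x - α g) := by
      funext x; congr 1; ring
    rw [e] at this
    exact hF.mul this
  rw [integral_finsetSum]
  · rw [E_def]
    apply Finset.sum_congr rfl
    intro g _
    rw [integral_const_mul]
    congr 1
    rw [← bridge ht (hpol g).1 (α g)]
    congr 1
    funext u
    congr 2
    ring
  · intro g _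
    exact (bridge_int ht (hpol g) (α g)).const_mul _

/-- the score function -/
noncomputable def sc (α : G →+ ℝ) (ν : AddMonoidAlgebra ℝ G) (t x : ℝ) : ℝ :=
  wd α (fun y => -(y / t)) ν t x / dens α ν t x

theorem pol_lin (t : ℝ) : Pol (fun y => -(y / t)) := by
  have := Pol.id.const_mul (-(t⁻¹))
  have e : (fun x : ℝ => -(t⁻¹) * x) = fun y => -(y / t) := by
    funext x; rw [div_eq_inv_mul]; ring
  rw [e] at this
  exact this

theorem pol_sc {ν : AddMonoidAlgebra ℝ G} (hν : IsP ν) {t : ℝ} (ht : 0 < t) :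
    Pol (sc α ν t) := pol_ratio α (pol_lin t) hν ht

theorem EX_sc {ν : AddMonoidAlgebra ℝ G} (hν : IsP ν) {t : ℝ} (ht : 0 < t) {F : ℝ → ℝ}
    (hF : Pol F) :
    EX α ν t (fun x => F x * sc α ν t x) =
      -E ν fun g => ∫ u, (u / √t) * F (α g + √t * u) ∂γ := by
  have := EX_ratio α (pol_lin t) hν ht hF
  unfold sc
  rw [this, ← E_neg_fun]
  congr 1
  funext g
  rw [← integral_neg]
  congr 1
  funext u
  have h1 : √t * u / t = u / √t := by
    have h2 : √t * √t = t := Real.mul_self_sqrt ht.le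
    have h3 : √t ≠ 0 := (Real.sqrt_pos.2 ht).ne'
    rw [div_eq_div_iff ht.ne' h3]
    calc √t * u * √t = u * (√t * √t) := by ring
      _ = u * t := by rw [h2]
  rw [h1]
  ring

/-- the log density has polynomial growth -/
theorem pol_log_dens {ν : AddMonoidAlgebra ℝ G} (hν : IsP ν) {t : ℝ} (ht : 0 < t) :
    Pol (fun x => log (dens α ν t x)) := by
  obtain ⟨g, hg⟩ := hν.exists_pos
  have hm : Measurable (fun x => log (dens α ν t x)) :=
    (continuous_dens α ν).measurable.log
  have hw1 := hν.le_one g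
  set A : ℝ := |log ((√(2 * π * t))⁻¹)| with hA
  have hA0 : 0 ≤ A := abs_nonneg _
  set B : ℝ := |log (ν.coeff g)| with hB
  have hB0 : 0 ≤ B := abs_nonneg _
  set D : ℝ := (1 + supB α ν) ^ 2 / (2 * t) with hD
  have hD0 : 0 ≤ D := by positivity
  refine ⟨hm, A + B + D, by positivity, 2, fun x => ?_⟩
  have hpos := dens_pos α hν ht x
  have h1 : 1 ≤ (1 + |x|) ^ 2 := one_le_pow₀ (one_le_one_add_abs x)
  have hup : log (dens α ν t x) ≤ A := by
    refine (Real.log_le_log hpos (dens_le α hν ht x)).trans (le_abs_self _)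
  have hlow : -(A + B + D * (1 + |x|) ^ 2) ≤ log (dens α ν t x) := by
    have h2 : ν.coeff g * gd t (x - α g) ≤ dens α ν t x :=
      le_E (F := fun a => gd t (x - α a)) hν.nonneg (fun a _ => (gd_pos ht _).le) g hg
    have h3 := Real.log_le_log (mul_pos hg (gd_pos ht _)) h2
    refine le_trans ?_ h3
    rw [Real.log_mul hg.ne' (gd_pos ht _).ne']
    unfold gd
    rw [Real.log_mul (by positivity) (Real.exp_pos _).ne', Real.log_exp]
    have h4 : -B ≤ log (ν.coeff g) := neg_abs_le _
    have h5 : -A ≤ log ((√(2 * π * t))⁻¹) := neg_abs_le _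
    have h6 : -(D * (1 + |x|) ^ 2) ≤ -(x - α g) ^ 2 / (2 * t) := by
      rw [neg_div, neg_le_neg_iff, hD, div_mul_eq_mul_div]
      apply div_le_div_of_nonneg_right _ (by positivity)
      have h7 : |x - α g| ≤ (1 + supB α ν) * (1 + |x|) := by
        have := one_add_sub_le α ν g hg x
        linarith
      calc (x - α g) ^ 2 = |x - α g| ^ 2 := (sq_abs _).symm
        _ ≤ ((1 + supB α ν) * (1 + |x|)) ^ 2 := pow_le_pow_left₀ (abs_nonneg _) h7 2
        _ = _ := by ring
    linarith
  rw [abs_le]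
  constructor
  · have : A + B + D * (1 + |x|) ^ 2 ≤ (A + B + D) * (1 + |x|) ^ 2 := by nlinarith
    linarith
  · have : A ≤ (A + B + D) * (1 + |x|) ^ 2 := by nlinarith
    linarith

/-- differential entropy of `α S + √t Z` -/
noncomputable def hh (α : G →+ ℝ) (ν : AddMonoidAlgebra ℝ G) (t : ℝ) : ℝ :=
  -EX α ν t fun x => log (dens α ν t x)

/-- Fisher information -/
noncomputable def JJ (α : G →+ ℝ) (ν : AddMonoidAlgebra ℝ G) (t : ℝ) : ℝ :=
  EX α ν t fun x => sc α ν t x ^ 2

end PartDens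

section PartBruijn

variable {G : Type*} [AddCommGroup G]

noncomputable def PT (t y : ℝ) : ℝ := y ^ 2 / (2 * t ^ 2) - 1 / (2 * t)

theorem hasDerivAt_gd {t : ℝ} (ht : 0 < t) (c u : ℝ) :
    HasDerivAt (fun τ => gd τ (c + √τ * u))
      (gd t (c + √t * u) * (PT t (c + √t * u) + (u / (2 * √t)) * (-((c + √t * u) / t)))) t := by
  have hs : 0 < √t := Real.sqrt_pos.2 ht
  have h1 : HasDerivAt (fun τ => √τ) (1 / (2 * √t)) t := Real.hasDerivAt_sqrt ht.ne'
  have hw : HasDerivAt (fun τ => c + √τ * u) (1 / (2 * √t) * u) t := (h1.mul_const u).const_add c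
  have hpt : 0 < 2 * π * t := by positivity
  have hr : 0 < √(2 * π * t) := Real.sqrt_pos.2 hpt
  have h0 : HasDerivAt (fun τ : ℝ => 2 * π * τ) (2 * π) t := by
    simpa using (hasDerivAt_id t).const_mul (2 * π)
  have h2 : HasDerivAt (fun τ => √(2 * π * τ)) (2 * π / (2 * √(2 * π * t))) t :=
    h0.sqrt hpt.ne'
  have h3 := h2.inv hr.ne'
  have h0' : HasDerivAt (fun τ : ℝ => 2 * τ) 2 t := by
    simpa using (hasDerivAt_id t).const_mul (2 : ℝ)
  have h4 := ((hw.pow 2).neg.div h0' (by positivity)).exp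
  have h6 := h3.mul h4
  have hr2 : √(2 * π * t) ^ 2 = 2 * π * t := Real.sq_sqrt hpt.le
  have hcoef : -(2 * π / (2 * √(2 * π * t))) / √(2 * π * t) ^ 2 =
      -((√(2 * π * t))⁻¹ * (1 / (2 * t))) := by
    rw [hr2]; field_simp
  refine h6.congr_deriv ?_
  rw [hcoef]
  unfold gd PT
  set r := √(2 * π * t)
  set s := √t
  set w := c + s * u
  simp only [Pi.pow_apply, Pi.neg_apply, Pi.inv_apply, Pi.div_apply]
  have e1 : (-(↑2 * w ^ (2 - 1) * (1 / (2 * s) * u)) * (2 * t) - -w ^ 2 * 2) / (2 * t) ^ 2 =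
      w ^ 2 / (2 * t ^ 2) + u / (2 * s) * (-(w / t)) := by
    norm_num
    field_simp
    ring
  push_cast at *
  rw [e1]
  ring

variable (α : G →+ ℝ)

theorem hasDerivAt_log_dens {ν : AddMonoidAlgebra ℝ G} (hν : IsP ν) {t : ℝ} (ht : 0 < t)
    (a u : ℝ) :
    HasDerivAt (fun τ => log (dens α ν τ (a + √τ * u)))
      (wd α (PT t) ν t (a + √t * u) / dens α ν t (a + √t * u) +
        (u / (2 * √t)) * sc α ν t (a + √t * u)) t := by
  have h1 : HasDerivAt (fun τ => dens α ν τ (a + √τ * u))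
      (wd α (PT t) ν t (a + √t * u) + (u / (2 * √t)) *
        wd α (fun y => -(y / t)) ν t (a + √t * u)) t := by
    unfold dens wd
    simp only [E_def]
    rw [Finset.mul_sum, ← Finset.sum_add_distrib]
    have : ∀ g ∈ ν.coeff.support, HasDerivAt
        (fun τ => ν.coeff g * gd τ (a + √τ * u - α g))
        (ν.coeff g * (PT t (a + √t * u - α g) * gd t (a + √t * u - α g)) +
          (u / (2 * √t)) * (ν.coeff g * (-((a + √t * u - α g) / t) *
            gd t (a + √t * u - α g)))) t := by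
      intro g _
      have h := (hasDerivAt_gd ht (a - α g) u).const_mul (ν.coeff g)
      have e : ∀ τ : ℝ, a - α g + √τ * u = a + √τ * u - α g := fun τ => by ring
      simp only [e] at h
      refine h.congr_deriv ?_
      ring
    exact HasDerivAt.fun_sum this
  have h2 := h1.log (dens_pos α hν ht _).ne'
  refine h2.congr_deriv ?_
  unfold sc
  rw [add_div, mul_div_assoc]

theorem PT_bound {t τ : ℝ} (ht : 0 < t) (hτ : t / 2 < τ) (y : ℝ) :
    |PT τ y| ≤ (2 / t ^ 2 + 1 / t) * (1 + |y|) ^ 2 := by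
  have hτ0 : 0 < τ := by linarith
  have h1 : 1 / (2 * τ) ≤ 1 / t := by
    apply one_div_le_one_div_of_le ht; linarith
  have h2 : 1 / (2 * τ ^ 2) ≤ 2 / t ^ 2 := by
    rw [div_le_div_iff₀ (by positivity) (by positivity)]
    nlinarith
  have h3 : y ^ 2 ≤ (1 + |y|) ^ 2 := by
    rw [← sq_abs y]
    apply pow_le_pow_left₀ (abs_nonneg _); linarith
  have h4 : 1 ≤ (1 + |y|) ^ 2 := one_le_pow₀ (one_le_one_add_abs y)
  unfold PT
  have h5 : |y ^ 2 / (2 * τ ^ 2) - 1 / (2 * τ)| ≤ y ^ 2 / (2 * τ ^ 2) + 1 / (2 * τ) := by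
    have a1 : 0 ≤ y ^ 2 / (2 * τ ^ 2) := by positivity
    have a2 : 0 ≤ 1 / (2 * τ) := by positivity
    rw [abs_le]; constructor <;> linarith
  refine h5.trans ?_
  have h6 : y ^ 2 / (2 * τ ^ 2) ≤ (2 / t ^ 2) * (1 + |y|) ^ 2 := by
    rw [div_eq_mul_one_div, mul_comm]
    exact mul_le_mul h2 h3 (by positivity) (by positivity)
  have h7 : 1 / (2 * τ) ≤ (1 / t) * (1 + |y|) ^ 2 := by
    calc 1 / (2 * τ) ≤ 1 / t * 1 := by rw [mul_one]; exact h1
      _ ≤ _ := mul_le_mul_of_nonneg_left h4 (by positivity)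
  linarith

theorem deriv_bound {ν : AddMonoidAlgebra ℝ G} (hν : IsP ν) {t : ℝ} (ht : 0 < t) (a : ℝ) :
    ∃ K : ℝ, ∀ τ ∈ Set.Ioo (t / 2) (2 * t), ∀ u : ℝ,
      ‖wd α (PT τ) ν τ (a + √τ * u) / dens α ν τ (a + √τ * u) +
        (u / (2 * √τ)) * sc α ν τ (a + √τ * u)‖ ≤ K * (1 + |u|) ^ 2 := by
  set B := 1 + supB α ν with hB
  have hB1 : 1 ≤ B := by have := supB_nonneg α ν; linarith
  set C1 := 2 / t ^ 2 + 1 / t with hC1
  have hC1' : 0 < C1 := by positivity
  set M := (1 + |a|) * (1 + √(2 * t)) with hM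
  have hM0 : 0 < M := by positivity
  refine ⟨C1 * B ^ 2 * M ^ 2 + (1 / (2 * √(t / 2))) * ((2 / t) * B * M), ?_⟩
  intro τ hτ u
  have hτ0 : 0 < τ := by have := hτ.1; linarith
  set x := a + √τ * u with hx
  have hd := dens_pos α hν hτ0 x
  have hxM : 1 + |x| ≤ M * (1 + |u|) := by
    refine (abs_affine_le a (√τ) u).trans ?_
    rw [hM]
    have : |√τ| ≤ √(2 * t) := by
      rw [abs_of_nonneg (Real.sqrt_nonneg _)]
      exact Real.sqrt_le_sqrt hτ.2.le
    gcongr
  have h1 : |wd α (PT τ) ν τ x / dens α ν τ x| ≤ C1 * B ^ 2 * (1 + |x|) ^ 2 := by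
    rw [abs_div, abs_of_pos hd, div_le_iff₀ hd]
    exact abs_wd_le α hC1'.le (fun y => PT_bound ht hτ.1 y) hν hτ0 x
  have h2 : |sc α ν τ x| ≤ (2 / t) * B * (1 + |x|) := by
    unfold sc
    rw [abs_div, abs_of_pos hd, div_le_iff₀ hd]
    have := abs_wd_le α (P := fun y => -(y / τ)) (C := 2 / t) (k := 1) (by positivity) (by
      intro y
      rw [abs_neg, abs_div, abs_of_pos hτ0, pow_one, div_le_iff₀ hτ0]
      have e1 : 1 ≤ 2 / t * τ := by
        rw [div_mul_eq_mul_div, le_div_iff₀ ht]; have := hτ.1; linarith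
      have e2 : |y| ≤ 1 + |y| := by linarith
      have e3 : 0 ≤ 1 + |y| := by positivity
      calc |y| ≤ 1 * (1 + |y|) := by linarith
        _ ≤ (2 / t * τ) * (1 + |y|) := mul_le_mul_of_nonneg_right e1 e3
        _ = _ := by ring) hν hτ0 x
    simpa using this
  have h3 : |u / (2 * √τ)| ≤ (1 / (2 * √(t / 2))) * (1 + |u|) := by
    have hs : 0 < √(t / 2) := Real.sqrt_pos.2 (by linarith)
    have hs2 : √(t / 2) ≤ √τ := Real.sqrt_le_sqrt hτ.1.le
    rw [abs_div, abs_of_pos (by have := lt_of_lt_of_le hs hs2; positivity : 0 < 2 * √τ),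
      div_eq_mul_one_div, mul_comm]
    apply mul_le_mul
    · apply one_div_le_one_div_of_le (by positivity); linarith
    · linarith
    · exact abs_nonneg _
    · positivity
  rw [Real.norm_eq_abs]
  have hu1 : 0 ≤ 1 + |u| := by positivity
  have hx1 : 0 ≤ 1 + |x| := by positivity
  calc |wd α (PT τ) ν τ x / dens α ν τ x + (u / (2 * √τ)) * sc α ν τ x| ≤
      |wd α (PT τ) ν τ x / dens α ν τ x| + |u / (2 * √τ)| * |sc α ν τ x| := by
        rw [← abs_mul]; exact abs_add_le _ _
    _ ≤ C1 * B ^ 2 * (1 + |x|) ^ 2 +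
        ((1 / (2 * √(t / 2))) * (1 + |u|)) * ((2 / t) * B * (1 + |x|)) := by
        apply add_le_add h1
        exact mul_le_mul h3 h2 (abs_nonneg _) (by positivity)
    _ ≤ C1 * B ^ 2 * (M * (1 + |u|)) ^ 2 +
        ((1 / (2 * √(t / 2))) * (1 + |u|)) * ((2 / t) * B * (M * (1 + |u|))) := by
        have hB0 : 0 < B := by linarith
        apply add_le_add
        · apply mul_le_mul_of_nonneg_left _ (by positivity)
          exact pow_le_pow_left₀ hx1 hxM 2
        · apply mul_le_mul_of_nonneg_left _ (by positivity)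
          exact mul_le_mul_of_nonneg_left hxM (by positivity)
    _ = _ := by ring

theorem pol_PT (t : ℝ) : Pol (PT t) := by
  have h1 := (Pol.id.sq.const_mul (1 / (2 * t ^ 2))).sub (Pol.const (1 / (2 * t)))
  have e : (fun x : ℝ => 1 / (2 * t ^ 2) * x ^ 2 - 1 / (2 * t)) = PT t := by
    funext x; unfold PT; ring
  rw [e] at h1
  exact h1

theorem integral_sq_one : ∫ u, u ^ 2 ∂γ = 1 := by
  have h := variance_id_gaussianReal (μ := 0) (v := 1)
  rw [variance_of_integral_eq_zero (by fun_prop) (by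
    simp only [id]; exact integral_id_zero)] at h
  simpa using h

theorem integral_PT {t : ℝ} (ht : 0 < t) : ∫ u, PT t (√t * u) ∂γ = 0 := by
  have e : ∀ u : ℝ, PT t (√t * u) = (1 / (2 * t)) * u ^ 2 - 1 / (2 * t) := by
    intro u
    unfold PT
    rw [mul_pow, Real.sq_sqrt ht.le]
    field_simp
  simp only [e]
  rw [integral_sub, integral_const_mul, integral_sq_one]
  · simp
  · exact (Pol.id.sq.const_mul _).integrable
  · exact integrable_const _

/-- de Bruijn's identity for finite Gaussian mixtures -/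
theorem deBruijn {ν : AddMonoidAlgebra ℝ G} (hν : IsP ν) {t : ℝ} (ht : 0 < t) :
    HasDerivAt (fun τ => hh α ν τ) ((1 / 2) * JJ α ν t) t := by
  -- derivative of each integral
  have hg : ∀ g : G, HasDerivAt (fun τ => ∫ u, log (dens α ν τ (α g + √τ * u)) ∂γ)
      (∫ u, (wd α (PT t) ν t (α g + √t * u) / dens α ν t (α g + √t * u) +
        (u / (2 * √t)) * sc α ν t (α g + √t * u)) ∂γ) t := by
    intro g
    obtain ⟨K, hK⟩ := deriv_bound α hν ht (α g)
    refine (hasDerivAt_integral_of_dominated_loc_of_deriv_le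
      (F := fun τ u => log (dens α ν τ (α g + √τ * u)))
      (F' := fun τ u => wd α (PT τ) ν τ (α g + √τ * u) / dens α ν τ (α g + √τ * u) +
        (u / (2 * √τ)) * sc α ν τ (α g + √τ * u))
      (s := Set.Ioo (t / 2) (2 * t)) (bound := fun u => K * (1 + |u|) ^ 2)
      (Ioo_mem_nhds (by linarith) (by linarith)) ?_ ?_ ?_ ?_ ?_ ?_).2
    · refine Filter.Eventually.of_forall fun τ => ?_
      exact ((continuous_dens α ν).measurable.log.comp (by fun_prop)).aestronglyMeasurable
    · exact (pol_log_dens α hν ht).integrable' _ _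
    · apply Measurable.aestronglyMeasurable
      apply Measurable.add
      · exact ((pol_ratio α (pol_PT t) hν ht).comp_affine (α g) (√t)).1
      · exact (by fun_prop : Measurable fun u : ℝ => u / (2 * √t)).mul
          ((pol_sc α hν ht).comp_affine (α g) (√t)).1
    · exact Filter.Eventually.of_forall fun u τ hτ => hK τ hτ u
    · exact (integrable_pow_abs 2).const_mul K
    · refine Filter.Eventually.of_forall fun u τ hτ => ?_
      exact hasDerivAt_log_dens α hν (by have := hτ.1; linarith) (α g) u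
  have hsum : HasDerivAt (fun τ => hh α ν τ)
      (-E ν fun g => ∫ u, (wd α (PT t) ν t (α g + √t * u) / dens α ν t (α g + √t * u) +
        (u / (2 * √t)) * sc α ν t (α g + √t * u)) ∂γ) t := by
    unfold hh EX
    simp only [E_def]
    exact (HasDerivAt.fun_sum fun g _ => (hg g).const_mul (ν.coeff g)).neg
  refine hsum.congr_deriv ?_
  have hst : 0 < √t := Real.sqrt_pos.2 ht
  have hlin : Pol (fun u : ℝ => u / (2 * √t)) := by
    have := Pol.id.const_mul (1 / (2 * √t))
    have e : (fun x : ℝ => 1 / (2 * √t) * x) = fun u => u / (2 * √t) := by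
      funext x; ring
    rw [e] at this
    exact this
  have h1 : (E ν fun g => ∫ u, (wd α (PT t) ν t (α g + √t * u) / dens α ν t (α g + √t * u) +
        (u / (2 * √t)) * sc α ν t (α g + √t * u)) ∂γ) =
      (E ν fun g => ∫ u, wd α (PT t) ν t (α g + √t * u) / dens α ν t (α g + √t * u) ∂γ) +
      E ν fun g => ∫ u, (u / (2 * √t)) * sc α ν t (α g + √t * u) ∂γ := by
    rw [← E_add_fun]
    congr 1
    funext g
    apply integral_add
    · exact (pol_ratio α (pol_PT t) hν ht).integrable' _ _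
    · exact (hlin.mul ((pol_sc α hν ht).comp_affine (α g) (√t))).integrable
  have h2 : (E ν fun g => ∫ u, wd α (PT t) ν t (α g + √t * u) /
      dens α ν t (α g + √t * u) ∂γ) = 0 := by
    have := EX_ratio α (pol_PT t) hν ht (Pol.const 1)
    unfold EX at this
    simp only [one_mul] at this
    rw [this, integral_PT ht]
    have := E_const_mul ν 0 (fun _ => (1 : ℝ))
    simpa using this
  have h3 : JJ α ν t = -E ν fun g => ∫ u, (u / √t) * sc α ν t (α g + √t * u) ∂γ := by
    have := EX_sc α hν ht (pol_sc α hν ht)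
    unfold JJ
    rw [← this]
    congr 1
    funext x
    ring
  rw [h1, h2, h3, zero_add]
  rw [mul_neg, ← E_const_mul]
  congr 1
  congr 1
  funext g
  rw [← integral_const_mul]
  congr 1
  funext u
  field_simp

end PartBruijn

section PartFisher

variable {G : Type*} [AddCommGroup G] (α : G →+ ℝ)

theorem EX_sc_conv {μ ν : AddMonoidAlgebra ℝ G} (hμ : IsP μ) (hν : IsP ν) {s t : ℝ}
    (hs : 0 ≤ s) (ht : 0 < t) {F : ℝ → ℝ} (hF : Pol F) :
    EX α (μ * ν) (s + t) (fun x => F x * sc α (μ * ν) (s + t) x) =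
      EX α ν t (fun x => (EX α μ s (fun y => F (x + y))) * sc α ν t x) := by
  rw [EX_sc α (hμ.mul hν) (by linarith) hF, EX_sc α hν ht (hF.EX α)]
  congr 1
  rw [E_mul, E_comm]
  congr 1
  funext b
  have h1 : ∀ v : ℝ, (v / √t) * EX α μ s (fun y => F (α b + √t * v + y)) =
      E μ fun a => (v / √t) * ∫ u, F ((α a + α b) + √t * v + √s * u) ∂γ := by
    intro v
    rw [E_const_mul]
    congr 1
    unfold EX
    congr 1
    funext a
    congr 1
    funext u
    show F (α b + √t * v + (α a + √s * u)) = F (α a + α b + √t * v + √s * u)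
    rw [show α b + √t * v + (α a + √s * u) = α a + α b + √t * v + √s * u by ring]
  simp only [h1]
  have h2 : ∀ a : G, Pol (fun v : ℝ => (v / √t) * ∫ u, F ((α a + α b) + √t * v + √s * u) ∂γ) := by
    intro a
    have e1 : Pol (fun v : ℝ => v / √t) := by
      have := Pol.id.const_mul (1 / √t)
      have e : (fun x : ℝ => 1 / √t * x) = fun u => u / √t := by funext x; ring
      rw [e] at this
      exact this
    exact e1.mul (hF.comp2 (α a + α b) (√t) (√s)).integral
  rw [integral_E μ (F := fun a v => (v / √t) * ∫ u, F ((α a + α b) + √t * v + √s * u) ∂γ)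
    (fun a => (h2 a).integrable)]
  congr 1
  funext a
  rw [gauss_conv' hF (α a + α b) s t hs ht, map_add]

theorem sq_EX_le {μ : AddMonoidAlgebra ℝ G} (hμ : IsP μ) (s : ℝ) {F : ℝ → ℝ} (hF : Pol F) :
    (EX α μ s F) ^ 2 ≤ EX α μ s (fun x => F x ^ 2) := by
  set c := EX α μ s F with hc
  have h1 : 0 ≤ EX α μ s (fun x => (F x - c) ^ 2) :=
    EX_nonneg α hμ.nonneg s fun x => sq_nonneg _
  have h2 : EX α μ s (fun x => (F x - c) ^ 2) = EX α μ s (fun x => F x ^ 2) - c ^ 2 := by
    have e : (fun x => (F x - c) ^ 2) = fun x => (F x ^ 2 - (2 * c) * F x) + c ^ 2 := by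
      funext x; ring
    rw [e, EX_add α μ s (hF.sq.sub (hF.const_mul _)) (Pol.const _),
      EX_sub α μ s hF.sq (hF.const_mul _), EX_const_mul, EX_const α hμ, ← hc]
    ring
  linarith

/-- adding an independent summand does not increase Fisher information -/
theorem JJ_mul_le {μ ν : AddMonoidAlgebra ℝ G} (hμ : IsP μ) (hν : IsP ν) {t : ℝ} (ht : 0 < t) :
    JJ α (μ * ν) t ≤ JJ α ν t := by
  have hP := pol_sc α (hμ.mul hν) ht
  have h1 := EX_sc_conv α hμ hν le_rfl ht (s := 0) (F := sc α (μ * ν) t) hP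
  rw [zero_add] at h1
  have h2 : JJ α (μ * ν) t = EX α (μ * ν) t (fun x => sc α (μ * ν) t x * sc α (μ * ν) t x) := by
    unfold JJ; congr 1; funext x; ring
  have h3 : EX α ν t (fun x => (EX α μ 0 (fun y => sc α (μ * ν) t (x + y))) * sc α ν t x) ≤
      EX α ν t (fun x => (1 / 2) * EX α μ 0 (fun y => sc α (μ * ν) t (x + y) ^ 2) +
        (1 / 2) * sc α ν t x ^ 2) := by
    apply EX_mono α hν.nonneg
    · exact (hP.EX α).mul (pol_sc α hν ht)
    · exact ((hP.sq.EX α).const_mul _).add ((pol_sc α hν ht).sq.const_mul _)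
    · intro x
      have h4 := sq_EX_le α hμ 0 (hP.comp_add x)
      have h5 := sq_nonneg (EX α μ 0 (fun y => sc α (μ * ν) t (x + y)) - sc α ν t x)
      nlinarith
  rw [EX_add α ν t ((hP.sq.EX α).const_mul _) ((pol_sc α hν ht).sq.const_mul _), EX_const_mul,
    EX_const_mul] at h3
  have h6 := EX_conv α ν μ t 0 ht.le le_rfl hP.sq
  rw [add_zero] at h6
  have h7 : EX α ν t (fun x => EX α μ 0 (fun y => sc α (μ * ν) t (x + y) ^ 2)) =
      JJ α (μ * ν) t := by
    rw [← h6, mul_comm ν μ]; rfl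
  rw [← h1, ← h2, h7] at h3
  have h8 : JJ α ν t = EX α ν t (fun x => sc α ν t x ^ 2) := rfl
  rw [← h8] at h3
  linarith

/-- two-variable variance decomposition -/
theorem two_var {μ : AddMonoidAlgebra ℝ G} (hμ : IsP μ) (s : ℝ) {κ : ℝ → ℝ} (hκ : Pol κ) (x : ℝ) :
    0 ≤ EX α μ s (fun y => EX α μ s (fun z => κ (x + (y + z)) ^ 2)) -
      2 * EX α μ s (fun y => (EX α μ s (fun z => κ (x + y + z))) ^ 2) +
      (EX α μ s (fun y => EX α μ s (fun z => κ (x + y + z)))) ^ 2 := by
  set T : (ℝ → ℝ) → ℝ := EX α μ s with hT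
  set a : ℝ → ℝ := fun y => T (fun z => κ (x + y + z)) with ha
  have haP : Pol a := by
    have h1 : Pol2 (fun p => κ (x + p.1 + p.2)) := by simpa using hκ.comp2 x 1 1
    exact h1.EX α
  set c := T a with hc
  have hKP : ∀ y, Pol (fun z => κ (x + y + z)) := fun y => hκ.comp_add (x + y)
  have hK2 : Pol2 (fun p : ℝ × ℝ => κ (x + p.1 + p.2)) := by simpa using hκ.comp2 x 1 1
  set A2 := T (fun y => a y ^ 2) with hA2
  set q : ℝ → ℝ := fun y => T (fun z => κ (x + y + z) * a z) with hq
  have hqK : Pol2 (fun p : ℝ × ℝ => κ (x + p.1 + p.2) * a p.2) := hK2.mul haP.comp_snd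
  have hqP : Pol q := hqK.EX α
  have hTq : T q = A2 := by
    have h1 := EX_swap α μ μ s s hqK
    have h2 : T q = T (fun z => T (fun y => κ (x + y + z) * a z)) := h1
    rw [h2, hA2]
    congr 1
    funext z
    have e : (fun y => κ (x + y + z) * a z) = fun y => a z * κ (x + z + y) := by
      funext y
      rw [mul_comm]
      congr 2
      ring
    rw [e]
    have : T (fun y => a z * κ (x + z + y)) = a z * T (fun y => κ (x + z + y)) :=
      EX_const_mul α μ s _ _
    rw [this, sq]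
  have hin : ∀ y, T (fun z => (κ (x + y + z) - a y - a z + c) ^ 2) =
      T (fun z => κ (x + y + z) ^ 2) + A2 - 2 * q y - (c - a y) ^ 2 := by
    intro y
    have e : (fun z => (κ (x + y + z) - a y - a z + c) ^ 2) =
        fun z => (κ (x + y + z) ^ 2 + (a z ^ 2 + ((-2) * (κ (x + y + z) * a z) +
          ((2 * (c - a y)) * κ (x + y + z) + ((-(2 * (c - a y))) * a z + (c - a y) ^ 2))))) := by
      funext z; ring
    rw [e]
    have p1 : Pol (fun z => (-(2 * (c - a y))) * a z + (c - a y) ^ 2) :=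
      (haP.const_mul _).add (Pol.const _)
    have p2 : Pol (fun z => (2 * (c - a y)) * κ (x + y + z) +
        ((-(2 * (c - a y))) * a z + (c - a y) ^ 2)) := ((hKP y).const_mul _).add p1
    have p3 : Pol (fun z => (-2) * (κ (x + y + z) * a z) + ((2 * (c - a y)) * κ (x + y + z) +
        ((-(2 * (c - a y))) * a z + (c - a y) ^ 2))) := (((hKP y).mul haP).const_mul _).add p2
    have p4 : Pol (fun z => a z ^ 2 + ((-2) * (κ (x + y + z) * a z) +
        ((2 * (c - a y)) * κ (x + y + z) + ((-(2 * (c - a y))) * a z + (c - a y) ^ 2)))) :=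
      haP.sq.add p3
    rw [hT, EX_add α μ s (hKP y).sq p4, EX_add α μ s haP.sq p3,
      EX_add α μ s (((hKP y).mul haP).const_mul _) p2, EX_const_mul,
      EX_add α μ s ((hKP y).const_mul _) p1, EX_const_mul,
      EX_add α μ s (haP.const_mul _) (Pol.const _), EX_const_mul, EX_const α hμ]
    have e1 : EX α μ s (fun z => κ (x + y + z)) = a y := rfl
    have e2 : EX α μ s a = c := rfl
    have e3 : EX α μ s (fun z => κ (x + y + z) * a z) = q y := rfl
    have e4 : EX α μ s (fun z => a z ^ 2) = A2 := rfl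
    rw [e1, e3, e4]
    have e5 : EX α μ s (fun z => a z) = c := rfl
    rw [e5]
    ring
  have hpos : 0 ≤ T (fun y => T (fun z => (κ (x + y + z) - a y - a z + c) ^ 2)) :=
    EX_nonneg α hμ.nonneg s fun y => EX_nonneg α hμ.nonneg s fun z => sq_nonneg _
  simp only [hin] at hpos
  have hKK : Pol (fun y => T (fun z => κ (x + y + z) ^ 2)) := by
    have h1 : Pol2 (fun p : ℝ × ℝ => κ (x + p.1 + p.2) ^ 2) := by simpa using hκ.sq.comp2 x 1 1
    exact h1.EX α
  have hout : T (fun y => T (fun z => κ (x + y + z) ^ 2) + A2 - 2 * q y - (c - a y) ^ 2) =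
      T (fun y => T (fun z => κ (x + y + z) ^ 2)) - 2 * A2 + c ^ 2 := by
    have e : (fun y => T (fun z => κ (x + y + z) ^ 2) + A2 - 2 * q y - (c - a y) ^ 2) =
        fun y => T (fun z => κ (x + y + z) ^ 2) + ((-2) * q y + ((-1) * a y ^ 2 +
          ((2 * c) * a y + (A2 - c ^ 2)))) := by
      funext y; ring
    have p1 : Pol (fun y => (2 * c) * a y + (A2 - c ^ 2)) := (haP.const_mul _).add (Pol.const _)
    have p2 : Pol (fun y => (-1) * a y ^ 2 + ((2 * c) * a y + (A2 - c ^ 2))) :=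
      (haP.sq.const_mul _).add p1
    have p3 : Pol (fun y => (-2) * q y + ((-1) * a y ^ 2 + ((2 * c) * a y + (A2 - c ^ 2)))) :=
      (hqP.const_mul _).add p2
    rw [e, hT, EX_add α μ s hKK p3, EX_add α μ s (hqP.const_mul _) p2, EX_const_mul,
      EX_add α μ s (haP.sq.const_mul _) p1, EX_const_mul,
      EX_add α μ s (haP.const_mul _) (Pol.const _), EX_const_mul, EX_const α hμ]
    have e1 : EX α μ s (fun x => q x) = A2 := hTq
    have e2 : EX α μ s (fun y => a y) = c := rfl
    have e4 : EX α μ s (fun z => a z ^ 2) = A2 := rfl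
    rw [e1, e2, e4]
    ring
  rw [hout] at hpos
  have e6 : T (fun y => T (fun z => κ (x + (y + z)) ^ 2)) =
      T (fun y => T (fun z => κ (x + y + z) ^ 2)) := by
    congr 1
    funext y
    congr 1
    funext z
    rw [add_assoc]
  rw [e6]
  exact hpos

/-- averaging operator -/
noncomputable def av (α : G →+ ℝ) (μ : AddMonoidAlgebra ℝ G) (s : ℝ) (κ : ℝ → ℝ) : ℝ → ℝ :=
  fun x => EX α μ s (fun y => κ (x + y))

theorem Pol.av {μ : AddMonoidAlgebra ℝ G} {s : ℝ} {κ : ℝ → ℝ} (h : Pol κ) :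
    Pol (av α μ s κ) := h.EX α

theorem av_mean {μ : AddMonoidAlgebra ℝ G} {s : ℝ} (hs : 0 ≤ s) (m : ℕ) {κ : ℝ → ℝ}
    (hκ : Pol κ) :
    EX α (μ ^ (m + 1)) ((m + 1 : ℕ) * s) κ = EX α (μ ^ m) (m * s) (av α μ s κ) := by
  have h := EX_conv α (μ ^ m) μ (m * s) s (by positivity) hs hκ
  rw [← pow_succ] at h
  have e : ((m + 1 : ℕ) : ℝ) * s = m * s + s := by push_cast; ring
  rw [e, h]
  rfl

theorem av_convex {μ : AddMonoidAlgebra ℝ G} (hμ : IsP μ) {s : ℝ} (hs : 0 ≤ s) (m : ℕ)
    {κ : ℝ → ℝ} (hκ : Pol κ) :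
    0 ≤ EX α (μ ^ (m + 2)) ((m + 2 : ℕ) * s) (fun x => κ x ^ 2) -
      2 * EX α (μ ^ (m + 1)) ((m + 1 : ℕ) * s) (fun x => av α μ s κ x ^ 2) +
      EX α (μ ^ m) (m * s) (fun x => av α μ s (av α μ s κ) x ^ 2) := by
  have h1 : EX α (μ ^ (m + 2)) ((m + 2 : ℕ) * s) (fun x => κ x ^ 2) =
      EX α (μ ^ m) (m * s) (fun x => EX α μ s (fun y => EX α μ s (fun z => κ (x + (y + z)) ^ 2))) := by
    have e1 := av_mean α hs (m + 1) (μ := μ) hκ.sq
    have e2 := av_mean α hs m (μ := μ) (hκ.sq.av α (μ := μ) (s := s))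
    rw [show m + 2 = m + 1 + 1 from rfl, e1, e2]
    congr 1
    funext x
    unfold av
    congr 1
    funext y
    congr 1
    funext z
    rw [add_assoc]
  have h2 : EX α (μ ^ (m + 1)) ((m + 1 : ℕ) * s) (fun x => av α μ s κ x ^ 2) =
      EX α (μ ^ m) (m * s) (fun x => EX α μ s (fun y => (EX α μ s (fun z => κ (x + y + z))) ^ 2)) := by
    rw [av_mean α hs m (hκ.av α).sq]
    rfl
  have h3 : (fun x => av α μ s (av α μ s κ) x ^ 2) =
      fun x => (EX α μ s (fun y => EX α μ s (fun z => κ (x + y + z)))) ^ 2 := rfl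
  rw [h1, h2, h3, ← EX_const_mul]
  have P1 : Pol (fun x => EX α μ s (fun y => EX α μ s (fun z => κ (x + (y + z)) ^ 2))) := by
    have := (hκ.sq.av α (μ := μ) (s := s)).av α (μ := μ) (s := s)
    refine (congrArg Pol ?_).mp this
    funext x
    unfold av
    congr 1
    funext y
    congr 1
    funext z
    rw [add_assoc]
  have P2 : Pol (fun x => EX α μ s (fun y => (EX α μ s (fun z => κ (x + y + z))) ^ 2)) :=
    ((hκ.av α (μ := μ) (s := s)).sq).av α (μ := μ) (s := s)
  have P3 : Pol (fun x => (EX α μ s (fun y => EX α μ s (fun z => κ (x + y + z)))) ^ 2) :=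
    ((hκ.av α (μ := μ) (s := s)).av α (μ := μ) (s := s)).sq
  rw [← EX_sub α _ _ P1 (P2.const_mul 2), ← EX_add α _ _ (P1.sub (P2.const_mul 2)) P3]
  exact EX_nonneg α (hμ.pow m).nonneg _ fun x => two_var α hμ s hκ x

/-- maximal correlation of sums (Dembo, Kagan, Shepp) -/
theorem max_corr {μ : AddMonoidAlgebra ℝ G} (hμ : IsP μ) {s : ℝ} (hs : 0 ≤ s) (m : ℕ) :
    ∀ {κ : ℝ → ℝ}, Pol κ → EX α (μ ^ (m + 1)) ((m + 1 : ℕ) * s) κ = 0 →
    ((m + 1 : ℕ) : ℝ) * EX α (μ ^ m) (m * s) (fun x => av α μ s κ x ^ 2) ≤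
      m * EX α (μ ^ (m + 1)) ((m + 1 : ℕ) * s) (fun x => κ x ^ 2) := by
  induction m with
  | zero =>
    intro κ hκ h0
    rw [av_mean α hs 0 hκ] at h0
    simp only [pow_zero, Nat.cast_zero, zero_mul, zero_add, Nat.cast_one, one_mul] at h0 ⊢
    rw [EX_one_zero] at h0 ⊢
    rw [h0]
    norm_num
  | succ m ih =>
    intro κ hκ h0
    have h1 : EX α (μ ^ (m + 1)) ((m + 1 : ℕ) * s) (av α μ s κ) = 0 := by
      rw [← av_mean α hs (m + 1) hκ]; exact h0
    have h2 := ih (hκ.av α) h1
    have h3 := av_convex α hμ hs m hκ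
    have e : m + 2 = m + 1 + 1 := rfl
    rw [e] at h3
    set A0 := EX α (μ ^ (m + 1 + 1)) ((m + 1 + 1 : ℕ) * s) (fun x => κ x ^ 2)
    set A1 := EX α (μ ^ (m + 1)) ((m + 1 : ℕ) * s) (fun x => av α μ s κ x ^ 2)
    set A2 := EX α (μ ^ m) (m * s) (fun x => av α μ s (av α μ s κ) x ^ 2)
    push_cast at h2 ⊢
    have hm : (0 : ℝ) ≤ m := Nat.cast_nonneg m
    nlinarith

/-- monotonicity of Fisher information along sums -/
theorem JJ_mono {μ : AddMonoidAlgebra ℝ G} (hμ : IsP μ) {s : ℝ} (hs : 0 < s) (n : ℕ)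
    (hn : 0 < n) :
    ((n + 1 : ℕ) : ℝ) * JJ α (μ ^ (n + 1)) ((n + 1 : ℕ) * s) ≤ n * JJ α (μ ^ n) (n * s) := by
  have hn' : (0 : ℝ) < n := by exact_mod_cast hn
  have hT : 0 < ((n + 1 : ℕ) : ℝ) * s := by positivity
  have ht : 0 < (n : ℝ) * s := by positivity
  set κ := sc α (μ ^ (n + 1)) ((n + 1 : ℕ) * s) with hκ
  have hP : Pol κ := pol_sc α (hμ.pow _) hT
  have hmean : EX α (μ ^ (n + 1)) ((n + 1 : ℕ) * s) κ = 0 := by
    have := EX_sc α (hμ.pow (n + 1)) hT (Pol.const 1)
    simp only [one_mul, mul_one] at this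
    rw [hκ, this]
    have h0 : ∫ u, u / √((n + 1 : ℕ) * s) ∂γ = 0 := by
      rw [integral_div, integral_id_zero, zero_div]
    simp only [h0]
    have := E_const_mul (μ ^ (n + 1)) 0 (fun _ => (1 : ℝ))
    simpa using this
  have hcorr := max_corr α hμ hs.le n hP hmean
  have hJ : JJ α (μ ^ (n + 1)) ((n + 1 : ℕ) * s) =
      EX α (μ ^ n) (n * s) (fun x => av α μ s κ x * sc α (μ ^ n) (n * s) x) := by
    have h1 := EX_sc_conv α hμ (hμ.pow n) hs.le ht hP
    have e1 : μ * μ ^ n = μ ^ (n + 1) := (pow_succ' μ n).symm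
    have e2 : s + n * s = (n + 1 : ℕ) * s := by push_cast; ring
    rw [e1, e2] at h1
    have h2 : JJ α (μ ^ (n + 1)) ((n + 1 : ℕ) * s) = EX α (μ ^ (n + 1)) ((n + 1 : ℕ) * s)
        (fun x => κ x * sc α (μ ^ (n + 1)) ((n + 1 : ℕ) * s) x) := by
      unfold JJ; congr 1; funext x; rw [hκ]; ring
    rw [h2, h1]
    rfl
  set J1 := JJ α (μ ^ (n + 1)) ((n + 1 : ℕ) * s) with hJ1
  set J0 := JJ α (μ ^ n) (n * s) with hJ0
  have hA : EX α (μ ^ (n + 1)) ((n + 1 : ℕ) * s) (fun x => κ x ^ 2) = J1 := rfl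
  rw [hA] at hcorr
  have hsn := pol_sc α (hμ.pow n) ht
  have hle : J1 ≤ EX α (μ ^ n) (n * s) (fun x => ((n + 1 : ℝ) / (2 * n)) * av α μ s κ x ^ 2 +
      (n / (2 * (n + 1 : ℝ))) * sc α (μ ^ n) (n * s) x ^ 2) := by
    rw [hJ]
    apply EX_mono α (hμ.pow n).nonneg
    · exact (hP.av α).mul hsn
    · exact ((hP.av α).sq.const_mul _).add (hsn.sq.const_mul _)
    · intro x
      set a := av α μ s κ x
      set b := sc α (μ ^ n) (n * s) x
      have h5 : 0 ≤ ((n + 1 : ℝ) * a - n * b) ^ 2 := sq_nonneg _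
      have h6 : ((n + 1 : ℝ) / (2 * n)) * a ^ 2 + (n / (2 * (n + 1 : ℝ))) * b ^ 2 - a * b =
          ((n + 1 : ℝ) * a - n * b) ^ 2 / (2 * n * (n + 1 : ℝ)) := by
        field_simp
        ring
      have h7 : 0 ≤ ((n + 1 : ℝ) * a - n * b) ^ 2 / (2 * n * (n + 1 : ℝ)) := by positivity
      linarith
  rw [EX_add α _ _ ((hP.av α).sq.const_mul _) (hsn.sq.const_mul _), EX_const_mul,
    EX_const_mul] at hle
  have hB : EX α (μ ^ n) (n * s) (fun x => sc α (μ ^ n) (n * s) x ^ 2) = J0 := rfl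
  rw [hB] at hle
  set A1 := EX α (μ ^ n) (n * s) (fun x => av α μ s κ x ^ 2) with hA1
  push_cast at hcorr ⊢
  have h8 : ((n + 1 : ℝ) / (2 * n)) * A1 ≤ (1 / 2) * J1 := by
    have : A1 ≤ n * J1 / (n + 1) := by
      rw [le_div_iff₀ (by positivity)]; linarith
    calc ((n + 1 : ℝ) / (2 * n)) * A1 ≤ ((n + 1 : ℝ) / (2 * n)) * (n * J1 / (n + 1)) :=
          mul_le_mul_of_nonneg_left this (by positivity)
      _ = (1 / 2) * J1 := by field_simp
  have h9 : J1 ≤ (n / (n + 1 : ℝ)) * J0 := by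
    have e : (n / (2 * (n + 1 : ℝ))) * J0 = (1 / 2) * ((n / (n + 1 : ℝ)) * J0) := by
      field_simp
    rw [e] at hle
    linarith
  calc ((n : ℝ) + 1) * J1 ≤ (n + 1) * ((n / (n + 1 : ℝ)) * J0) :=
        mul_le_mul_of_nonneg_left h9 (by positivity)
    _ = n * J0 := by field_simp

end PartFisher

section PartMono

variable {G : Type*} [AddCommGroup G] (α : G →+ ℝ)

theorem integrable_gd {t : ℝ} (ht : 0 < t) (c : ℝ) : Integrable (fun x => gd t (x - c)) := by
  simpa using bridge_int ht (Pol.const 1) c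

theorem integral_gd {t : ℝ} (ht : 0 < t) (c : ℝ) : ∫ x, gd t (x - c) = 1 := by
  have := bridge ht (measurable_const (a := (1 : ℝ))) c
  simpa using this.symm

theorem integrable_dens (ν : AddMonoidAlgebra ℝ G) {t : ℝ} (ht : 0 < t) :
    Integrable (dens α ν t) := by
  have := integrable_mul_dens α (ν := ν) ht (Pol.const 1)
  simpa using this

theorem integral_dens {ν : AddMonoidAlgebra ℝ G} (hν : IsP ν) {t : ℝ} (ht : 0 < t) :
    ∫ x, dens α ν t x = 1 := by
  have h1 := EX_eq_integral α (ν := ν) ht (Pol.const 1)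
  rw [EX_const α hν] at h1
  simpa using h1.symm

/-- Gibbs' inequality -/
theorem gibbs {ν ρ : AddMonoidAlgebra ℝ G} (hν : IsP ν) (hρ : IsP ρ) {t t' : ℝ} (ht : 0 < t)
    (ht' : 0 < t') (c : ℝ) :
    hh α ν t ≤ -EX α ν t (fun x => log (dens α ρ t' (c + x))) := by
  have hP1 := pol_log_dens α hν ht
  have hP2 : Pol (fun x => log (dens α ρ t' (c + x))) := (pol_log_dens α hρ ht').comp_add c
  unfold hh
  rw [neg_le_neg_iff, EX_eq_integral α ht hP1, EX_eq_integral α ht hP2]
  have hi1 := integrable_mul_dens α (ν := ν) ht hP1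
  have hi2 := integrable_mul_dens α (ν := ν) ht hP2
  have hi3 := integrable_dens α ν ht
  have hi4 : Integrable (fun x => dens α ρ t' (c + x)) := (integrable_dens α ρ ht').comp_add_left c
  have h1 : ∫ x, (log (dens α ρ t' (c + x)) * dens α ν t x -
      log (dens α ν t x) * dens α ν t x) ≤ ∫ x, (dens α ρ t' (c + x) - dens α ν t x) := by
    apply integral_mono (hi2.sub hi1) (hi4.sub hi3)
    intro x
    have ha := dens_pos α hν ht x
    have hb := dens_pos α hρ ht' (c + x)
    have h2 := Real.log_le_sub_one_of_pos (div_pos hb ha)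
    rw [Real.log_div hb.ne' ha.ne'] at h2
    have h3 := mul_le_mul_of_nonneg_right h2 ha.le
    have h4 : (dens α ρ t' (c + x) / dens α ν t x - 1) * dens α ν t x =
        dens α ρ t' (c + x) - dens α ν t x := by field_simp
    simp only [Pi.sub_apply]
    linarith
  rw [integral_sub hi2 hi1, integral_sub hi4 hi3, integral_dens α hν ht] at h1
  have h5 : ∫ x, dens α ρ t' (c + x) = 1 := by
    rw [integral_add_left_eq_self (fun x => dens α ρ t' x) c, integral_dens α hρ ht']
  rw [h5] at h1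
  linarith

theorem hh_mul {μ ν : AddMonoidAlgebra ℝ G} (t : ℝ) :
    hh α (μ * ν) t = E μ fun a => -EX α ν t (fun x => log (dens α (μ * ν) t (α a + x))) := by
  unfold hh EX
  rw [E_mul, ← E_neg_fun]
  congr 1
  funext a
  congr 1
  congr 1
  funext b
  congr 1
  funext u
  rw [map_add, add_assoc]

theorem hh_le_mul {μ ν : AddMonoidAlgebra ℝ G} (hμ : IsP μ) (hν : IsP ν) {t : ℝ} (ht : 0 < t) :
    hh α ν t ≤ hh α (μ * ν) t := by
  rw [hh_mul, ← hμ.const (hh α ν t)]
  apply E_mono hμ.nonneg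
  intro a _
  exact gibbs α hν (hμ.mul hν) ht ht (α a)

theorem hh_one {t : ℝ} (ht : 0 < t) :
    hh α 1 t = (1 / 2) * log (2 * π * t) + 1 / 2 := by
  unfold hh EX dens
  rw [E_one]
  simp only [E_one, map_zero, sub_zero, zero_add]
  have h1 : ∀ u : ℝ, log (gd t (√t * u)) = -(1 / 2) * log (2 * π * t) + (-(1 / 2)) * u ^ 2 := by
    intro u
    unfold gd
    rw [Real.log_mul (by positivity) (Real.exp_pos _).ne', Real.log_exp, Real.log_inv,
      Real.log_sqrt (by positivity), mul_pow, Real.sq_sqrt ht.le]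
    field_simp
  simp only [h1]
  have e2 : ∫ u, (-(1 / 2)) * u ^ 2 ∂γ = -(1 / 2) := by
    rw [integral_const_mul, integral_sq_one, mul_one]
  rw [integral_add (integrable_const _) (Pol.id.sq.const_mul _).integrable, e2]
  simp
  ring

theorem hh_lower {ν : AddMonoidAlgebra ℝ G} (hν : IsP ν) {t : ℝ} (ht : 0 < t) :
    (1 / 2) * log (2 * π * t) + 1 / 2 ≤ hh α ν t := by
  rw [← hh_one α ht]
  have := hh_le_mul α hν isP_one ht
  rwa [mul_one] at this

theorem EX_sq_id (ν : AddMonoidAlgebra ℝ G) (hν : IsP ν) {t : ℝ} (ht : 0 < t) :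
    EX α ν t (fun x => x ^ 2) = E ν (fun g => (α g) ^ 2) + t := by
  unfold EX
  have h1 : ∀ g, ∫ u, (α g + √t * u) ^ 2 ∂γ = (α g) ^ 2 + t := by
    intro g
    have e : ∀ u : ℝ, (α g + √t * u) ^ 2 = ((α g) ^ 2 + (2 * α g * √t) * u) + t * u ^ 2 := by
      intro u
      have := Real.sq_sqrt ht.le
      calc (α g + √t * u) ^ 2 = ((α g) ^ 2 + (2 * α g * √t) * u) + (√t ^ 2) * u ^ 2 := by ring
        _ = _ := by rw [this]
    simp only [e]
    have i1 : Integrable (fun u : ℝ => (α g) ^ 2 + (2 * α g * √t) * u) γ :=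
      ((Pol.const _).add (Pol.id.const_mul _)).integrable
    have i2 : Integrable (fun u : ℝ => t * u ^ 2) γ := (Pol.id.sq.const_mul _).integrable
    have i3 : Integrable (fun u : ℝ => (2 * α g * √t) * u) γ := (Pol.id.const_mul _).integrable
    rw [integral_add i1 i2, integral_add (integrable_const _) i3, integral_const_mul,
      integral_const_mul, integral_id_zero, integral_sq_one]
    simp
  simp only [h1]
  rw [E_add_fun, hν.const]

theorem hh_upper {ν : AddMonoidAlgebra ℝ G} (hν : IsP ν) {t T : ℝ} (ht : 0 < t)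
    (hT : E ν (fun g => (α g) ^ 2) + t ≤ T) :
    hh α ν t ≤ (1 / 2) * log (2 * π * T) + 1 / 2 := by
  have h0 : 0 ≤ E ν (fun g => (α g) ^ 2) := E_nonneg hν.nonneg fun g _ => sq_nonneg _
  have hT0 : 0 < T := by linarith
  have h1 := gibbs α hν isP_one ht hT0 0
  refine h1.trans ?_
  have h2 : (fun x => log (dens α 1 T (0 + x))) =
      fun x => -(1 / 2) * log (2 * π * T) + (-(1 / (2 * T))) * x ^ 2 := by
    funext x
    unfold dens
    rw [E_one, map_zero, zero_add, sub_zero]
    unfold gd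
    rw [Real.log_mul (by positivity) (Real.exp_pos _).ne', Real.log_exp, Real.log_inv,
      Real.log_sqrt (by positivity)]
    field_simp
  rw [h2, EX_add α ν t (Pol.const _) (Pol.id.sq.const_mul _), EX_const α hν, EX_const_mul,
    EX_sq_id α ν hν ht]
  have h3 : (1 / (2 * T)) * (E ν (fun g => (α g) ^ 2) + t) ≤ 1 / 2 := by
    rw [div_mul_eq_mul_div, one_mul, div_le_iff₀ (by positivity)]
    linarith
  linarith

/-- data processing: the information about the summand of law `μ` does not increase -/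
theorem dpi {μ ν : AddMonoidAlgebra ℝ G} (hμ : IsP μ) (hν : IsP ν) {t : ℝ} (ht : 0 < t) :
    hh α (μ * ν) t - hh α ν t ≤ ent (μ * ν) - ent ν := by
  rw [ent_mul_sub hμ hν, hh_mul]
  rw [← hμ.const (hh α ν t), ← E_sub_fun]
  apply E_mono hμ.nonneg
  intro a ha
  have hμν := hμ.mul hν
  have hP1 := pol_log_dens α hν ht
  have hP2 : Pol (fun x => log (dens α (μ * ν) t (α a + x))) :=
    (pol_log_dens α hμν ht).comp_add (α a)
  have hi1 := integrable_mul_dens α (ν := ν) ht hP1
  have hi2 := integrable_mul_dens α (ν := ν) ht hP2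
  unfold hh
  rw [EX_eq_integral α ht hP1, EX_eq_integral α ht hP2]
  have e1 : (-∫ x, log (dens α (μ * ν) t (α a + x)) * dens α ν t x) -
      (-∫ x, log (dens α ν t x) * dens α ν t x) =
      ∫ x, (log (dens α ν t x) * dens α ν t x -
        log (dens α (μ * ν) t (α a + x)) * dens α ν t x) := by
    rw [integral_sub hi1 hi2]; ring
  rw [e1]
  set w : G → ℝ := fun b => log (ν.coeff b / (μ * ν).coeff (a + b)) with hw
  have e2 : E ν w = ∫ x, ∑ b ∈ ν.coeff.support, (ν.coeff b * w b) * gd t (x - α b) := by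
    rw [integral_finsetSum]
    · rw [E_def]
      apply Finset.sum_congr rfl
      intro b _
      rw [integral_const_mul, integral_gd ht, mul_one]
    · intro b _
      exact (integrable_gd ht _).const_mul _
  rw [e2]
  apply integral_mono (hi1.sub hi2)
  · apply integrable_finsetSum
    intro b _
    exact (integrable_gd ht _).const_mul _
  intro x
  have hpos := dens_pos α hν ht x
  have hpos2 := dens_pos α hμν ht (α a + x)
  have hb' : ∀ b ∈ ν.coeff.support, 0 < ν.coeff b := fun b hb =>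
    lt_of_le_of_ne (hν.nonneg b) (Ne.symm (Finsupp.mem_support_iff.1 hb))
  have hls := logsum ν.coeff.support (fun b => ν.coeff b * gd t (x - α b))
    (fun b => (μ * ν).coeff (a + b) * gd t (x - α b)) (dens α (μ * ν) t (α a + x))
    (fun b _ => mul_nonneg (hν.nonneg b) (gd_pos ht _).le)
    (fun b _ => mul_nonneg (hμν.nonneg _) (gd_pos ht _).le)
    (fun b hb h => by
      exfalso
      exact (mul_pos (hμ.mul_pos hν ha (hb' b hb)) (gd_pos ht _)).ne' h)
    (by
      classical
      unfold dens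
      rw [E_def]
      have e3 : ∀ b ∈ ν.coeff.support, (μ * ν).coeff (a + b) * gd t (x - α b) =
          (fun z => (μ * ν).coeff z * gd t (α a + x - α z)) (a + b) := by
        intro b _
        simp only [map_add]
        congr 2
        ring
      rw [Finset.sum_congr rfl e3, ← Finset.sum_image (s := ν.coeff.support)
        (g := fun b => a + b) (f := fun z => (μ * ν).coeff z * gd t (α a + x - α z))]
      · apply Finset.sum_le_sum_of_subset_of_nonneg
        · intro z hz
          obtain ⟨b, hb, rfl⟩ := Finset.mem_image.1 hz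
          exact Finsupp.mem_support_iff.2 (hμ.mul_pos hν ha (hb' b hb)).ne'
        · intro z _ _
          exact mul_nonneg (hμν.nonneg _) (gd_pos ht _).le
      · intro b _ b' _ h
        exact add_left_cancel h)
  have e4 : ∑ b ∈ ν.coeff.support, ν.coeff b * gd t (x - α b) = dens α ν t x := rfl
  rw [e4, Real.log_div hpos.ne' hpos2.ne'] at hls
  have e5 : ∑ i ∈ ν.coeff.support, ν.coeff i * gd t (x - α i) *
      log (ν.coeff i * gd t (x - α i) / ((μ * ν).coeff (a + i) * gd t (x - α i))) =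
      ∑ b ∈ ν.coeff.support, (ν.coeff b * w b) * gd t (x - α b) := by
    apply Finset.sum_congr rfl
    intro b _
    rw [mul_div_mul_right _ _ (gd_pos ht _).ne']
    simp only [hw]
    ring
  rw [e5] at hls
  simp only [Pi.sub_apply]
  linarith

/-- the information carried through Gaussian noise decreases with the noise -/
theorem noise_antitone {μ ν : AddMonoidAlgebra ℝ G} (hμ : IsP μ) (hν : IsP ν) {t t' : ℝ}
    (ht : 0 < t) (htt : t ≤ t') :
    hh α (μ * ν) t' - hh α ν t' ≤ hh α (μ * ν) t - hh α ν t := by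
  have hd : ∀ x ∈ Set.Ioi (0 : ℝ), HasDerivAt (fun t => hh α (μ * ν) t - hh α ν t)
      ((1 / 2) * JJ α (μ * ν) x - (1 / 2) * JJ α ν x) x := fun x hx =>
    (deBruijn α (hμ.mul hν) hx).sub (deBruijn α hν hx)
  have hanti : AntitoneOn (fun t => hh α (μ * ν) t - hh α ν t) (Set.Ioi 0) := by
    apply antitoneOn_of_deriv_nonpos (convex_Ioi 0)
    · exact fun x hx => (hd x hx).continuousAt.continuousWithinAt
    · intro x hx
      rw [interior_Ioi] at hx
      exact (hd x hx).differentiableAt.differentiableWithinAt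
    · intro x hx
      rw [interior_Ioi] at hx
      rw [(hd x hx).deriv]
      have := JJ_mul_le α hμ hν hx
      linarith
  exact hanti (Set.mem_Ioi.2 ht) (Set.mem_Ioi.2 (lt_of_lt_of_le ht htt)) htt

/-- monotonicity of entropy (Artstein, Ball, Barthe, Naor) for Gaussian mixtures -/
theorem abbn {μ : AddMonoidAlgebra ℝ G} (hμ : IsP μ) (n : ℕ) (hn : 0 < n) {s : ℝ} (hs : 0 < s) :
    (1 / 2) * log ((n + 1) / n) ≤
      hh α (μ ^ (n + 1)) ((n + 1 : ℕ) * s) - hh α (μ ^ n) (n * s) := by
  have hn' : (0 : ℝ) < n := by exact_mod_cast hn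
  set D : ℝ → ℝ := fun s => hh α (μ ^ (n + 1)) ((n + 1 : ℕ) * s) - hh α (μ ^ n) (n * s) with hD
  have hd : ∀ x ∈ Set.Ioi (0 : ℝ), HasDerivAt D
      (((1 / 2) * JJ α (μ ^ (n + 1)) ((n + 1 : ℕ) * x)) * (n + 1 : ℕ) -
        ((1 / 2) * JJ α (μ ^ n) (n * x)) * n) x := by
    intro x hx
    have hx' : 0 < x := hx
    have h1 : HasDerivAt (fun s : ℝ => ((n + 1 : ℕ) : ℝ) * s) ((n + 1 : ℕ) : ℝ) x := by
      simpa using (hasDerivAt_id x).const_mul ((n + 1 : ℕ) : ℝ)
    have h2 : HasDerivAt (fun s : ℝ => (n : ℝ) * s) (n : ℝ) x := by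
      simpa using (hasDerivAt_id x).const_mul (n : ℝ)
    have h3 := deBruijn α (hμ.pow (n + 1)) (t := ((n + 1 : ℕ) : ℝ) * x) (by positivity)
    have h4 := deBruijn α (hμ.pow n) (t := (n : ℝ) * x) (by positivity)
    have h5 := HasDerivAt.comp (h₂ := fun τ => hh α (μ ^ (n + 1)) τ) x h3 h1
    have h6 := HasDerivAt.comp (h₂ := fun τ => hh α (μ ^ n) τ) x h4 h2
    exact h5.sub h6
  have hanti : AntitoneOn D (Set.Ioi 0) := by
    apply antitoneOn_of_deriv_nonpos (convex_Ioi 0)
    · exact fun x hx => (hd x hx).continuousAt.continuousWithinAt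
    · intro x hx
      rw [interior_Ioi] at hx
      exact (hd x hx).differentiableAt.differentiableWithinAt
    · intro x hx
      rw [interior_Ioi] at hx
      rw [(hd x hx).deriv]
      have := JJ_mono α hμ hx n hn
      linarith
  set m := E (μ ^ n) (fun g => (α g) ^ 2) with hm
  have hm0 : 0 ≤ m := E_nonneg (hμ.pow n).nonneg fun g _ => sq_nonneg _
  have hlow : ∀ s', s ≤ s' → (1 / 2) * log (((n : ℝ) + 1) / (n + m / s')) ≤ D s := by
    intro s' hss
    have hs' : 0 < s' := lt_of_lt_of_le hs hss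
    have h1 : D s' ≤ D s := hanti (Set.mem_Ioi.2 hs) (Set.mem_Ioi.2 hs') hss
    refine le_trans ?_ h1
    have h2 := hh_lower α (hμ.pow (n + 1)) (t := ((n + 1 : ℕ) : ℝ) * s') (by positivity)
    have h3 := hh_upper α (hμ.pow n) (t := (n : ℝ) * s') (T := m + n * s') (by positivity) le_rfl
    have h4 : (1 / 2) * log (((n : ℝ) + 1) / (n + m / s')) =
        ((1 / 2) * log (2 * π * (((n + 1 : ℕ) : ℝ) * s')) + 1 / 2) -
        ((1 / 2) * log (2 * π * (m + n * s')) + 1 / 2) := by
      have e : ((n : ℝ) + 1) / (n + m / s') =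
          (2 * π * (((n + 1 : ℕ) : ℝ) * s')) / (2 * π * (m + n * s')) := by
        push_cast
        field_simp
        ring
      rw [e, Real.log_div (by positivity) (by positivity)]
      ring
    rw [h4]
    simp only [hD]
    linarith
  have hlim : Tendsto (fun s' : ℝ => (1 / 2) * log (((n : ℝ) + 1) / (n + m / s'))) atTop
      (𝓝 ((1 / 2) * log (((n : ℝ) + 1) / n))) := by
    have h1 : Tendsto (fun s' : ℝ => m / s') atTop (𝓝 0) := tendsto_const_nhds.div_atTop tendsto_id
    have h2 : Tendsto (fun s' : ℝ => (n : ℝ) + m / s') atTop (𝓝 ((n : ℝ) + 0)) := h1.const_add _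
    rw [add_zero] at h2
    have h3 := (tendsto_const_nhds (x := (n : ℝ) + 1)).div h2 hn'.ne'
    exact (h3.log (by positivity)).const_mul _
  exact le_of_tendsto hlim (eventually_atTop.2 ⟨s, hlow⟩)

end PartMono

section PartScale

variable {G : Type*} [AddCommGroup G]

theorem exists_hom [IsAddTorsionFree G] (q : G) (hq : q ≠ 0) : ∃ α : G →+ ℝ, α q = 1 := by
  have hinj : Function.Injective (zmultiplesHom G q) := by
    intro a b hab
    simp only [zmultiplesHom_apply] at hab
    have h1 : (a - b) • q = 0 := by rw [sub_smul, hab, sub_self]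
    by_contra hne
    have h2 : (a - b).natAbs • q = 0 := by
      rcases Int.natAbs_eq (a - b) with h | h
      · rw [h, natCast_zsmul] at h1; exact h1
      · rw [h, neg_smul, natCast_zsmul, neg_eq_zero] at h1; exact h1
    have h3 : (a - b).natAbs ≠ 0 := by
      rw [Int.natAbs_ne_zero]; exact sub_ne_zero.2 hne
    have h4 := IsAddTorsionFree.nsmul_right_injective (M := G) h3
    exact hq (h4 (by simp only [h2, smul_zero]))
  obtain ⟨h, hh⟩ := (Module.Baer.of_divisible ℝ).extension_property_addMonoidHom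
    (zmultiplesHom G q) hinj (Int.castAddHom ℝ)
  refine ⟨h, ?_⟩
  have := DFunLike.congr_fun hh 1
  simpa using this

theorem arctan_step (y : ℝ) : 1 / (1 + y ^ 2) ≤ 3 * (arctan (y + 1) - arctan y) := by
  obtain ⟨c, hc, h⟩ := exists_hasDerivAt_eq_slope arctan (fun x => 1 / (1 + x ^ 2))
    (show y < y + 1 by linarith) continuous_arctan.continuousOn
    (fun x _ => Real.hasDerivAt_arctan x)
  have h1 : arctan (y + 1) - arctan y = 1 / (1 + c ^ 2) := by
    rw [h]; ring
  rw [h1]
  have h2 : 1 + c ^ 2 ≤ 3 * (1 + y ^ 2) := by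
    have hc1 : |c| ≤ |y| + 1 := by
      have h5 : |c| ≤ |y| + |c - y| := by
        have := abs_add_le y (c - y)
        rwa [add_sub_cancel] at this
      have h6 : |c - y| ≤ 1 := by
        rw [abs_le]; constructor <;> linarith [hc.1, hc.2]
      linarith
    have h3 : c ^ 2 ≤ (|y| + 1) ^ 2 := by
      rw [← sq_abs c]; exact pow_le_pow_left₀ (abs_nonneg _) hc1 2
    have h4 : (|y|) ^ 2 = y ^ 2 := sq_abs y
    nlinarith [sq_nonneg (|y| - 1)]
  rw [mul_one_div, div_le_div_iff₀ (by positivity) (by positivity)]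
  linarith

theorem sum_gd_le (N : ℕ) (x : ℝ) : ∑ j ∈ Finset.range N, gd 1 (x - j) ≤ 6 * π := by
  have h1 : ∀ j ∈ Finset.range N, gd 1 (x - j) ≤
      6 * (arctan (((j + 1 : ℕ) : ℝ) - x) - arctan ((j : ℕ) - x)) := by
    intro j _
    have ha := arctan_step ((j : ℝ) - x)
    have e : (j : ℝ) - x + 1 = ((j + 1 : ℕ) : ℝ) - x := by push_cast; ring
    rw [e] at ha
    have hb : gd 1 (x - j) ≤ 2 * (1 / (1 + ((j : ℝ) - x) ^ 2)) := by
      unfold gd
      have h2 : (√(2 * π * 1))⁻¹ ≤ 1 := by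
        apply inv_le_one_of_one_le₀
        rw [Real.one_le_sqrt]
        have := Real.pi_gt_three
        linarith
      have h3 : exp (-(x - j) ^ 2 / (2 * 1)) ≤ 2 * (1 / (1 + ((j : ℝ) - x) ^ 2)) := by
        have h4 : -(x - j) ^ 2 / (2 * 1) = -((x - j) ^ 2 / 2) := by ring
        rw [h4, Real.exp_neg]
        have h5 := Real.add_one_le_exp ((x - j) ^ 2 / 2)
        have h6 : (exp ((x - j) ^ 2 / 2))⁻¹ ≤ ((x - j) ^ 2 / 2 + 1)⁻¹ :=
          inv_anti₀ (by positivity) h5
        refine h6.trans ?_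
        rw [mul_one_div, inv_eq_one_div, div_le_div_iff₀ (by positivity) (by positivity)]
        nlinarith [sq_nonneg (x - j)]
      calc (√(2 * π * 1))⁻¹ * exp (-(x - j) ^ 2 / (2 * 1)) ≤ 1 * exp (-(x - j) ^ 2 / (2 * 1)) :=
            mul_le_mul_of_nonneg_right h2 (Real.exp_pos _).le
        _ ≤ _ := by rw [one_mul]; exact h3
    linarith
  refine (Finset.sum_le_sum h1).trans ?_
  rw [← Finset.mul_sum, Finset.sum_range_sub (fun j : ℕ => arctan ((j : ℝ) - x))]
  have h2 := Real.arctan_lt_pi_div_two ((N : ℝ) - x)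
  have h3 := Real.neg_pi_div_two_lt_arctan (((0 : ℕ) : ℝ) - x)
  generalize arctan (((0 : ℕ) : ℝ) - x) = b at h3 ⊢
  generalize arctan ((N : ℝ) - x) = a at h2 ⊢
  linarith

theorem hh_prog_lower (α : G →+ ℝ) (q : G) (hα : α q = 1) (N : ℕ) (hN : 0 < N) :
    log (N / (6 * π)) ≤ hh α (prog q N) 1 := by
  have hN' : (0 : ℝ) < N := by exact_mod_cast hN
  have hP := isP_prog q N hN
  have hle : ∀ x, log (dens α (prog q N) 1 x) ≤ -log (N / (6 * π)) := by
    intro x
    rw [← Real.log_inv, inv_div]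
    apply Real.log_le_log (dens_pos α hP one_pos x)
    unfold dens
    rw [E_prog]
    have h1 : ∑ j ∈ Finset.range N, gd 1 (x - α (j • q)) = ∑ j ∈ Finset.range N, gd 1 (x - j) := by
      apply Finset.sum_congr rfl
      intro j _
      rw [map_nsmul, hα]
      simp
    rw [h1, inv_mul_eq_div]
    exact div_le_div_of_nonneg_right (sum_gd_le N x) hN'.le
  have h2 := EX_mono α hP.nonneg 1 (pol_log_dens α hP one_pos) (Pol.const _) hle
  rw [EX_const α hP] at h2
  unfold hh
  linarith

theorem hh_prog_upper (α : G →+ ℝ) (q : G) (hα : α q = 1) (N : ℕ) (hN : 0 < N) {T : ℝ}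
    (hT : 0 < T) (hTN : T ≤ N ^ 2) :
    hh α (prog q N) T ≤ (1 / 2) * log (2 * π * (2 * N ^ 2)) + 1 / 2 := by
  have hN' : (0 : ℝ) < N := by exact_mod_cast hN
  apply hh_upper α (isP_prog q N hN) hT
  rw [E_prog]
  have h1 : ∑ j ∈ Finset.range N, (α (j • q)) ^ 2 ≤ ∑ _j ∈ Finset.range N, (N : ℝ) ^ 2 := by
    apply Finset.sum_le_sum
    intro j hj
    rw [map_nsmul, hα, nsmul_eq_mul, mul_one]
    apply pow_le_pow_left₀ (Nat.cast_nonneg _)
    exact_mod_cast (Finset.mem_range.1 hj).le
  rw [Finset.sum_const, Finset.card_range, nsmul_eq_mul] at h1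
  have h2 : (N : ℝ)⁻¹ * ∑ j ∈ Finset.range N, (α (j • q)) ^ 2 ≤ N ^ 2 := by
    rw [inv_mul_le_iff₀ hN']; exact h1
  linarith

/-- the constant of the scale argument -/
noncomputable def C3 : ℝ := (1 / 2) * log (4 * π) + 1 / 2 + log (6 * π)

theorem C3_pos : 0 < C3 := by
  unfold C3
  have h := Real.pi_gt_three
  have h1 : 0 < log (4 * π) := Real.log_pos (by linarith)
  have h2 : 0 < log (6 * π) := Real.log_pos (by linarith)
  linarith

theorem scale_bound (α : G →+ ℝ) (q : G) (hα : α q = 1) (N : ℕ) (hN : 0 < N) {T : ℝ}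
    (hT : 1 ≤ T) (hTN : T ≤ N ^ 2) {ν : AddMonoidAlgebra ℝ G} (hν : IsP ν) :
    hh α ν T - hh α ν 1 ≤ (ent (prog q N * ν) - ent ν) + C3 := by
  have hN' : (0 : ℝ) < N := by exact_mod_cast hN
  have hP := isP_prog q N hN
  have h1 := hh_le_mul α hP hν (t := T) (by linarith)
  have h2 := noise_antitone α hν hP one_pos hT
  have h3 := dpi α hP hν one_pos
  have h4 := hh_prog_lower α q hα N hN
  have h5 := hh_prog_upper α q hα N hN (by linarith) hTN
  rw [mul_comm ν] at h2
  have h6 : (1 / 2) * log (2 * π * (2 * N ^ 2)) + 1 / 2 - log (N / (6 * π)) = C3 := by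
    unfold C3
    rw [show 2 * π * (2 * (N : ℝ) ^ 2) = (4 * π) * N ^ 2 by ring, Real.log_mul (by positivity)
      (by positivity), Real.log_pow, Real.log_div (by positivity) (by positivity)]
    push_cast
    ring
  linarith

/-- Finite version of the main theorem (natural logarithm). -/
theorem finite_main (n : ℕ) (hn : 0 < n) (ε : ℝ) (hε : 0 < ε) : ∃ H0 : ℝ,
    ∀ {G : Type*} [AddCommGroup G] [IsAddTorsionFree G] {μ : AddMonoidAlgebra ℝ G}, IsP μ →
      H0 < ent μ →
      ent (μ ^ n) + (1 / 2) * log ((n + 1) / n) - ε ≤ ent (μ ^ (n + 1)) := by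
  have hn' : (0 : ℝ) < n := by exact_mod_cast hn
  set r : ℝ := (n + 1) / n with hr
  have hr1 : 1 < r := by
    rw [hr, one_lt_div hn']; linarith
  have hr0 : 0 < r := by linarith
  have hr2 : r ≤ 2 := by
    rw [hr, div_le_iff₀ hn']
    have : (1 : ℝ) ≤ n := by exact_mod_cast hn
    linarith
  obtain ⟨K, hK⟩ := exists_nat_ge ((n + 1 + C3) / ε)
  have hC3 := C3_pos
  have hK0 : 0 < K := by
    have : (0 : ℝ) < K := lt_of_lt_of_le (by positivity) hK
    exact_mod_cast this
  have hK' : (0 : ℝ) < K := by exact_mod_cast hK0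
  set T := r ^ K with hT
  have hT1 : 1 ≤ T := one_le_pow₀ hr1.le
  obtain ⟨N, hN⟩ := exists_nat_ge T
  have hN1 : (1 : ℝ) ≤ N := hT1.trans hN
  have hN0 : 0 < N := by
    have : (0 : ℝ) < N := by linarith
    exact_mod_cast this
  have hTN : T ≤ (N : ℝ) ^ 2 := by nlinarith
  obtain ⟨H0, hH0⟩ := exists_period (n : ℝ) hn'.le N hN0
  refine ⟨H0, ?_⟩
  intro G _ _ μ hμ hbig
  by_cases hcase : (1 / 2) * log r ≤ ent (μ ^ (n + 1)) - ent (μ ^ n)
  · linarith
  · have hlogr : (1 / 2) * log r ≤ 1 := by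
      have := Real.log_le_sub_one_of_pos hr0
      linarith
    have hδ : ent (μ ^ (n + 1)) - ent (μ ^ n) ≤ 1 := by
      have := not_le.1 hcase
      linarith
    have h2n := ent_pow_le hμ n n
    have hdouble : ent (μ ^ n * μ ^ n) - ent (μ ^ n) ≤ n := by
      rw [← pow_add]
      have : (n : ℝ) * (ent (μ ^ (n + 1)) - ent (μ ^ n)) ≤ n * 1 :=
        mul_le_mul_of_nonneg_left hδ hn'.le
      linarith
    have hlarge : H0 < ent (μ ^ n) := by
      obtain ⟨m, rfl⟩ : ∃ m, n = m + 1 := ⟨n - 1, by omega⟩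
      exact lt_of_lt_of_le hbig (ent_le_pow hμ m)
    obtain ⟨q, hq, hper⟩ := hH0 (hμ.pow n) hdouble hlarge
    obtain ⟨α, hα⟩ := exists_hom q hq
    have hsc := scale_bound α q hα N hN0 hT1 hTN (hμ.pow n)
    have htot : hh α (μ ^ n) (r ^ K) - hh α (μ ^ n) (r ^ 0) ≤ n + 1 + C3 := by
      rw [pow_zero]
      linarith
    rw [← Finset.sum_range_sub (fun k => hh α (μ ^ n) (r ^ k))] at htot
    obtain ⟨k, hk, hkle⟩ := Finset.exists_le_of_sum_le
      (s := Finset.range K) (f := fun k => hh α (μ ^ n) (r ^ (k + 1)) - hh α (μ ^ n) (r ^ k))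
      (g := fun _ => (n + 1 + C3) / K) (Finset.nonempty_range_iff.2 hK0.ne') (by
        rw [Finset.sum_const, Finset.card_range, nsmul_eq_mul, mul_div_cancel₀ _ hK'.ne']
        exact htot)
    have hkε : (n + 1 + C3) / K ≤ ε := by
      rw [div_le_iff₀ hK']
      rw [div_le_iff₀ hε] at hK
      linarith
    have hrk : 0 < r ^ k := by positivity
    have h1 := abbn α hμ n hn (s := r ^ k / n) (by positivity)
    have e1 : ((n + 1 : ℕ) : ℝ) * (r ^ k / n) = r ^ (k + 1) := by
      push_cast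
      rw [pow_succ, hr]
      field_simp
    have e2 : (n : ℝ) * (r ^ k / n) = r ^ k := by field_simp
    rw [e1, e2] at h1
    have h2 := dpi α hμ (hμ.pow n) (t := r ^ (k + 1)) (by positivity)
    rw [← pow_succ'] at h2
    linarith

end PartScale

section PartInf

variable {G : Type*} [AddCommGroup G]

noncomputable def fr (p : PMF G) (n : ℕ) (z : G) : ℝ := (sumLaw p n z).toReal

theorem toReal_nonneg' (q : PMF G) (z : G) : 0 ≤ (q z).toReal := ENNReal.toReal_nonneg

theorem toReal_le_one' (q : PMF G) (z : G) : (q z).toReal ≤ 1 := by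
  have := ENNReal.toReal_mono ENNReal.one_ne_top (q.coe_le_one z)
  simpa using this

theorem hasSum_pmf (q : PMF G) : HasSum (fun z => (q z).toReal) 1 := by
  have h1 : Summable (fun z => (q z).toReal) := ENNReal.summable_toReal q.tsum_coe_ne_top
  have h2 : ∑' z, (q z).toReal = 1 := by
    rw [← ENNReal.tsum_toReal_eq (fun z => q.apply_ne_top z), q.tsum_coe]
    simp
  rw [← h2]
  exact h1.hasSum

theorem map_add_apply (p : PMF G) (s z : G) : (p.map fun x => s + x) z = p (z - s) := by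
  rw [PMF.map_apply, tsum_eq_single (z - s)]
  · simp
  · intro x hx
    rw [if_neg]
    rintro rfl
    exact hx (by abel)

theorem fr_succ (p : PMF G) (n : ℕ) (z : G) :
    fr p (n + 1) z = ∑' s, fr p n s * (p (z - s)).toReal := by
  unfold fr
  rw [sumLaw, PMF.bind_apply, ENNReal.tsum_toReal_eq]
  · apply tsum_congr
    intro s
    rw [map_add_apply, ENNReal.toReal_mul]
  · intro s
    exact ENNReal.mul_ne_top ((sumLaw p n).apply_ne_top s) (PMF.apply_ne_top _ _)

theorem fr_zero (p : PMF G) (z : G) : fr p 0 z = (1 : AddMonoidAlgebra ℝ G).coeff z := by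
  classical
  unfold fr
  rw [sumLaw, PMF.pure_apply, coeff_eq_E, E_one]
  by_cases h : z = 0
  · simp [h]
  · rw [if_neg h, if_neg (Ne.symm h)]
    simp

theorem fr_one (p : PMF G) (z : G) : fr p 1 z = (p z).toReal := by
  rw [fr_succ, tsum_eq_single 0]
  · have : fr p 0 0 = 1 := by
      unfold fr
      rw [sumLaw, PMF.pure_apply_self]
      simp
    rw [this, one_mul, sub_zero]
  · intro s hs
    have : fr p 0 s = 0 := by
      unfold fr
      rw [sumLaw, PMF.pure_apply_of_ne _ _ hs]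
      simp
    rw [this, zero_mul]

theorem summable_fr_mul (p : PMF G) (n : ℕ) (z : G) :
    Summable (fun s => fr p n s * (p (z - s)).toReal) := by
  apply Summable.of_nonneg_of_le (fun s => mul_nonneg (toReal_nonneg' _ _) (toReal_nonneg' _ _))
    (fun s => ?_) (hasSum_pmf (sumLaw p n)).summable
  have h1 := toReal_le_one' p (z - s)
  have h2 := toReal_nonneg' (sumLaw p n) s
  show ((sumLaw p n) s).toReal * (p (z - s)).toReal ≤ ((sumLaw p n) s).toReal
  nlinarith

/-- truncation of `p` to a finite set -/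
noncomputable def tr (p : PMF G) (F : Finset G) : AddMonoidAlgebra ℝ G :=
  ∑ g ∈ F, single g (p g).toReal

theorem coeff_tr [DecidableEq G] (p : PMF G) (F : Finset G) (z : G) :
    (tr p F).coeff z = if z ∈ F then (p z).toReal else 0 := by
  rw [tr, coeff_eq_E, E_sum_left]
  simp only [E_single, mul_ite, mul_one, mul_zero]
  rw [Finset.sum_ite_eq']

theorem E_eq_tsum (μ : AddMonoidAlgebra ℝ G) (F : G → ℝ) :
    E μ F = ∑' g, μ.coeff g * F g := by
  rw [E_def, tsum_eq_sum]
  intro b hb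
  rw [Finsupp.notMem_support_iff.1 hb, zero_mul]

theorem summable_coeff_mul (μ : AddMonoidAlgebra ℝ G) (F : G → ℝ) :
    Summable (fun g => μ.coeff g * F g) := by
  apply summable_of_ne_finset_zero (s := μ.coeff.support)
  intro b hb
  rw [Finsupp.notMem_support_iff.1 hb, zero_mul]

theorem coeff_pow_succ (μ : AddMonoidAlgebra ℝ G) (n : ℕ) (z : G) :
    (μ ^ (n + 1)).coeff z = ∑' s, (μ ^ n).coeff s * μ.coeff (z - s) := by
  rw [pow_succ, coeff_mul_eq, E_eq_tsum]

theorem tr_nonneg (p : PMF G) (F : Finset G) (z : G) : 0 ≤ (tr p F).coeff z := by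
  classical
  rw [coeff_tr]
  split_ifs
  · exact toReal_nonneg' _ _
  · exact le_rfl

theorem tr_le (p : PMF G) (F : Finset G) (z : G) : (tr p F).coeff z ≤ (p z).toReal := by
  classical
  rw [coeff_tr]
  split_ifs
  · exact le_rfl
  · exact toReal_nonneg' _ _

theorem tr_pow_bounds (p : PMF G) (F : Finset G) (n : ℕ) :
    ∀ z, 0 ≤ ((tr p F) ^ n).coeff z ∧ ((tr p F) ^ n).coeff z ≤ fr p n z := by
  induction n with
  | zero =>
    intro z
    rw [pow_zero, ← fr_zero p z]
    exact ⟨toReal_nonneg' _ _, le_rfl⟩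
  | succ n ih =>
    intro z
    rw [coeff_pow_succ, fr_succ]
    refine ⟨tsum_nonneg fun s => mul_nonneg (ih s).1 (tr_nonneg p F _), ?_⟩
    apply Summable.tsum_le_tsum _ (summable_coeff_mul _ _) (summable_fr_mul p n z)
    intro s
    exact mul_le_mul (ih s).2 (tr_le p F _) (tr_nonneg p F _) (toReal_nonneg' _ _)

theorem tr_tendsto (p : PMF G) (z : G) :
    Tendsto (fun F : Finset G => (tr p F).coeff z) atTop (𝓝 (p z).toReal) := by
  classical
  apply tendsto_const_nhds.congr'
  filter_upwards [eventually_ge_atTop {z}] with F hF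
  rw [coeff_tr, if_pos (hF (Finset.mem_singleton_self z))]

theorem tr_pow_tendsto (p : PMF G) (n : ℕ) :
    ∀ z, Tendsto (fun F : Finset G => ((tr p F) ^ n).coeff z) atTop (𝓝 (fr p n z)) := by
  induction n with
  | zero =>
    intro z
    simp only [pow_zero, ← fr_zero p z]
    exact tendsto_const_nhds
  | succ n ih =>
    intro z
    simp only [coeff_pow_succ, fr_succ]
    apply tendsto_tsum_of_dominated_convergence (bound := fun s => fr p n s)
      (hasSum_pmf (sumLaw p n)).summable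
    · intro s
      exact (ih s).mul (tr_tendsto p (z - s))
    · refine Eventually.of_forall fun F s => ?_
      rw [Real.norm_eq_abs, abs_of_nonneg (mul_nonneg (tr_pow_bounds p F n s).1 (tr_nonneg p F _))]
      have h1 := (tr_pow_bounds p F n s).2
      have h2 := (tr_pow_bounds p F n s).1
      have h3 := (tr_le p F (z - s)).trans (toReal_le_one' p (z - s))
      have h4 := tr_nonneg p F (z - s)
      nlinarith

theorem negMulLog_le_add {c f : ℝ} (hc : 0 ≤ c) (hcf : c ≤ f) (hf : f ≤ 1) :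
    negMulLog c ≤ negMulLog f + f := by
  rcases eq_or_lt_of_le (hc.trans hcf) with h | h
  · have : c = 0 := by linarith
    rw [← h, this]; simp
  · have h1 := log_tangent (a := c) (b := 1) (l := f) hc zero_le_one (by norm_num) h
    rw [div_one] at h1
    have h2 : log f ≤ 0 := Real.log_nonpos h.le hf
    have h3 : f * log f ≤ c * log f := mul_le_mul_of_nonpos_right hcf h2
    unfold negMulLog
    linarith

theorem ent_smul_tendsto (p : PMF G) (n : ℕ)
    (hsum : Summable (fun z => negMulLog (fr p n z))) :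
    Tendsto (fun F : Finset G => ∑' z, negMulLog (((tr p F) ^ n).coeff z)) atTop
      (𝓝 (∑' z, negMulLog (fr p n z))) := by
  apply tendsto_tsum_of_dominated_convergence
    (bound := fun z => negMulLog (fr p n z) + fr p n z)
    (hsum.add (hasSum_pmf (sumLaw p n)).summable)
  · intro z
    exact (continuous_negMulLog.tendsto _).comp (tr_pow_tendsto p n z)
  · refine Eventually.of_forall fun F z => ?_
    have hb := tr_pow_bounds p F n z
    have h1 : fr p n z ≤ 1 := toReal_le_one' _ _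
    rw [Real.norm_eq_abs, abs_of_nonneg (negMulLog_nonneg hb.1 (hb.2.trans h1))]
    exact negMulLog_le_add hb.1 hb.2 h1

/-- total mass of the truncation -/
noncomputable def mF (p : PMF G) (F : Finset G) : ℝ := ∑ g ∈ F, (p g).toReal

theorem mF_tendsto (p : PMF G) : Tendsto (mF p) atTop (𝓝 1) := hasSum_pmf p

theorem E_tr_one (p : PMF G) (F : Finset G) : E (tr p F) (fun _ => 1) = mF p F := by
  rw [tr, E_sum_left, mF]
  simp only [E_single, mul_one]

theorem E_pow_one (μ : AddMonoidAlgebra ℝ G) (n : ℕ) :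
    E (μ ^ n) (fun _ => 1) = (E μ fun _ => 1) ^ n := by
  induction n with
  | zero => rw [pow_zero, pow_zero, E_one]
  | succ n ih =>
    rw [pow_succ, E_mul, pow_succ, ← ih]
    have := E_mul_const (μ ^ n) (E μ fun _ => 1) (fun _ => 1)
    simpa using this

theorem ent_eq_tsum (μ : AddMonoidAlgebra ℝ G) : ent μ = ∑' z, negMulLog (μ.coeff z) := by
  unfold ent
  rw [E_eq_tsum]
  apply tsum_congr
  intro z
  unfold negMulLog
  ring

theorem ent_smul (μ : AddMonoidAlgebra ℝ G) (k : ℝ) :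
    ent (k • μ) = k * (∑' z, negMulLog (μ.coeff z)) + negMulLog k * E μ (fun _ => 1) := by
  rw [ent_eq_tsum, E_eq_tsum]
  have h1 : ∀ z, negMulLog ((k • μ).coeff z) =
      k * negMulLog (μ.coeff z) + negMulLog k * (μ.coeff z * 1) := by
    intro z
    rw [coeff_smul_apply, smul_eq_mul, negMulLog_mul]
    ring
  simp only [h1]
  have h2 : Summable (fun z => negMulLog (μ.coeff z)) := by
    apply summable_of_ne_finset_zero (s := μ.coeff.support)
    intro b hb
    rw [Finsupp.notMem_support_iff.1 hb, negMulLog_zero]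
  rw [Summable.tsum_add (h2.mul_left k) ((summable_coeff_mul μ _).mul_left _), tsum_mul_left,
    tsum_mul_left]

theorem smul_pow' (μ : AddMonoidAlgebra ℝ G) (k : ℝ) (n : ℕ) : (k • μ) ^ n = k ^ n • μ ^ n :=
  smul_pow k μ n

theorem ent_norm_tendsto (p : PMF G) (n : ℕ)
    (hsum : Summable (fun z => negMulLog (fr p n z))) :
    Tendsto (fun F : Finset G => ent (((mF p F)⁻¹ • tr p F) ^ n)) atTop
      (𝓝 (∑' z, negMulLog (fr p n z))) := by
  have h1 : ∀ F : Finset G, ent (((mF p F)⁻¹ • tr p F) ^ n) =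
      ((mF p F)⁻¹) ^ n * (∑' z, negMulLog (((tr p F) ^ n).coeff z)) +
        negMulLog (((mF p F)⁻¹) ^ n) * (mF p F) ^ n := by
    intro F
    rw [smul_pow', ent_smul, E_pow_one, E_tr_one]
  simp only [h1]
  have hm := mF_tendsto p
  have hk : Tendsto (fun F => ((mF p F)⁻¹) ^ n) atTop (𝓝 1) := by
    have := (hm.inv₀ one_ne_zero).pow n
    simpa using this
  have hk2 : Tendsto (fun F => negMulLog (((mF p F)⁻¹) ^ n)) atTop (𝓝 0) := by
    have := (continuous_negMulLog.tendsto 1).comp hk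
    rw [negMulLog_one] at this
    exact this
  have hm2 : Tendsto (fun F => (mF p F) ^ n) atTop (𝓝 1) := by
    have := hm.pow n
    simpa using this
  have := (hk.mul (ent_smul_tendsto p n hsum)).add (hk2.mul hm2)
  simpa using this

theorem isP_norm (p : PMF G) (F : Finset G) (h : 0 < mF p F) : IsP ((mF p F)⁻¹ • tr p F) where
  nonneg z := by
    rw [coeff_smul_apply, smul_eq_mul]
    exact mul_nonneg (by positivity) (tr_nonneg p F z)
  mass := by
    rw [E_smul, E_tr_one, inv_mul_cancel₀ h.ne']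

/-- countable version, natural logarithm -/
theorem countable_main (n : ℕ) (hn : 0 < n) (ε : ℝ) (hε : 0 < ε) : ∃ H0 : ℝ,
    ∀ {G : Type*} [AddCommGroup G] [IsAddTorsionFree G] (p : PMF G),
      Summable (fun z => negMulLog (fr p 1 z)) → Summable (fun z => negMulLog (fr p n z)) →
      Summable (fun z => negMulLog (fr p (n + 1) z)) →
      H0 < ∑' z, negMulLog (fr p 1 z) →
      (∑' z, negMulLog (fr p n z)) + (1 / 2) * log ((n + 1) / n) - ε ≤
        ∑' z, negMulLog (fr p (n + 1) z) := by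
  obtain ⟨H0, hH0⟩ := finite_main n hn ε hε
  refine ⟨H0, ?_⟩
  intro G _ _ p h1 h2 h3 hbig
  have t1 := ent_norm_tendsto p 1 h1
  have t2 := ent_norm_tendsto p n h2
  have t3 := ent_norm_tendsto p (n + 1) h3
  have t4 := (t2.add_const ((1 / 2) * log (((n : ℝ) + 1) / n))).sub_const ε
  apply le_of_tendsto_of_tendsto t4 t3
  have e1 : ∀ᶠ F in atTop, 0 < mF p F := (mF_tendsto p).eventually_const_lt one_pos
  have e2 := t1.eventually_const_lt hbig
  filter_upwards [e1, e2] with F hF1 hF2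
  rw [pow_one] at hF2
  exact hH0 (isP_norm p F hF1) hF2

end PartInf

section PartFin

variable {G : Type*} [AddCommGroup G]

theorem summable_iff_lt_top (p : PMF G) (n : ℕ) :
    Summable (fun z => negMulLog (fr p n z)) ↔
      ∑' z, ENNReal.ofReal (negMulLog (fr p n z)) < ⊤ := by
  have hnn : ∀ z, 0 ≤ negMulLog (fr p n z) := fun z =>
    negMulLog_nonneg (toReal_nonneg' _ _) (toReal_le_one' _ _)
  constructor
  · intro h
    rw [← ENNReal.ofReal_tsum_of_nonneg hnn h]
    exact ENNReal.ofReal_lt_top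
  · intro h
    have := ENNReal.summable_toReal h.ne
    refine this.congr fun z => ?_
    exact ENNReal.toReal_ofReal (hnn z)

theorem summable_step (p : PMF G) (n : ℕ) (h1 : Summable (fun z => negMulLog (fr p 1 z)))
    (hn : Summable (fun z => negMulLog (fr p n z))) :
    Summable (fun z => negMulLog (fr p (n + 1) z)) := by
  rw [summable_iff_lt_top] at h1 hn ⊢
  have hpr : ∀ z, fr p 1 z = (p z).toReal := fr_one p
  simp only [hpr] at h1
  have key : ∑' z, ENNReal.ofReal (negMulLog (fr p (n + 1) z)) ≤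
      ∑' z, ENNReal.ofReal (negMulLog (fr p n z)) +
        ∑' z, ENNReal.ofReal (negMulLog (p z).toReal) := by
    have hz : ∀ z, ENNReal.ofReal (negMulLog (fr p (n + 1) z)) ≤
        ∑' s, ENNReal.ofReal (negMulLog (fr p n s * (p (z - s)).toReal)) := by
      intro z
      set A := fr p (n + 1) z with hA
      have hA1 : A ≤ 1 := toReal_le_one' _ _
      have hsum := summable_fr_mul p n z
      have e1 : negMulLog A = ∑' s, (fr p n s * (p (z - s)).toReal) * (-log A) := by
        rw [tsum_mul_right, ← fr_succ, ← hA]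
        unfold negMulLog
        ring
      rcases eq_or_lt_of_le (toReal_nonneg' (sumLaw p (n + 1)) z) with h0 | h0
      · have : A = 0 := h0.symm
        rw [this, negMulLog_zero]
        simp
      · have hApos : 0 < A := h0
        have hlog : 0 ≤ -log A := by
          have := Real.log_nonpos hApos.le hA1
          linarith
        rw [e1, ENNReal.ofReal_tsum_of_nonneg]
        · apply ENNReal.tsum_le_tsum
          intro s
          apply ENNReal.ofReal_le_ofReal
          have ha0 : 0 ≤ fr p n s * (p (z - s)).toReal :=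
            mul_nonneg (toReal_nonneg' _ _) (toReal_nonneg' _ _)
          rcases eq_or_lt_of_le ha0 with h | h
          · rw [← h]; simp
          · have hle : fr p n s * (p (z - s)).toReal ≤ A := by
              rw [hA, fr_succ]
              exact hsum.le_tsum s fun j _ => mul_nonneg (toReal_nonneg' _ _) (toReal_nonneg' _ _)
            have := Real.log_le_log h hle
            unfold negMulLog
            nlinarith
        · intro s
          exact mul_nonneg (mul_nonneg (toReal_nonneg' _ _) (toReal_nonneg' _ _)) hlog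
        · exact hsum.mul_right _
    refine (ENNReal.tsum_le_tsum hz).trans ?_
    rw [ENNReal.tsum_comm]
    have hs : ∀ s, ∑' z, ENNReal.ofReal (negMulLog (fr p n s * (p (z - s)).toReal)) =
        ENNReal.ofReal (negMulLog (fr p n s)) +
          ENNReal.ofReal (fr p n s) * ∑' z, ENNReal.ofReal (negMulLog (p z).toReal) := by
      intro s
      have e1 := (Equiv.subRight s).tsum_eq
        (fun x => ENNReal.ofReal (negMulLog (fr p n s * (p x).toReal)))
      simp only [Equiv.subRight_apply] at e1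
      rw [e1]
      have e2 : ∀ x, ENNReal.ofReal (negMulLog (fr p n s * (p x).toReal)) =
          p x * ENNReal.ofReal (negMulLog (fr p n s)) +
            ENNReal.ofReal (fr p n s) * ENNReal.ofReal (negMulLog (p x).toReal) := by
        intro x
        have n1 : 0 ≤ negMulLog (fr p n s) :=
          negMulLog_nonneg (toReal_nonneg' _ _) (toReal_le_one' _ _)
        have n2 : 0 ≤ negMulLog (p x).toReal :=
          negMulLog_nonneg (toReal_nonneg' _ _) (toReal_le_one' _ _)
        have n3 : 0 ≤ fr p n s := toReal_nonneg' _ _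
        have n4 : 0 ≤ (p x).toReal := toReal_nonneg' _ _
        rw [negMulLog_mul, ENNReal.ofReal_add (mul_nonneg n4 n1) (mul_nonneg n3 n2),
          ENNReal.ofReal_mul n4, ENNReal.ofReal_mul n3, ENNReal.ofReal_toReal (p.apply_ne_top x)]
      simp only [e2]
      rw [ENNReal.tsum_add, ENNReal.tsum_mul_right, ENNReal.tsum_mul_left, p.tsum_coe, one_mul]
    simp only [hs]
    rw [ENNReal.tsum_add, ENNReal.tsum_mul_right]
    have e3 : ∑' s, ENNReal.ofReal (fr p n s) = 1 := by
      have : ∀ s, ENNReal.ofReal (fr p n s) = sumLaw p n s := fun s =>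
        ENNReal.ofReal_toReal ((sumLaw p n).apply_ne_top s)
      simp only [this]
      exact (sumLaw p n).tsum_coe
    rw [e3, one_mul]
  exact lt_of_le_of_lt key (ENNReal.add_lt_top.2 ⟨hn, h1⟩)

theorem summable_zero (p : PMF G) : Summable (fun z => negMulLog (fr p 0 z)) := by
  apply summable_of_ne_finset_zero (s := {0})
  intro b hb
  have hb' : b ≠ 0 := by simpa using hb
  have : fr p 0 b = 0 := by
    unfold fr
    rw [sumLaw, PMF.pure_apply_of_ne _ _ hb']
    simp
  rw [this, negMulLog_zero]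

theorem summable_all (p : PMF G) (h1 : Summable (fun z => negMulLog (fr p 1 z))) (n : ℕ) :
    Summable (fun z => negMulLog (fr p n z)) := by
  induction n with
  | zero => exact summable_zero p
  | succ n ih => exact summable_step p n h1 ih

theorem term_eq (x : ℝ) : -(x * logb 2 x) = negMulLog x / log 2 := by
  unfold negMulLog logb
  ring

theorem finite_iff (q : PMF G) :
    FiniteEntropy q ↔ Summable (fun z => negMulLog (q z).toReal) := by
  unfold FiniteEntropy
  simp only [term_eq]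
  have h : (log 2 : ℝ) ≠ 0 := (Real.log_pos one_lt_two).ne'
  constructor
  · intro hs
    have := hs.mul_right (log 2)
    refine this.congr fun z => ?_
    field_simp
  · intro hs
    exact hs.div_const _

theorem entropyBits_eq (q : PMF G) : entropyBits q = (∑' z, negMulLog (q z).toReal) / log 2 := by
  unfold entropyBits
  simp only [term_eq]
  rw [tsum_div_const]

end PartFin

/-- **Tao's conjecture holds.** For every `n ≥ 2` (in particular for every `n ≥ 3`) and `ε > 0` there
is a constant `C` such that, for every torsion-free abelian group `G` and every law `p` on `G` of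
finite entropy at least `C` bits, the sums of independent copies satisfy
`H(S_n) ≥ H(S_{n-1}) + (1/2) log_2 (n / (n-1)) - ε` (both entropies being finite). -/
theorem result (n : ℕ) (hn : 2 ≤ n) (ε : ℝ) (hε : 0 < ε) : ∃ C : ℝ,
    ∀ (G : Type*) [AddCommGroup G] [IsAddTorsionFree G] (p : PMF G),
      FiniteEntropy p → C ≤ entropyBits p →
      FiniteEntropy (sumLaw p (n - 1)) ∧ FiniteEntropy (sumLaw p n) ∧
      entropyBits (sumLaw p (n - 1)) + (1 / 2) * logb 2 (n / (n - 1)) - ε ≤ entropyBits (sumLaw p n) := by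
  obtain ⟨m, rfl⟩ : ∃ m, n = m + 1 := ⟨n - 1, by omega⟩
  have hm : 0 < m := by omega
  have hlog : 0 < log 2 := Real.log_pos one_lt_two
  obtain ⟨H0, hH0⟩ := countable_main m hm (ε * log 2) (by positivity)
  refine ⟨(H0 + 1) / log 2, ?_⟩
  intro G _ _ p hfin hC
  have hfr1 : ∀ z, fr p 1 z = (p z).toReal := fr_one p
  have hs1 : Summable (fun z => negMulLog (fr p 1 z)) := by
    simp only [hfr1]
    exact (finite_iff p).1 hfin
  have hsm := summable_all p hs1 m
  have hsm1 := summable_all p hs1 (m + 1)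
  rw [entropyBits_eq, div_le_div_iff_of_pos_right hlog] at hC
  have hbig : H0 < ∑' z, negMulLog (fr p 1 z) := by
    simp only [hfr1]
    linarith
  have hmain := hH0 p hs1 hsm hsm1 hbig
  rw [Nat.add_sub_cancel]
  refine ⟨(finite_iff _).2 hsm, (finite_iff _).2 hsm1, ?_⟩
  rw [entropyBits_eq, entropyBits_eq]
  have e1 : ((m + 1 : ℕ) : ℝ) / (((m + 1 : ℕ) : ℝ) - 1) = ((m : ℝ) + 1) / m := by
    push_cast
    rw [add_sub_cancel_right]
  rw [e1]
  have e2 : (∑' z, negMulLog ((sumLaw p m) z).toReal) / log 2 +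
      1 / 2 * logb 2 (((m : ℝ) + 1) / m) - ε =
      ((∑' z, negMulLog (fr p m z)) + 1 / 2 * log (((m : ℝ) + 1) / m) - ε * log 2) / log 2 := by
    unfold logb fr
    field_simp
  rw [e2, div_le_div_iff_of_pos_right hlog]
  exact hmain

end Pool.Agent.Results.MP_b45167_pr.EntropyGrowth
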